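import Pool.Agent.J4.H75.GE.Cheb

/-!
# Gauss-Chebyshev nodes and weights
-/

set_option autoImplicit false

open Polynomial Finset

namespace Pool.Agent.J4.H75.GE

/-- The angles. -/
noncomputable def ang (k : ℕ) (j : Fin k) : ℝ := Real.pi * ((j : ℝ) + 1) / ((k : ℝ) + 1)

/-- The zeros `2 cos (π j / (k + 1))`, `1 ≤ j ≤ k`, of `u k`. -/
noncomputable def node (k : ℕ) (j : Fin k) : ℝ := 2 * Real.cos (ang k j)

/-- The weights `2 sin² (π j / (k + 1)) / (k + 1)`, `1 ≤ j ≤ k`. -/
noncomputable def wt (k : ℕ) (j : Fin k) : ℝ := 2 / ((k : ℝ) + 1) * Real.sin (ang k j) ^ 2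

theorem ang_pos (k : ℕ) (j : Fin k) : 0 < ang k j := by
  unfold ang
  have := Real.pi_pos
  positivity

theorem ang_lt (k : ℕ) (j : Fin k) : ang k j < Real.pi := by
  unfold ang
  rw [div_lt_iff₀ (by positivity)]
  have h : ((j : ℕ) : ℝ) + 1 ≤ k := by exact_mod_cast j.2
  have := Real.pi_pos
  nlinarith

theorem sin_ang_pos (k : ℕ) (j : Fin k) : 0 < Real.sin (ang k j) :=
  Real.sin_pos_of_pos_of_lt_pi (ang_pos k j) (ang_lt k j)

theorem node_injective (k : ℕ) : Function.Injective (node k) := by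
  intro i j h
  unfold node at h
  have h1 := Real.injOn_cos ⟨(ang_pos k i).le, (ang_lt k i).le⟩ ⟨(ang_pos k j).le, (ang_lt k j).le⟩
    (mul_left_cancel₀ two_ne_zero h)
  unfold ang at h1
  have h2 : (i : ℝ) = j := by
    have h3 : ((k : ℝ) + 1) ≠ 0 := by positivity
    rw [div_eq_div_iff h3 h3] at h1
    have h4 : Real.pi * ((k : ℝ) + 1) ≠ 0 := mul_ne_zero Real.pi_ne_zero h3
    have h5 : Real.pi * ((k : ℝ) + 1) * (i : ℝ) = Real.pi * ((k : ℝ) + 1) * (j : ℝ) := by linarith
    exact mul_left_cancel₀ h4 h5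
  exact Fin.ext (by exact_mod_cast h2)

theorem u_node (k : ℕ) (j : Fin k) : (u k).eval (node k j) = 0 := by
  have h := u_eval_cos k (ang k j)
  have e : Real.sin (((k : ℝ) + 1) * ang k j) = 0 := by
    have h1 : ((k : ℝ) + 1) * ang k j = ((j : ℕ) + 1 : ℕ) * Real.pi := by
      unfold ang
      push_cast
      field_simp
    rw [h1]
    exact Real.sin_nat_mul_pi _
  rw [e] at h
  exact (mul_eq_zero.1 h).resolve_right (sin_ang_pos k j).ne'

theorem u_monic (a : ℕ) : (u a).Monic ∧ (u a).natDegree = a := by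
  induction a using Nat.twoStepInduction with
  | zero => rw [u]; exact ⟨monic_one, natDegree_one⟩
  | one => rw [u]; exact ⟨monic_X, natDegree_X⟩
  | more a ih1 ih2 =>
    rw [u]
    have h1 : (X * u (a + 1)).Monic := monic_X.mul ih2.1
    have h2 : (X * u (a + 1)).natDegree = a + 2 := by
      rw [Monic.natDegree_mul monic_X ih2.1, natDegree_X, ih2.2]
      ring
    have h3 : (u a).degree < (X * u (a + 1)).degree := by
      rw [degree_eq_natDegree ih1.1.ne_zero, degree_eq_natDegree h1.ne_zero, ih1.2, h2]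
      exact_mod_cast (by omega : a < a + 2)
    refine ⟨h1.sub_of_left h3, ?_⟩
    rw [natDegree_sub_eq_left_of_natDegree_lt]
    · exact h2
    · rw [ih1.2, h2]
      omega

/-- The factorisation. -/
theorem u_eq_prod (k : ℕ) (x : ℝ) : (u k).eval x = ∏ j, (x - node k j) := by
  have hm : (∏ j, (X - C (node k j))).Monic := monic_prod_of_monic _ _ fun j _ => monic_X_sub_C _
  have hd : (∏ j, (X - C (node k j))).natDegree = k := by
    rw [natDegree_prod_of_monic _ _ fun j _ => monic_X_sub_C _]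
    simp
  have h : u k = ∏ j, (X - C (node k j)) := by
    refine Polynomial.eq_of_degree_sub_lt_of_eval_finset_eq (univ.image (node k)) ?_ ?_
    · rw [card_image_of_injective _ (node_injective k), card_univ, Fintype.card_fin]
      rcases Nat.eq_zero_or_pos k with h0 | h0
      · subst h0
        simp [u]
      · have h1 := degree_sub_lt_left (p := u k) (q := ∏ j, (X - C (node k j))) (by
          rw [degree_eq_natDegree (u_monic k).1.ne_zero, degree_eq_natDegree hm.ne_zero,
            (u_monic k).2, hd]) (u_monic k).1.ne_zero (by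
          rw [(u_monic k).1.leadingCoeff, hm.leadingCoeff])
        rwa [degree_eq_natDegree (u_monic k).1.ne_zero, (u_monic k).2] at h1
    · intro y hy
      rw [mem_image] at hy
      obtain ⟨j, -, rfl⟩ := hy
      rw [u_node, eval_prod, prod_eq_zero (mem_univ j)]
      simp
  rw [h, eval_prod]
  simp

/-- Small values of `u k` are taken only near the nodes. -/
theorem near_node {k : ℕ} {r x : ℝ} (hr : 0 < r) (hx : |(u k).eval x| < r ^ k) :
    ∃ j, |x - node k j| < r := by
  by_contra hcon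
  push Not at hcon
  rw [u_eq_prod, abs_prod] at hx
  have : r ^ k ≤ ∏ j, |x - node k j| := by
    calc r ^ k = ∏ j : Fin k, r := by simp
      _ ≤ _ := prod_le_prod (fun _ _ => hr.le) fun j _ => hcon j
  linarith

/-- The trigonometric sum. -/
theorem sum_sin_sq (k : ℕ) (j : Fin k) :
    ∑ a ∈ range k, Real.sin (((a : ℝ) + 1) * ang k j) ^ 2 = ((k : ℝ) + 1) / 2 := by
  set t := ang k j with ht
  have htel : ∀ N : ℕ, 2 * Real.sin t * ∑ a ∈ range N, Real.cos (2 * (a : ℝ) * t) =
      Real.sin ((2 * (N : ℝ) - 1) * t) + Real.sin t := by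
    intro N
    induction N with
    | zero =>
      simp
    | succ N ih =>
      rw [sum_range_succ, mul_add, ih]
      push_cast
      have e1 : (2 * ((N : ℝ) + 1) - 1) * t = 2 * (N : ℝ) * t + t := by ring
      have e2 : (2 * (N : ℝ) - 1) * t = 2 * (N : ℝ) * t - t := by ring
      rw [e1, e2, Real.sin_add, Real.sin_sub]
      ring
  have h1 := htel (k + 1)
  have e3 : (2 * ((k + 1 : ℕ) : ℝ) - 1) * t = ((j : ℕ) + 1 : ℕ) * (2 * Real.pi) - t := by
    rw [ht]
    unfold ang
    push_cast
    field_simp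
  rw [e3, Real.sin_nat_mul_two_pi_sub, neg_add_cancel] at h1
  have h2 : ∑ a ∈ range (k + 1), Real.cos (2 * (a : ℝ) * t) = 0 :=
    (mul_eq_zero.1 h1).resolve_left (mul_ne_zero two_ne_zero (sin_ang_pos k j).ne')
  have h4 : ∑ a ∈ range (k + 1), Real.sin ((a : ℝ) * t) ^ 2 = ((k : ℝ) + 1) / 2 := by
    have h5 : ∀ a ∈ range (k + 1), Real.sin ((a : ℝ) * t) ^ 2 =
        1 / 2 - Real.cos (2 * (a : ℝ) * t) / 2 := by
      intro a _
      rw [mul_assoc, Real.sin_sq, Real.cos_two_mul]
      ring
    rw [sum_congr rfl h5, sum_sub_distrib,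
      ← sum_div (range (k + 1)) (fun a : ℕ => Real.cos (2 * (a : ℝ) * t)) 2, h2, sum_const,
      card_range, nsmul_eq_mul]
    push_cast
    ring
  rw [sum_range_succ'] at h4
  simpa using h4

/-- The Christoffel function at a node. -/
theorem wt_mul_sum (k : ℕ) (j : Fin k) :
    wt k j * ∑ a ∈ range k, (u a).eval (node k j) ^ 2 = 1 := by
  have hs := sin_ang_pos k j
  have h1 : ∀ a ∈ range k, (u a).eval (node k j) ^ 2 =
      Real.sin (((a : ℝ) + 1) * ang k j) ^ 2 / Real.sin (ang k j) ^ 2 := by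
    intro a _
    rw [← u_eval_cos, node, mul_pow]
    field_simp
  rw [sum_congr rfl h1, ← sum_div, sum_sin_sq, wt]
  field_simp

theorem wt_pos (k : ℕ) (j : Fin k) : 0 < wt k j := by
  have := sin_ang_pos k j
  unfold wt
  positivity

theorem wt_le_one (k : ℕ) (j : Fin k) : wt k j ≤ 1 := by
  have hk : 1 ≤ k := by have := j.2; omega
  have h1 := wt_mul_sum k j
  have h2 : 1 ≤ ∑ a ∈ range k, (u a).eval (node k j) ^ 2 := by
    calc (1 : ℝ) = (u 0).eval (node k j) ^ 2 := by simp [u]
      _ ≤ _ := single_le_sum (f := fun a => (u a).eval (node k j) ^ 2)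
        (fun _ _ => sq_nonneg _) (mem_range.2 (by omega))
  have := wt_pos k j
  nlinarith

/-- The Lagrange polynomial of the node. -/
noncomputable def ell (k : ℕ) (j : Fin k) : ℝ[X] :=
  C (wt k j) * ∑ a ∈ range k, C ((u a).eval (node k j)) * u a

theorem ell_eval (k : ℕ) (j : Fin k) (x : ℝ) : (ell k j).eval x =
    wt k j * ∑ a ∈ range k, (u a).eval (node k j) * (u a).eval x := by
  simp [ell, eval_finsetSum]

theorem ell_node (k : ℕ) (j i : Fin k) : (ell k j).eval (node k i) = if j = i then 1 else 0 := by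
  rw [ell_eval]
  split_ifs with h
  · subst h
    rw [← wt_mul_sum k j]
    congr 1
    refine sum_congr rfl fun a _ => ?_
    rw [sq]
  · obtain ⟨m, rfl⟩ : ∃ m, k = m + 1 := ⟨k - 1, by have := j.2; omega⟩
    have h1 := christoffel (node (m + 1) j) (node (m + 1) i) m
    rw [u_node, u_node] at h1
    have h2 : node (m + 1) j - node (m + 1) i ≠ 0 :=
      sub_ne_zero.2 fun h' => h (node_injective _ h')
    have h3 : ∑ a ∈ range (m + 1), (u a).eval (node (m + 1) j) * (u a).eval (node (m + 1) i) = 0 := by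
      refine (mul_eq_zero.1 (h1.trans ?_)).resolve_left h2
      ring
    rw [h3, mul_zero]

/-- The values of `ell` near the nodes. -/
theorem ell_near (k : ℕ) {ε : ℝ} (hε : 0 < ε) : ∃ r > 0, ∀ (j i : Fin k) (x : ℝ),
    |x - node k i| < r → |(ell k j).eval x - if j = i then 1 else 0| < ε := by
  have h1 : ∀ p : Fin k × Fin k, ∃ r > 0, ∀ x : ℝ, |x - node k p.2| < r →
      |(ell k p.1).eval x - if p.1 = p.2 then 1 else 0| < ε := by
    intro p
    have hc : Continuous fun x => (ell k p.1).eval x := (ell k p.1).continuous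
    obtain ⟨r, hr, h⟩ := Metric.continuous_iff.1 hc (node k p.2) ε hε
    refine ⟨r, hr, fun x hx => ?_⟩
    have := h x (by rwa [Real.dist_eq])
    rwa [Real.dist_eq, ell_node] at this
  choose r hr h using h1
  rcases isEmpty_or_nonempty (Fin k) with h0 | h0
  · exact ⟨1, one_pos, fun j => h0.elim j⟩
  · refine ⟨univ.inf' univ_nonempty r, ?_, fun j i x hx => ?_⟩
    · rw [gt_iff_lt, lt_inf'_iff]
      exact fun p _ => hr p
    · exact h (j, i) x (hx.trans_le (inf'_le _ (mem_univ (j, i))))

end Pool.Agent.J4.H75.GE
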