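import Pool.Agent.J4.H75.GE.Sharp
import Pool.Agent.J4.H75.GE.Nodes

/-!
# The spectrum at the Moore bound
-/

set_option autoImplicit false
set_option linter.unusedSectionVars false
set_option maxHeartbeats 1000000

open Finset Matrix Polynomial

namespace Pool.Agent.J4.H75.GE

/-- The mean of the values of a polynomial. -/
noncomputable def mean {ι : Type} [Fintype ι] (x : ι → ℝ) : ℝ[X] →ₗ[ℝ] ℝ where
  toFun p := (∑ i, p.eval (x i)) / Fintype.card ι
  map_add' p q := by simp [sum_add_distrib, add_div]
  map_smul' c p := by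
    simp [← mul_sum, mul_div_assoc]

theorem mean_apply {ι : Type} [Fintype ι] (x : ι → ℝ) (p : ℝ[X]) :
    mean x p = (∑ i, p.eval (x i)) / Fintype.card ι := rfl

/-- Stability of the Gauss-Chebyshev quadrature. -/
theorem stability {k : ℕ} (hk : 1 ≤ k) {r : ℝ} (hr : 0 < r)
    (hgap : ∀ i j : Fin k, i ≠ j → 2 * r ≤ |node k i - node k j|) {ε : ℝ} (hε : 0 < ε) :
    ∃ ε₁ > 0, ∀ (ι : Type) [Fintype ι] [DecidableEq ι] [Nonempty ι] (x : ι → ℝ) (I : Finset ι),
      (∀ a ≤ k, ∀ b ≤ k, |mean x (u a * u b) - if a = b then 1 else 0| ≤ ε₁) →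
      (I.card : ℝ) ≤ ε₁ * Fintype.card ι →
      ∑ i ∈ Iᶜ, (u k).eval (x i) ^ 2 ≤ ε₁ * Fintype.card ι →
      ∀ j, |((univ.filter fun i => |x i - node k j| ≤ r).card : ℝ) - wt k j * Fintype.card ι| ≤
        ε * Fintype.card ι := by
  obtain ⟨r', hr', hell⟩ := ell_near k (ε := ε / 8) (by positivity)
  set ρ : ℝ := min r' r with hρ
  have hρ0 : 0 < ρ := lt_min hr' hr
  set K : ℝ := ∑ j : Fin k, ∑ a ∈ range k, |(u a).eval (node k j)| with hK
  have hK0 : 0 ≤ K := by positivity
  have hKj : ∀ j, ∑ a ∈ range k, |(u a).eval (node k j)| ≤ K := fun j =>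
    single_le_sum (f := fun j : Fin k => ∑ a ∈ range k, |(u a).eval (node k j)|)
      (fun j _ => by positivity) (mem_univ j)
  set M : ℝ := 1 + (ρ ^ (2 * k))⁻¹ with hM
  have hM0 : 0 < M := by positivity
  obtain ⟨ε₁, h0, h1, h2, h3, h4⟩ : ∃ ε₁ : ℝ, 0 < ε₁ ∧ ε₁ * K ≤ ε / 8 ∧ ε₁ * K ^ 2 ≤ 1 ∧
      M * ε₁ ≤ ε / 8 ∧ 2 * (M * ε₁) ≤ (ε / 4) ^ 2 := by
    set t : ℝ := min (min (ε / 8) 1) ((ε / 4) ^ 2 / 2) / (1 + K + K ^ 2 + M) with ht
    have hden : 0 < 1 + K + K ^ 2 + M := by positivity
    have hnum : 0 < min (min (ε / 8) 1) ((ε / 4) ^ 2 / 2) :=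
      lt_min (lt_min (by positivity) one_pos) (by positivity)
    have ht0 : 0 < t := div_pos hnum hden
    have key : ∀ y : ℝ, 0 ≤ y → y ≤ 1 + K + K ^ 2 + M →
        t * y ≤ min (min (ε / 8) 1) ((ε / 4) ^ 2 / 2) := by
      intro y hy0 hy
      calc t * y ≤ t * (1 + K + K ^ 2 + M) := mul_le_mul_of_nonneg_left hy ht0.le
        _ = _ := by rw [ht, div_mul_cancel₀ _ hden.ne']
    have m1 : min (min (ε / 8) 1) ((ε / 4) ^ 2 / 2) ≤ ε / 8 := (min_le_left _ _).trans (min_le_left _ _)
    have m2 : min (min (ε / 8) 1) ((ε / 4) ^ 2 / 2) ≤ 1 := (min_le_left _ _).trans (min_le_right _ _)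
    have m3 : min (min (ε / 8) 1) ((ε / 4) ^ 2 / 2) ≤ (ε / 4) ^ 2 / 2 := min_le_right _ _
    have hK2 : 0 ≤ K ^ 2 := sq_nonneg _
    have q1 := key K hK0 (by linarith)
    have q2 := key (K ^ 2) hK2 (by linarith)
    have q3 := key M hM0.le (by linarith)
    refine ⟨t, ht0, q1.trans m1, q2.trans m2, ?_, ?_⟩
    · rw [mul_comm]; exact q3.trans m1
    · rw [mul_comm M]; linarith
  refine ⟨ε₁, h0, ?_⟩
  intro ι _ _ _ x I hE hI hk2 j
  set n : ℝ := (Fintype.card ι : ℝ) with hn
  have hn0 : 0 < n := by
    have : 0 < Fintype.card ι := Fintype.card_pos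
    rw [hn]
    exact_mod_cast this
  have hu0 : u 0 = 1 := by rw [u]
  -- the far set
  set F : Finset ι := univ.filter fun i => ∀ j, ρ ≤ |x i - node k j| with hF
  have hFar : (F.card : ℝ) ≤ M * ε₁ * n := by
    have e1 : ((F \ I).card : ℝ) * ρ ^ (2 * k) ≤ ε₁ * n := by
      calc ((F \ I).card : ℝ) * ρ ^ (2 * k) = ∑ i ∈ F \ I, ρ ^ (2 * k) := by
            rw [sum_const, nsmul_eq_mul]
        _ ≤ ∑ i ∈ F \ I, (u k).eval (x i) ^ 2 := by
            refine sum_le_sum fun i hi => ?_
            rw [mem_sdiff, hF, mem_filter] at hi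
            have h5 : ρ ^ k ≤ |(u k).eval (x i)| := by
              by_contra hcon
              push Not at hcon
              obtain ⟨j', hj'⟩ := near_node hρ0 hcon
              exact absurd (hi.1.2 j') (not_le.2 hj')
            rw [mul_comm 2 k, pow_mul, ← sq_abs ((u k).eval (x i))]
            exact pow_le_pow_left₀ (by positivity) h5 2
        _ ≤ ∑ i ∈ Iᶜ, (u k).eval (x i) ^ 2 := by
            refine sum_le_sum_of_subset_of_nonneg ?_ fun _ _ _ => sq_nonneg _
            intro i hi
            rw [mem_sdiff] at hi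
            exact mem_compl.2 hi.2
        _ ≤ _ := hk2
    have e2 : (F.card : ℝ) ≤ (F \ I).card + I.card := by
      have h5 : F ⊆ (F \ I) ∪ I := by
        intro i hi
        by_cases h : i ∈ I
        · exact mem_union_right _ h
        · exact mem_union_left _ (mem_sdiff.2 ⟨hi, h⟩)
      exact_mod_cast (card_le_card h5).trans (card_union_le _ _)
    have e3 : ((F \ I).card : ℝ) ≤ ε₁ * n * (ρ ^ (2 * k))⁻¹ := by
      rw [← div_eq_mul_inv, le_div_iff₀ (by positivity)]
      exact e1
    rw [hM]
    nlinarith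
  -- the mean of the Lagrange polynomial
  have hub : ∀ a < k, |mean x (u a) - if a = 0 then 1 else 0| ≤ ε₁ := by
    intro a ha
    have := hE a ha.le 0 (Nat.zero_le _)
    rwa [hu0, mul_one] at this
  have hwt0 := wt_pos k j
  have hwt1 := wt_le_one k j
  have hmean : |mean x (ell k j) - wt k j| ≤ ε / 8 := by
    have e1 : mean x (ell k j) = wt k j * ∑ a ∈ range k, (u a).eval (node k j) * mean x (u a) := by
      rw [ell, ← smul_eq_C_mul, map_smul, smul_eq_mul, map_sum]
      congr 1
      refine sum_congr rfl fun a _ => ?_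
      rw [← smul_eq_C_mul, map_smul, smul_eq_mul]
    have e2 : wt k j = wt k j * ∑ a ∈ range k, (u a).eval (node k j) * (if a = 0 then 1 else 0) := by
      conv_lhs => rw [← mul_one (wt k j)]
      congr 1
      rw [sum_eq_single 0]
      · simp [hu0]
      · intro a _ ha
        rw [if_neg ha, mul_zero]
      · intro h
        exact absurd (mem_range.2 (by omega)) h
    rw [e1]
    nth_rewrite 2 [e2]
    rw [← mul_sub, ← sum_sub_distrib, abs_mul, abs_of_pos hwt0]
    have e3 : |∑ a ∈ range k, ((u a).eval (node k j) * mean x (u a) -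
        (u a).eval (node k j) * (if a = 0 then 1 else 0))| ≤ ε₁ * K := by
      refine (abs_sum_le_sum_abs _ _).trans ?_
      calc ∑ a ∈ range k, |(u a).eval (node k j) * mean x (u a) -
            (u a).eval (node k j) * (if a = 0 then 1 else 0)|
          ≤ ∑ a ∈ range k, |(u a).eval (node k j)| * ε₁ := by
            refine sum_le_sum fun a ha => ?_
            rw [← mul_sub, abs_mul]
            exact mul_le_mul_of_nonneg_left (hub a (mem_range.1 ha)) (abs_nonneg _)
        _ = ε₁ * ∑ a ∈ range k, |(u a).eval (node k j)| := by rw [← sum_mul, mul_comm]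
        _ ≤ ε₁ * K := mul_le_mul_of_nonneg_left (hKj j) h0.le
    have e4 : 0 ≤ |∑ a ∈ range k, ((u a).eval (node k j) * mean x (u a) -
        (u a).eval (node k j) * (if a = 0 then 1 else 0))| := abs_nonneg _
    nlinarith
  -- the mean of its square
  have hsq : mean x (ell k j ^ 2) ≤ 2 := by
    have e1 : ell k j ^ 2 = (wt k j ^ 2) • ∑ a ∈ range k, ∑ b ∈ range k,
        ((u a).eval (node k j) * (u b).eval (node k j)) • (u a * u b) := by
      rw [ell, mul_pow, sq (∑ a ∈ range k, _), sum_mul_sum, smul_eq_C_mul, C_pow]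
      congr 1
      refine sum_congr rfl fun a _ => sum_congr rfl fun b _ => ?_
      rw [smul_eq_C_mul, C_mul]
      ring
    have e2 : mean x (ell k j ^ 2) = wt k j ^ 2 * ∑ a ∈ range k, ∑ b ∈ range k,
        ((u a).eval (node k j) * (u b).eval (node k j)) * mean x (u a * u b) := by
      rw [e1, map_smul, smul_eq_mul, map_sum]
      congr 1
      refine sum_congr rfl fun a _ => ?_
      rw [map_sum]
      refine sum_congr rfl fun b _ => ?_
      rw [map_smul, smul_eq_mul]
    have e3 : ∑ a ∈ range k, ∑ b ∈ range k,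
        ((u a).eval (node k j) * (u b).eval (node k j)) * mean x (u a * u b) ≤
        ∑ a ∈ range k, (u a).eval (node k j) ^ 2 +
        ε₁ * (∑ a ∈ range k, |(u a).eval (node k j)|) ^ 2 := by
      rw [sq (∑ a ∈ range k, |(u a).eval (node k j)|), sum_mul_sum, mul_sum, ← sum_add_distrib]
      refine sum_le_sum fun a ha => ?_
      have e4 : (u a).eval (node k j) ^ 2 = ∑ b ∈ range k,
          (u a).eval (node k j) * (u b).eval (node k j) * (if a = b then 1 else 0) := by
        simp only [mul_ite, mul_one, mul_zero, sum_ite_eq, if_pos ha]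
        ring
      rw [e4, mul_sum, ← sum_add_distrib]
      refine sum_le_sum fun b hb => ?_
      have h5 := hE a (mem_range.1 ha).le b (mem_range.1 hb).le
      have h6 : (u a).eval (node k j) * (u b).eval (node k j) * mean x (u a * u b) -
          (u a).eval (node k j) * (u b).eval (node k j) * (if a = b then 1 else 0) ≤
          ε₁ * (|(u a).eval (node k j)| * |(u b).eval (node k j)|) := by
        rw [← mul_sub]
        refine (le_abs_self _).trans ?_
        rw [abs_mul, abs_mul, mul_comm ε₁]
        exact mul_le_mul_of_nonneg_left h5 (by positivity)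
      linarith
    have e5 := wt_mul_sum k j
    have e6 : ε₁ * (∑ a ∈ range k, |(u a).eval (node k j)|) ^ 2 ≤ 1 := by
      refine le_trans (mul_le_mul_of_nonneg_left ?_ h0.le) h2
      exact pow_le_pow_left₀ (by positivity) (hKj j) 2
    rw [e2]
    calc wt k j ^ 2 * ∑ a ∈ range k, ∑ b ∈ range k,
          ((u a).eval (node k j) * (u b).eval (node k j)) * mean x (u a * u b)
        ≤ wt k j ^ 2 * (∑ a ∈ range k, (u a).eval (node k j) ^ 2 + 1) :=
          mul_le_mul_of_nonneg_left (e3.trans (by linarith)) (sq_nonneg _)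
      _ = wt k j * (wt k j * ∑ a ∈ range k, (u a).eval (node k j) ^ 2) + wt k j ^ 2 := by ring
      _ = wt k j + wt k j ^ 2 := by rw [e5, mul_one]
      _ ≤ 2 := by nlinarith
  have hsumsq : ∑ i, (ell k j).eval (x i) ^ 2 ≤ 2 * n := by
    rw [mean_apply, div_le_iff₀ hn0] at hsq
    simpa using hsq
  have hsum : |∑ i, (ell k j).eval (x i) - wt k j * n| ≤ ε / 8 * n := by
    rw [mean_apply] at hmean
    have e1 : ∑ i, (ell k j).eval (x i) - wt k j * n =
        ((∑ i, (ell k j).eval (x i)) / n - wt k j) * n := by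
      field_simp
    rw [e1, abs_mul, abs_of_pos hn0]
    exact mul_le_mul_of_nonneg_right hmean hn0.le
  -- the near set
  set N : Finset ι := univ.filter fun i => |x i - node k j| < ρ with hN
  have hpt : ∀ i, |(ell k j).eval (x i) - if i ∈ N then 1 else 0| ≤
      ε / 8 + if i ∈ F then |(ell k j).eval (x i)| else 0 := by
    intro i
    by_cases hi : i ∈ F
    · have h5 : i ∉ N := by
        intro h
        rw [hF, mem_filter] at hi
        rw [hN, mem_filter] at h
        exact absurd (hi.2 j) (not_le.2 h.2)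
      rw [if_neg h5, if_pos hi, sub_zero]
      linarith
    · rw [if_neg hi, add_zero]
      have h5 : ∃ j', |x i - node k j'| < ρ := by
        rw [hF, mem_filter] at hi
        by_contra hcon
        push Not at hcon
        exact hi ⟨mem_univ _, hcon⟩
      obtain ⟨j', hj'⟩ := h5
      have h6 := hell j j' (x i) (hj'.trans_le (min_le_left _ _))
      by_cases hjj : j = j'
      · subst hjj
        rw [if_pos rfl] at h6
        rw [if_pos (by rw [hN, mem_filter]; exact ⟨mem_univ _, hj'⟩)]
        exact h6.le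
      · rw [if_neg hjj] at h6
        rw [if_neg]
        · exact h6.le
        · intro h
          rw [hN, mem_filter] at h
          have h7 := hgap j j' hjj
          have h8 : |node k j - node k j'| ≤ |x i - node k j| + |x i - node k j'| := by
            have := abs_sub_le (node k j) (x i) (node k j')
            rwa [abs_sub_comm (node k j) (x i)] at this
          have h9 : ρ ≤ r := min_le_right _ _
          linarith [h.2]
  have hFs : ∑ i ∈ F, |(ell k j).eval (x i)| ≤ ε / 4 * n := by
    have e1 : (∑ i ∈ F, |(ell k j).eval (x i)|) ^ 2 ≤ (ε / 4 * n) ^ 2 := by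
      calc (∑ i ∈ F, |(ell k j).eval (x i)|) ^ 2
          ≤ F.card * ∑ i ∈ F, |(ell k j).eval (x i)| ^ 2 := sq_sum_le_card_mul_sum_sq
        _ ≤ (M * ε₁ * n) * (2 * n) := by
            apply mul_le_mul hFar _ (sum_nonneg fun _ _ => sq_nonneg _) (by positivity)
            refine le_trans ?_ hsumsq
            simp only [sq_abs]
            exact sum_le_sum_of_subset_of_nonneg (subset_univ _) fun _ _ _ => sq_nonneg _
        _ = 2 * (M * ε₁) * n ^ 2 := by ring
        _ ≤ (ε / 4) ^ 2 * n ^ 2 := mul_le_mul_of_nonneg_right h4 (sq_nonneg _)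
        _ = _ := by ring
    exact le_of_sq_le_sq e1 (by positivity)
  have hNsum : |∑ i, (ell k j).eval (x i) - N.card| ≤ ε / 8 * n + ε / 4 * n := by
    have e1 : (N.card : ℝ) = ∑ i, if i ∈ N then (1 : ℝ) else 0 := by
      rw [sum_ite_mem, univ_inter, sum_const, nsmul_eq_mul, mul_one]
    rw [e1, ← sum_sub_distrib]
    refine (abs_sum_le_sum_abs _ _).trans ((sum_le_sum fun i _ => hpt i).trans ?_)
    rw [sum_add_distrib, sum_const, card_univ, nsmul_eq_mul, ← hn, sum_ite_mem, univ_inter]
    linarith
  -- the set in question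
  set N' : Finset ι := univ.filter fun i => |x i - node k j| ≤ r with hN'
  have hle1 : (N.card : ℝ) ≤ N'.card := by
    have : N ⊆ N' := by
      intro i hi
      rw [hN, mem_filter] at hi
      rw [hN', mem_filter]
      exact ⟨mem_univ _, hi.2.le.trans (min_le_right _ _)⟩
    exact_mod_cast card_le_card this
  have hle2 : (N'.card : ℝ) ≤ N.card + F.card := by
    have : N' ⊆ N ∪ F := by
      intro i hi
      rw [hN', mem_filter] at hi
      by_cases hiF : i ∈ F
      · exact mem_union_right _ hiF
      · apply mem_union_left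
        have h5 : ∃ j', |x i - node k j'| < ρ := by
          rw [hF, mem_filter] at hiF
          by_contra hcon
          push Not at hcon
          exact hiF ⟨mem_univ _, hcon⟩
        obtain ⟨j', hj'⟩ := h5
        by_cases hjj : j = j'
        · subst hjj
          rw [hN, mem_filter]
          exact ⟨mem_univ _, hj'⟩
        · exfalso
          have h7 := hgap j j' hjj
          have h8 : |node k j - node k j'| ≤ |x i - node k j| + |x i - node k j'| := by
            have := abs_sub_le (node k j) (x i) (node k j')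
            rwa [abs_sub_comm (node k j) (x i)] at this
          have h9 : ρ ≤ r := min_le_right _ _
          linarith [hi.2]
    exact_mod_cast (card_le_card this).trans (card_union_le _ _)
  have h5 : M * ε₁ * n ≤ ε / 8 * n := mul_le_mul_of_nonneg_right h3 hn0.le
  have hεn : 0 < ε * n := by positivity
  rw [abs_le] at hsum hNsum ⊢
  obtain ⟨a1, a2⟩ := hsum
  obtain ⟨b1, b2⟩ := hNsum
  constructor <;> linarith

end Pool.Agent.J4.H75.GE
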