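import Mathlib

/-!
# The polynomials `u a` and the ballot functional
-/

set_option autoImplicit false

open Polynomial Finset

namespace Pool.Agent.J4.H75.GE

/-- The number of paths of length `m` from the level `j` to the level `0`. -/
def bal : ℕ → ℕ → ℕ
  | 0, 0 => 1
  | 0, _ + 1 => 0
  | m + 1, 0 => bal m 1
  | m + 1, j + 1 => bal m j + bal m (j + 2)

/-- `u a (2 cos t) = sin ((a + 1) t) / sin t` -/
noncomputable def u : ℕ → ℝ[X]
  | 0 => 1
  | 1 => X
  | a + 2 => X * u (a + 1) - u a

/-- The functional with the moments `bal m j`. -/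
noncomputable def cf (j : ℕ) : ℝ[X] →ₗ[ℝ] ℝ :=
  Polynomial.lsum fun m => (bal m j : ℝ) • LinearMap.id

theorem cf_monomial (j m : ℕ) (c : ℝ) : cf j (monomial m c) = bal m j * c := by
  simp [cf, Polynomial.lsum_apply, Polynomial.sum_monomial_index]

theorem cf_X_mul_zero (p : ℝ[X]) : cf 0 (X * p) = cf 1 p := by
  induction p using Polynomial.induction_on' with
  | add p q hp hq => rw [mul_add, map_add, map_add, hp, hq]
  | monomial m c => rw [X_mul_monomial, cf_monomial, cf_monomial, bal]

theorem cf_X_mul_succ (j : ℕ) (p : ℝ[X]) : cf (j + 1) (X * p) = cf j p + cf (j + 2) p := by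
  induction p using Polynomial.induction_on' with
  | add p q hp hq => rw [mul_add, map_add, map_add, map_add, hp, hq]; ring
  | monomial m c =>
    rw [X_mul_monomial, cf_monomial, cf_monomial, cf_monomial, bal]
    push_cast
    ring

theorem cf_one (j : ℕ) : cf j 1 = if j = 0 then 1 else 0 := by
  have : (1 : ℝ[X]) = monomial 0 1 := rfl
  rw [this, cf_monomial]
  cases j with
  | zero => simp [bal]
  | succ j => simp [bal]

theorem cf_u (a : ℕ) : ∀ j, cf j (u a) = if j = a then 1 else 0 := by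
  induction a using Nat.twoStepInduction with
  | zero => intro j; rw [u]; exact cf_one j
  | one =>
    intro j
    have : (X : ℝ[X]) = X * 1 := by simp
    rw [u, this]
    cases j with
    | zero => rw [cf_X_mul_zero, cf_one]; simp
    | succ j => rw [cf_X_mul_succ, cf_one, cf_one]; simp
  | more a ih1 ih2 =>
    intro j
    rw [u, map_sub]
    cases j with
    | zero =>
      rw [cf_X_mul_zero, ih1, ih2]
      by_cases h : a = 0
      · subst h; simp
      · rw [if_neg (by omega), if_neg (by omega), if_neg (by omega)]; simp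
    | succ j =>
      rw [cf_X_mul_succ, ih1, ih2, ih2]
      by_cases h : j = a + 1
      · subst h
        rw [if_pos rfl, if_neg (by omega), if_neg (by omega), if_pos rfl]
        norm_num
      · rw [if_neg h, if_neg (by omega : ¬ (j + 1 = a + 2))]
        by_cases h2 : j + 1 = a
        · rw [if_pos (by omega), if_pos h2]; norm_num
        · rw [if_neg (by omega), if_neg h2]; norm_num

theorem cf_u_mul (a : ℕ) (p : ℝ[X]) : cf 0 (u a * p) = cf a p := by
  induction a using Nat.twoStepInduction generalizing p with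
  | zero => rw [u, one_mul]
  | one => rw [u, cf_X_mul_zero]
  | more a ih1 ih2 =>
    have e : u (a + 2) * p = u (a + 1) * (X * p) - u a * p := by
      rw [u]; ring
    rw [e, map_sub, ih1, ih2, cf_X_mul_succ]
    ring

/-- Orthonormality. -/
theorem cf_u_mul_u (a b : ℕ) : cf 0 (u a * u b) = if a = b then 1 else 0 := by
  rw [cf_u_mul, cf_u]

theorem u_natDegree_le (a : ℕ) : (u a).natDegree ≤ a := by
  induction a using Nat.twoStepInduction with
  | zero => rw [u]; simp
  | one => rw [u]; simp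
  | more a ih1 ih2 =>
    rw [u]
    refine (natDegree_sub_le _ _).trans (max_le ?_ (by omega))
    refine natDegree_mul_le.trans ?_
    rw [natDegree_X]
    omega

/-- The constant of a polynomial. -/
noncomputable def bc (N : ℕ) (p : ℝ[X]) : ℝ := ∑ m ∈ range (N + 1), |p.coeff m| * bal m 0

theorem bc_nonneg (N : ℕ) (p : ℝ[X]) : 0 ≤ bc N p := by
  unfold bc
  positivity

/-- A functional with almost the same moments takes almost the same values. -/
theorem functional_close (E : ℝ[X] →ₗ[ℝ] ℝ) {N : ℕ} {η : ℝ}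
    (hE : ∀ m ≤ N, |E (X ^ m) - bal m 0| ≤ η * bal m 0) {p : ℝ[X]} (hp : p.natDegree ≤ N) :
    |E p - cf 0 p| ≤ η * bc N p := by
  have h1 : p = ∑ m ∈ range (N + 1), p.coeff m • (X : ℝ[X]) ^ m := by
    conv_lhs => rw [p.as_sum_range' (N + 1) (by omega)]
    refine sum_congr rfl fun m _ => ?_
    rw [← C_mul_X_pow_eq_monomial, smul_eq_C_mul]
  have h2 : ∀ F : ℝ[X] →ₗ[ℝ] ℝ, F p = ∑ m ∈ range (N + 1), p.coeff m * F (X ^ m) := by
    intro F
    conv_lhs => rw [h1]
    rw [map_sum]
    refine sum_congr rfl fun m _ => ?_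
    rw [map_smul, smul_eq_mul]
  have h3 : ∀ m, cf 0 ((X : ℝ[X]) ^ m) = bal m 0 := by
    intro m
    rw [X_pow_eq_monomial, cf_monomial, mul_one]
  rw [h2 E, h2 (cf 0), ← sum_sub_distrib, bc, mul_sum]
  refine (abs_sum_le_sum_abs _ _).trans (sum_le_sum fun m hm => ?_)
  rw [h3, ← mul_sub, abs_mul]
  have := hE m (by rw [mem_range] at hm; omega)
  calc |p.coeff m| * |E (X ^ m) - bal m 0| ≤ |p.coeff m| * (η * bal m 0) :=
        mul_le_mul_of_nonneg_left this (abs_nonneg _)
    _ = _ := by ring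

theorem single_le (k : ℕ) (F : ℕ → ℕ → ℝ) (hF : ∀ a b, 0 ≤ F a b) {a b : ℕ} (ha : a ≤ k)
    (hb : b ≤ k) : F a b ≤ ∑ a ∈ range (k + 1), ∑ b ∈ range (k + 1), F a b := by
  have ha' : a ∈ range (k + 1) := mem_range.2 (by omega)
  have hb' : b ∈ range (k + 1) := mem_range.2 (by omega)
  calc F a b ≤ ∑ b ∈ range (k + 1), F a b :=
        single_le_sum (f := fun b => F a b) (fun b _ => hF a b) hb'
    _ ≤ _ := single_le_sum (f := fun a => ∑ b ∈ range (k + 1), F a b)
        (fun a _ => sum_nonneg fun b _ => hF a b) ha'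

/-- Almost orthonormality for a functional with almost the right moments. -/
theorem almost_orthonormal (k : ℕ) {ε : ℝ} (hε : 0 < ε) : ∃ η > 0, ∀ E : ℝ[X] →ₗ[ℝ] ℝ,
    (∀ m ≤ 2 * k, |E (X ^ m) - bal m 0| ≤ η * bal m 0) →
    ∀ a ≤ k, ∀ b ≤ k, |E (u a * u b) - if a = b then 1 else 0| ≤ ε := by
  obtain ⟨M, hM0, hM⟩ : ∃ M : ℝ, 0 ≤ M ∧ ∀ a ≤ k, ∀ b ≤ k, bc (2 * k) (u a * u b) ≤ M :=
    ⟨∑ a ∈ range (k + 1), ∑ b ∈ range (k + 1), bc (2 * k) (u a * u b),
      sum_nonneg fun a _ => sum_nonneg fun b _ => bc_nonneg _ _,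
      fun a ha b hb => single_le k (fun a b => bc (2 * k) (u a * u b))
        (fun a b => bc_nonneg _ _) ha hb⟩
  refine ⟨ε / (M + 1), by positivity, fun E hE a ha b hb => ?_⟩
  have h1 := functional_close E hE (p := u a * u b) (by
    have h1 := u_natDegree_le a
    have h2 := u_natDegree_le b
    refine natDegree_mul_le.trans ?_
    omega)
  rw [cf_u_mul_u] at h1
  refine h1.trans ?_
  have h2 := hM a ha b hb
  calc ε / (M + 1) * bc (2 * k) (u a * u b)
      ≤ ε / (M + 1) * (M + 1) := mul_le_mul_of_nonneg_left (by linarith) (by positivity)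
    _ = ε := by field_simp

/-! ### Values -/

theorem u_eval_succ (a : ℕ) (x : ℝ) : (u (a + 2)).eval x = x * (u (a + 1)).eval x - (u a).eval x := by
  rw [u]; simp

theorem u_eval_cos (a : ℕ) (t : ℝ) :
    (u a).eval (2 * Real.cos t) * Real.sin t = Real.sin ((a + 1) * t) := by
  induction a using Nat.twoStepInduction with
  | zero => rw [u]; simp
  | one =>
    rw [u, eval_X]
    push_cast
    rw [show ((1 : ℝ) + 1) * t = 2 * t by ring, Real.sin_two_mul]
    ring
  | more a ih1 ih2 =>
    rw [u_eval_succ, sub_mul, mul_assoc, ih1, ih2]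
    push_cast
    have e1 : ((a : ℝ) + 2 + 1) * t = ((a : ℝ) + 1 + 1) * t + t := by ring
    have e2 : ((a : ℝ) + 1) * t = ((a : ℝ) + 1 + 1) * t - t := by ring
    rw [e1, e2, Real.sin_add, Real.sin_sub]
    ring

/-- Christoffel-Darboux. -/
theorem christoffel (x y : ℝ) (k : ℕ) :
    (x - y) * ∑ a ∈ range (k + 1), (u a).eval x * (u a).eval y =
      (u (k + 1)).eval x * (u k).eval y - (u k).eval x * (u (k + 1)).eval y := by
  induction k with
  | zero => simp [u]
  | succ k ih =>
    rw [sum_range_succ, mul_add, ih, u_eval_succ, u_eval_succ]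
    ring

/-- The growth outside the interval. -/
theorem u_growth {x : ℝ} (hx : 2 ≤ x) (a : ℕ) :
    1 ≤ (u a).eval x ∧ (x - 1) * (u a).eval x ≤ (u (a + 1)).eval x := by
  induction a with
  | zero => simp [u]
  | succ a ih =>
    obtain ⟨h1, h2⟩ := ih
    have h3 : (u a).eval x ≤ (u (a + 1)).eval x := by nlinarith
    refine ⟨h1.trans h3, ?_⟩
    rw [u_eval_succ]
    nlinarith

theorem u_ge_pow {x : ℝ} (hx : 2 ≤ x) (a : ℕ) : (x - 1) ^ a ≤ (u a).eval x := by
  induction a with
  | zero => simp [u]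
  | succ a ih =>
    have h := (u_growth hx a).2
    rw [pow_succ]
    have : 0 ≤ x - 1 := by linarith
    nlinarith

theorem u_neg (a : ℕ) (x : ℝ) : (u a).eval (-x) = (-1) ^ a * (u a).eval x := by
  induction a using Nat.twoStepInduction with
  | zero => simp [u]
  | one => simp [u]
  | more a ih1 ih2 =>
    rw [u_eval_succ, u_eval_succ, ih1, ih2]
    ring

theorem u_sq_ge {x : ℝ} (hx : 2 ≤ |x|) (a : ℕ) : (|x| - 1) ^ (2 * a) ≤ (u a).eval x ^ 2 := by
  have h1 : (u a).eval x ^ 2 = (u a).eval |x| ^ 2 := by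
    rcases abs_choice x with h | h
    · rw [h]
    · rw [h, u_neg, mul_pow, ← pow_mul, mul_comm a 2, pow_mul]
      norm_num
  rw [h1, mul_comm 2 a, pow_mul]
  exact pow_le_pow_left₀ (by have : 0 ≤ |x| - 1 := by linarith
                             positivity) (u_ge_pow hx a) 2

end Pool.Agent.J4.H75.GE
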