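import Pool.Agent.J4.H75.GE.TW

/-!
# Disjoint copies of a graph on `w` vertices, with their tree decomposition
-/

set_option autoImplicit false
set_option linter.unusedSectionVars false

open Finset

namespace Pool.Agent.J4.H75.GE

/-- Disjoint copies of `G` on consecutive blocks of `w` vertices (the last one incomplete). -/
def cop (w n : ℕ) (hw : 0 < w) (G : SimpleGraph (Fin w)) : SimpleGraph (Fin n) where
  Adj i j := i.val / w = j.val / w ∧
    G.Adj ⟨i.val % w, Nat.mod_lt _ hw⟩ ⟨j.val % w, Nat.mod_lt _ hw⟩
  symm := by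
    constructor
    rintro i j ⟨h3, h4⟩
    exact ⟨h3.symm, h4.symm⟩
  loopless := ⟨fun i h => G.irrefl h.2⟩

/-- The projection. -/
def copF (w n : ℕ) (hw : 0 < w) (G : SimpleGraph (Fin w)) : cop w n hw G →g G where
  toFun i := ⟨i.val % w, Nat.mod_lt _ hw⟩
  map_rel' h := h.2

theorem cop_class (w n : ℕ) (hw : 0 < w) (G : SimpleGraph (Fin w)) {u v : Fin n}
    (p : (cop w n hw G).Walk u v) : ∀ x ∈ p.support, x.val / w = u.val / w := by
  induction p with
  | nil => intro x hx; simp at hx; rw [hx]
  | cons h p ih =>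
    intro x hx
    rw [SimpleGraph.Walk.support_cons, List.mem_cons] at hx
    rcases hx with rfl | hx
    · rfl
    · rw [ih x hx]; exact h.1.symm

theorem cop_inj (w : ℕ) {n : ℕ} {i j : Fin n} (h1 : i.val / w = j.val / w)
    (h2 : i.val % w = j.val % w) : i = j := by
  apply Fin.ext
  rw [← Nat.div_add_mod i.val w, ← Nat.div_add_mod j.val w, h1, h2]

theorem cop_inj' (w n : ℕ) (hw : 0 < w) (G : SimpleGraph (Fin w)) {u v : Fin n}
    (p : (cop w n hw G).Walk u v) : ∀ x ∈ p.support, ∀ y ∈ p.support,
    copF w n hw G x = copF w n hw G y → x = y := by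
  intro x hx y hy h
  apply cop_inj w
  · rw [cop_class w n hw G p x hx, cop_class w n hw G p y hy]
  · exact congrArg Fin.val h

theorem cop_cycle (w n : ℕ) (hw : 0 < w) (G : SimpleGraph (Fin w)) {u : Fin n}
    (p : (cop w n hw G).Walk u u) (hp : p.IsCycle) : (p.map (copF w n hw G)).IsCycle := by
  have hinj := cop_inj' w n hw G p
  refine ⟨⟨⟨?_⟩, ?_⟩, ?_⟩
  · rw [SimpleGraph.Walk.edges_map]
    apply List.Nodup.map_on _ hp.isCircuit.isTrail.edges_nodup
    intro x hx y hy hxy
    induction x using Sym2.ind with
    | _ a b =>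
      induction y using Sym2.ind with
      | _ c d =>
        have ha := p.fst_mem_support_of_mem_edges hx
        have hb := p.snd_mem_support_of_mem_edges hx
        have hc := p.fst_mem_support_of_mem_edges hy
        have hd := p.snd_mem_support_of_mem_edges hy
        rw [Sym2.map_mk, Sym2.map_mk] at hxy
        simp only [Sym2.eq_iff] at hxy ⊢
        rcases hxy with ⟨h1, h2⟩ | ⟨h1, h2⟩
        · exact Or.inl ⟨hinj a ha c hc h1, hinj b hb d hd h2⟩
        · exact Or.inr ⟨hinj a ha d hd h1, hinj b hb c hc h2⟩
  · intro h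
    apply hp.isCircuit.ne_nil
    cases p with
    | nil => rfl
    | cons h' p => simp at h
  · rw [SimpleGraph.Walk.support_map, ← List.map_tail]
    apply List.Nodup.map_on _ hp.support_nodup
    intro x hx y hy hxy
    exact hinj x (List.mem_of_mem_tail hx) y (List.mem_of_mem_tail hy) hxy

theorem cop_girth (w n : ℕ) (hw : 0 < w) (G : SimpleGraph (Fin w)) {M : ℕ}
    (hg : ((M : ℕ) : ℕ∞) < G.egirth) : ((M : ℕ) : ℕ∞) < (cop w n hw G).egirth := by
  rw [Pool.TH815.GR.egirth_iff] at hg ⊢
  intro v p hp
  have := hg _ _ (cop_cycle w n hw G p hp)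
  rwa [SimpleGraph.Walk.length_map] at this

theorem cop_edges (w n : ℕ) (hw : 0 < w) (G : SimpleGraph (Fin w)) :
    n / w * G.edgeSet.ncard ≤ (cop w n hw G).edgeSet.ncard := by
  classical
  have e0 : ∀ (m : ℕ) (H : SimpleGraph (Fin m)), 2 * H.edgeSet.ncard =
      (univ.filter fun p : Fin m × Fin m => H.Adj p.1 p.2).card := by
    intro m H
    have h1 := ar_univ H
    rw [ar_eq_interedges] at h1
    have h2 : (H.interedges univ univ) = univ.filter fun p : Fin m × Fin m => H.Adj p.1 p.2 := by
      ext p
      simp [SimpleGraph.mem_interedges_iff]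
    rw [h2] at h1
    have h3 : H.edgeSet.ncard = H.edgeFinset.card := by
      rw [← SimpleGraph.coe_edgeFinset, Set.ncard_coe_finset]
    rw [h3]
    exact_mod_cast h1.symm
  have hmul : 2 * (n / w * G.edgeSet.ncard) ≤ 2 * (cop w n hw G).edgeSet.ncard := by
    calc 2 * (n / w * G.edgeSet.ncard) = n / w * (2 * G.edgeSet.ncard) := by ring
      _ = ((univ : Finset (Fin (n / w))) ×ˢ
            (univ.filter fun p : Fin w × Fin w => G.Adj p.1 p.2)).card := by
          rw [card_product, card_univ, Fintype.card_fin, e0 w G]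
      _ ≤ (univ.filter fun p : Fin n × Fin n => (cop w n hw G).Adj p.1 p.2).card := by
          have hlt : ∀ (b : Fin (n / w)) (x : Fin w), b.val * w + x.val < n := by
            intro b x
            have h1 : b.val * w + w ≤ n / w * w := by
              have : (b.val + 1) * w ≤ n / w * w := Nat.mul_le_mul_right _ b.2
              linarith
            have h2 : n / w * w ≤ n := Nat.div_mul_le_self n w
            have h3 := x.2
            omega
          have hdiv : ∀ (b : Fin (n / w)) (x : Fin w), (b.val * w + x.val) / w = b.val := by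
            intro b x
            rw [Nat.add_comm, Nat.add_mul_div_right _ _ hw, Nat.div_eq_of_lt x.2, zero_add]
          have hmod : ∀ (b : Fin (n / w)) (x : Fin w), (b.val * w + x.val) % w = x.val := by
            intro b x
            rw [Nat.add_comm, Nat.add_mul_mod_self_right, Nat.mod_eq_of_lt x.2]
          apply card_le_card_of_injOn (fun q : Fin (n / w) × (Fin w × Fin w) =>
            ((⟨q.1.val * w + q.2.1.val, hlt q.1 q.2.1⟩ : Fin n),
              (⟨q.1.val * w + q.2.2.val, hlt q.1 q.2.2⟩ : Fin n)))
          · rintro ⟨b, x, y⟩ hq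
            simp only [coe_product, Set.mem_prod, mem_coe, mem_univ, true_and, mem_filter] at hq ⊢
            refine ⟨?_, ?_⟩
            · show (b.val * w + x.val) / w = (b.val * w + y.val) / w
              rw [hdiv, hdiv]
            · have e1 : (⟨(b.val * w + x.val) % w, Nat.mod_lt _ hw⟩ : Fin w) = x :=
                Fin.ext (hmod b x)
              have e2 : (⟨(b.val * w + y.val) % w, Nat.mod_lt _ hw⟩ : Fin w) = y :=
                Fin.ext (hmod b y)
              show G.Adj ⟨(b.val * w + x.val) % w, _⟩ ⟨(b.val * w + y.val) % w, _⟩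
              rw [e1, e2]
              exact hq
          · rintro ⟨b, x, y⟩ _ ⟨b', x', y'⟩ _ h
            simp only [Prod.mk.injEq, Fin.mk.injEq] at h
            obtain ⟨h1, h2⟩ := h
            have hb : b = b' := Fin.ext (by rw [← hdiv b x, h1, hdiv])
            have hx : x = x' := Fin.ext (by rw [← hmod b x, h1, hmod])
            have hy : y = y' := Fin.ext (by rw [← hmod b y, h2, hmod])
            rw [hb, hx, hy]
      _ = 2 * (cop w n hw G).edgeSet.ncard := by rw [e0 n (cop w n hw G)]
  omega

theorem block_card (w n : ℕ) (hw : 0 < w) (b : ℕ) :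
    {i : Fin n | i.val / w = b}.ncard ≤ w := by
  classical
  have h1 : {i : Fin n | i.val / w = b}.ncard ≤ (univ : Finset (Fin w)).card := by
    rw [← Set.ncard_coe_finset]
    refine Set.ncard_le_ncard_of_injOn (fun i : Fin n => (⟨i.val % w, Nat.mod_lt _ hw⟩ : Fin w))
      (by simp) ?_ (Set.toFinite _)
    intro i hi j hj h
    simp only [Fin.mk.injEq] at h
    exact cop_inj w (by rw [hi, hj]) h
  simpa using h1

end Pool.Agent.J4.H75.GE
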