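import Pool.Agent.J4.H75.GE.Struct

/-!
# Expansion and diameter of optimal graphs
-/

set_option autoImplicit false
set_option linter.unusedSectionVars false

open Finset

namespace Pool.Agent.J4.H75.GE

open Pool.TH815.GR

variable {V : Type} [Fintype V] [DecidableEq V] (G : SimpleGraph V) [DecidableRel G.Adj]

/-- The outer boundary of a set of vertices. -/
def bd (X : Finset V) : Finset V := univ.filter fun y => y ∉ X ∧ ∃ x ∈ X, G.Adj x y

theorem deg_eq (x : V) : (univ.filter fun y => G.Adj x y).card = G.degree x := by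
  rw [← G.card_neighborFinset_eq_degree]
  congr 1
  ext y
  simp

theorem ar_le_bd {Δ : ℝ} (hΔ : ∀ x, (G.degree x : ℝ) ≤ Δ) (X : Finset V) :
    ar G X Xᶜ ≤ Δ * (bd G X).card := by
  rw [ar_comm, ar_eq_sum_card]
  calc ∑ x ∈ Xᶜ, ((X.filter fun y => G.Adj x y).card : ℝ)
      = ∑ x ∈ bd G X, ((X.filter fun y => G.Adj x y).card : ℝ) := by
        symm
        apply sum_subset
        · intro y hy
          rw [bd, mem_filter] at hy
          rw [mem_compl]
          exact hy.2.1
        · intro y hy hy'
          rw [Nat.cast_eq_zero, card_eq_zero, filter_eq_empty_iff]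
          intro x hx hadj
          apply hy'
          rw [bd, mem_filter]
          exact ⟨mem_univ _, mem_compl.1 hy, x, hx, hadj.symm⟩
    _ ≤ ∑ x ∈ bd G X, Δ := by
        refine sum_le_sum fun y _ => le_trans ?_ (hΔ y)
        rw [← deg_eq]
        exact_mod_cast card_le_card (filter_subset_filter _ (subset_univ _))
    _ = Δ * (bd G X).card := by rw [sum_const, nsmul_eq_mul, mul_comm]

/-- The balls. -/
def ball (x : V) : ℕ → Finset V
  | 0 => {x}
  | r + 1 => ball x r ∪ bd G (ball x r)

theorem ball_walk (x : V) : ∀ (r : ℕ) (y : V), y ∈ ball G x r → ∃ p : G.Walk x y, p.length ≤ r := by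
  intro r
  induction r with
  | zero =>
    intro y hy
    have : y = x := by simpa [ball] using hy
    subst this
    exact ⟨SimpleGraph.Walk.nil, by simp⟩
  | succ r ih =>
    intro y hy
    rw [ball, mem_union] at hy
    rcases hy with hy | hy
    · obtain ⟨p, hp⟩ := ih y hy
      exact ⟨p, by omega⟩
    · rw [bd, mem_filter] at hy
      obtain ⟨-, -, z, hz, hadj⟩ := hy
      obtain ⟨p, hp⟩ := ih z hz
      refine ⟨p.concat hadj, ?_⟩
      rw [SimpleGraph.Walk.length_concat]
      omega

theorem ball_step {x y z : V} {r : ℕ} (hy : y ∈ ball G x r) (h : G.Adj y z) :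
    z ∈ ball G x (r + 1) := by
  rw [ball, mem_union]
  by_cases hz : z ∈ ball G x r
  · exact Or.inl hz
  · right
    rw [bd, mem_filter]
    exact ⟨mem_univ _, hz, y, hy, h⟩

theorem ball_card_succ (x : V) (r : ℕ) :
    (ball G x (r + 1)).card = (ball G x r).card + (bd G (ball G x r)).card := by
  rw [ball, card_union_of_disjoint]
  rw [Finset.disjoint_left]
  intro y hy hy'
  rw [bd, mem_filter] at hy'
  exact hy'.2.1 hy

theorem ball_pos (x : V) (r : ℕ) : 1 ≤ (ball G x r).card := by
  induction r with
  | zero => simp [ball]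
  | succ r ih =>
    rw [ball_card_succ]
    omega

theorem ball_large {k : ℕ} (hg : ∀ (v : V) (p : G.Walk v v), p.IsCycle → 2 * k < p.length)
    {δ : ℕ} (hδ : ∀ x, δ ≤ G.degree x) (x : V) : (δ - 1) ^ k ≤ (ball G x k).card := by
  obtain ⟨E, hE, hE'⟩ := growthT (G := G) (M := 2 * k) hg (fun i => ball G x i)
    (fun _ y => univ.filter fun z => G.Adj y z) (fun _ => δ)
    (by
      intro i y hy z hz
      rw [mem_filter] at hz
      exact ⟨ball_step G hy hz.2, hz.2⟩)
    (by
      intro i y _
      rw [deg_eq]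
      exact hδ y) (v := x) (by simp [ball]) k le_rfl
  rw [prod_const, card_range] at hE
  exact hE.trans (card_le_card fun y hy => (hE' y hy).1)

/-- From vertex expansion and large balls to bounded diameter. -/
theorem diameter {β ε : ℝ} (hε : 0 < ε) {k t : ℕ}
    (hexp : ∀ X : Finset V, 2 * X.card ≤ Fintype.card V → ε * X.card ≤ ((bd G X).card : ℝ))
    (hball : ∀ x, β * Fintype.card V ≤ ((ball G x k).card : ℝ))
    (ht : 1 < β * (1 + ε) ^ t) (x y : V) : ∃ p : G.Walk x y, p.length ≤ 2 * (k + t) := by
  have hn0 : (0 : ℝ) < Fintype.card V := by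
    have : 0 < Fintype.card V := Fintype.card_pos_iff.2 ⟨x⟩
    exact_mod_cast this
  have hhalf : ∀ x, Fintype.card V < 2 * (ball G x (k + t)).card := by
    intro x
    by_contra hcon
    push Not at hcon
    have hmono : ∀ i j, i ≤ j → (ball G x i).card ≤ (ball G x j).card := by
      intro i j hij
      induction j, hij using Nat.le_induction with
      | base => exact le_rfl
      | succ j _ ih =>
        rw [ball_card_succ]
        omega
    have hgr : ∀ s, s ≤ t → β * Fintype.card V * (1 + ε) ^ s ≤ ((ball G x (k + s)).card : ℝ) := by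
      intro s
      induction s with
      | zero =>
        intro _
        simpa using hball x
      | succ s ih =>
        intro hs
        have h1 := ih (by omega)
        have h2 : 2 * (ball G x (k + s)).card ≤ Fintype.card V := by
          have := hmono (k + s) (k + t) (by omega)
          omega
        have h3 := hexp _ h2
        have h4 : ((ball G x (k + s + 1)).card : ℝ) =
            (ball G x (k + s)).card + (bd G (ball G x (k + s))).card := by
          rw [ball_card_succ]
          push_cast
          rfl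
        rw [← add_assoc, h4, pow_succ]
        nlinarith
    have h1 := hgr t le_rfl
    have h2 : ((ball G x (k + t)).card : ℝ) ≤ Fintype.card V := by
      exact_mod_cast card_le_univ _
    nlinarith
  have hint : ¬ Disjoint (ball G x (k + t)) (ball G y (k + t)) := by
    intro hd
    have h1 := hhalf x
    have h2 := hhalf y
    have h3 : (ball G x (k + t)).card + (ball G y (k + t)).card ≤ Fintype.card V := by
      rw [← card_union_of_disjoint hd]
      exact card_le_univ _
    omega
  rw [Finset.not_disjoint_iff] at hint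
  obtain ⟨z, hz1, hz2⟩ := hint
  obtain ⟨p, hp⟩ := ball_walk G x _ z hz1
  obtain ⟨q, hq⟩ := ball_walk G y _ z hz2
  refine ⟨p.append q.reverse, ?_⟩
  rw [SimpleGraph.Walk.length_append, SimpleGraph.Walk.length_reverse]
  omega

/-- All the expansion properties of optimal graphs. -/
theorem optimal_expands {k : ℕ} (hk : 1 ≤ k) {c a K : ℝ} (hc : 0 < c) (ha1 : 1 < a) (hK : 0 < K) :
    ∃ ε : ℝ, 0 < ε ∧ ∃ D : ℕ, ∀ (V : Type) [Fintype V] [DecidableEq V] (G : SimpleGraph V)
      [DecidableRel G.Adj], (∀ (v : V) (p : G.Walk v v), p.IsCycle → 2 * k < p.length) →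
      Opt G a univ → c * (Fintype.card V : ℝ) ^ (1 + 1 / (k : ℝ)) ≤ ar G univ univ →
      (∀ x, (G.degree x : ℝ) ≤ K * (Fintype.card V : ℝ) ^ (1 / (k : ℝ))) →
      (∀ x, c / 2 * (Fintype.card V : ℝ) ^ (1 / (k : ℝ)) ≤ (G.degree x : ℝ)) ∧
      (∀ X : Finset V, 2 * X.card ≤ Fintype.card V →
        ε * (Fintype.card V : ℝ) ^ (1 / (k : ℝ)) * X.card ≤ ar G X Xᶜ ∧
        ε * X.card ≤ ((bd G X).card : ℝ)) ∧
      ∀ x y : V, ∃ p : G.Walk x y, p.length ≤ D := by
  set κ : ℝ := 1 - 2 ^ (1 - a) with hκ
  have hκ0 : 0 < κ := by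
    have : (2 : ℝ) ^ (1 - a) < 1 := Real.rpow_lt_one_of_one_lt_of_neg (by norm_num) (by linarith)
    rw [hκ]; linarith
  have hkpos : (0 : ℝ) < k := by exact_mod_cast hk
  set ε1 : ℝ := κ / 2 * c with hε1
  have hε1' : 0 < ε1 := by positivity
  set ε2 : ℝ := ε1 / K with hε2
  have hε2' : 0 < ε2 := by positivity
  obtain ⟨t, ht⟩ := pow_unbounded_of_one_lt ((4 / c) ^ k) (by linarith : 1 < 1 + ε2)
  refine ⟨min ε1 ε2, lt_min hε1' hε2', 2 * (k + t), ?_⟩
  intro V _ _ G _ hg hopt hE hdeg
  rcases Nat.eq_zero_or_pos (Fintype.card V) with hz | hpos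
  · have hemp : IsEmpty V := Fintype.card_eq_zero_iff.1 hz
    refine ⟨fun x => hemp.elim x, fun X _ => ?_, fun x => hemp.elim x⟩
    have : X = ∅ := by
      ext x
      exact hemp.elim x
    subst this
    simp only [card_empty, Nat.cast_zero, mul_zero]
    exact ⟨ar_nonneg _ _ _, Nat.cast_nonneg _⟩
  set n : ℝ := (Fintype.card V : ℝ) with hn
  have hn0 : 0 < n := by rw [hn]; exact_mod_cast hpos
  have hrp : n ^ (1 + 1 / (k : ℝ)) = n * n ^ (1 / (k : ℝ)) := by
    rw [Real.rpow_add hn0, Real.rpow_one]
  set N : ℝ := n ^ (1 / (k : ℝ)) with hN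
  have hN0 : 0 < N := Real.rpow_pos_of_pos hn0 _
  rw [hrp] at hE
  have hmin : ∀ x, c / 2 * N ≤ (G.degree x : ℝ) := by
    intro x
    have h1 := min_degree ha1 hopt (mem_univ x)
    rw [deg_eq, card_univ, ← hn] at h1
    refine le_trans ?_ h1
    rw [le_div_iff₀ (by positivity)]
    nlinarith
  have hedge : ∀ X : Finset V, 2 * X.card ≤ Fintype.card V → ε1 * N * X.card ≤ ar G X Xᶜ := by
    intro X hX
    have h1 := expansion ha1 hopt (subset_univ X) (by rwa [card_univ])
    rw [← compl_eq_univ_sdiff, card_univ, ← hn, ← hκ] at h1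
    refine le_trans ?_ h1
    have hX0 : (0 : ℝ) ≤ X.card := Nat.cast_nonneg _
    calc ε1 * N * X.card = κ / 2 * (X.card / n) * (c * (n * N)) := by
          rw [hε1]; field_simp
      _ ≤ _ := mul_le_mul_of_nonneg_left hE (by positivity)
  have hvert : ∀ X : Finset V, 2 * X.card ≤ Fintype.card V →
      ε2 * X.card ≤ ((bd G X).card : ℝ) := by
    intro X hX
    have h1 := (hedge X hX).trans (ar_le_bd G hdeg X)
    have h2 : ε1 * X.card * N ≤ K * (bd G X).card * N := by nlinarith
    have h3 := le_of_mul_le_mul_right h2 hN0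
    rw [hε2, div_mul_eq_mul_div, div_le_iff₀ hK]
    linarith
  refine ⟨hmin, fun X hX => ⟨?_, ?_⟩, ?_⟩
  · refine le_trans ?_ (hedge X hX)
    have := min_le_left ε1 ε2
    gcongr
  · refine le_trans ?_ (hvert X hX)
    have := min_le_right ε1 ε2
    gcongr
  · apply diameter G hε2' (β := (c / 4) ^ k) hvert
    · intro x
      have hroot : N ^ k = n := by
        rw [hN, ← Real.rpow_natCast, ← Real.rpow_mul hn0.le]
        have : (1 / (k : ℝ)) * (k : ℝ) = 1 := by field_simp
        rw [this, Real.rpow_one]
      rw [← hn]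
      by_cases hbig : 2 ≤ c / 2 * N
      · set δ : ℕ := ⌈c / 2 * N⌉₊ with hδ
        have h1 : ∀ x, δ ≤ G.degree x := fun x => Nat.ceil_le.2 (hmin x)
        have h2 := ball_large G hg h1 x
        have h3 : c / 2 * N ≤ δ := Nat.le_ceil _
        have h4 : 1 ≤ δ := by
          have : (2 : ℝ) ≤ δ := hbig.trans h3
          have : 2 ≤ δ := by exact_mod_cast this
          omega
        calc (c / 4) ^ k * n = (c / 4 * N) ^ k := by rw [mul_pow, hroot]
          _ ≤ ((δ - 1 : ℕ) : ℝ) ^ k := by
              apply pow_le_pow_left₀ (by positivity)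
              rw [Nat.cast_sub h4]
              push_cast
              linarith
          _ = (((δ - 1) ^ k : ℕ) : ℝ) := by push_cast; rfl
          _ ≤ _ := by exact_mod_cast h2
      · push Not at hbig
        have h1 : (c / 4) ^ k * n ≤ 1 := by
          rw [← hroot, ← mul_pow]
          apply pow_le_one₀ (by positivity)
          linarith
        have h2 := ball_pos G x k
        have h3 : (1 : ℝ) ≤ (ball G x k).card := by exact_mod_cast h2
        linarith
    · have h1 : (c / 4) ^ k * (4 / c) ^ k = 1 := by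
        rw [← mul_pow]
        have : c / 4 * (4 / c) = 1 := by field_simp
        rw [this, one_pow]
      have h2 : 0 < (c / 4) ^ k := by positivity
      nlinarith

end Pool.Agent.J4.H75.GE
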