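import Pool.Agent.J4.H75.GE.Expand

/-!
# The girth conjecture and expanders of bounded diameter

Let `k ≥ 1`, `c > 0` and `1 < a < 1 + 1 / k`. Every graph on `n ≥ 1` vertices of girth greater than
`2 k` with at least `c n ^ (1 + 1 / k)` edges has an induced subgraph `H` on `m ≥ ε n` vertices with
at least `(c / 2) m ^ (1 + 1 / k)` edges, such that

* every set of `p m` vertices of `H` spans at most `p ^ a e(H)` edges;
* all degrees of `H` are between `ε m ^ (1 / k)` and `K m ^ (1 / k)`;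
* every set `X` of at most `m / 2` vertices sends at least `ε m ^ (1 / k) |X|` edges to its
  complement and has at least `ε |X|` neighbours outside `X`;
* any two vertices of `H` are joined by a path of length at most `D`,

where `ε > 0`, `K`, `D` depend only on `k`, `c`, `a`. Consequently the girth conjecture for the
parameter `k` is equivalent to the existence, for all large `n`, of such expanders of bounded
diameter with between `ε n` and `n` vertices.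

Idea: take the set `U` of vertices of moderate degree which maximises `e(U) / |U| ^ a`. As
`e(U) = O(|U| ^ (1 + 1 / k))` by the bound of Moore and `a < 1 + 1 / k`, such a set has linear size.
-/

set_option autoImplicit false

namespace Pool.Agent.J4.H75.GE.ExpanderFormNote

open Finset Pool.Agent.J4.H75.GE Pool.TH815.GR

/-- The number of pairs `(x, y)` of adjacent vertices with `x ∈ X` and `y ∈ Y`. In particular
`arcs H X X` is twice the number of edges inside `X`. -/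
noncomputable def arcs {m : ℕ} (H : SimpleGraph (Fin m)) (X Y : Finset (Fin m)) : ℕ :=
  {p : Fin m × Fin m | p.1 ∈ X ∧ p.2 ∈ Y ∧ H.Adj p.1 p.2}.ncard

/-- Every set of `p m` vertices spans at most `p ^ a e(H)` edges. -/
def LocallySparse (a : ℝ) {m : ℕ} (H : SimpleGraph (Fin m)) : Prop :=
  ∀ X : Finset (Fin m), (arcs H X X : ℝ) ≤ ((X.card : ℝ) / m) ^ a * arcs H univ univ

/-- Almost regular expanders of bounded diameter. -/
structure Expander (k : ℕ) (ε K : ℝ) (D : ℕ) {m : ℕ} (H : SimpleGraph (Fin m)) : Prop where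
  degree_ge : ∀ x, ε * (m : ℝ) ^ (1 / (k : ℝ)) ≤ ((H.neighborSet x).ncard : ℝ)
  degree_le : ∀ x, ((H.neighborSet x).ncard : ℝ) ≤ K * (m : ℝ) ^ (1 / (k : ℝ))
  edges : ∀ X : Finset (Fin m), 2 * X.card ≤ m →
    ε * (m : ℝ) ^ (1 / (k : ℝ)) * X.card ≤ (arcs H X Xᶜ : ℝ)
  vertices : ∀ X : Finset (Fin m), 2 * X.card ≤ m →
    ε * X.card ≤ ({y : Fin m | y ∉ X ∧ ∃ x ∈ X, H.Adj x y}.ncard : ℝ)
  diameter : ∀ x y : Fin m, ∃ p : H.Walk x y, p.length ≤ D

/-- The girth conjecture for the parameter `k`. -/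
def GirthConjecture (k : ℕ) : Prop :=
  ∃ c : ℝ, 0 < c ∧ ∃ N : ℕ, ∀ n ≥ N, ∃ G : SimpleGraph (Fin n),
    ((2 * k : ℕ) : ℕ∞) < G.egirth ∧ c * (n : ℝ) ^ (1 + 1 / (k : ℝ)) ≤ (G.edgeSet.ncard : ℝ)

theorem arcs_eq {m : ℕ} (H : SimpleGraph (Fin m)) [DecidableRel H.Adj] (X Y : Finset (Fin m)) :
    (arcs H X Y : ℝ) = ar H X Y := by
  rw [ar_eq_interedges, arcs, ← Set.ncard_coe_finset]
  congr 2
  ext p
  simp [SimpleGraph.mem_interedges_iff]

theorem ncard_nbr {m : ℕ} (H : SimpleGraph (Fin m)) [DecidableRel H.Adj] (x : Fin m) :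
    (H.neighborSet x).ncard = H.degree x := by
  rw [← H.card_neighborFinset_eq_degree, ← Set.ncard_coe_finset]
  congr 1
  ext y
  simp

theorem structure_theorem {k : ℕ} {c a : ℝ} (hk : 1 ≤ k) (hc : 0 < c) (ha1 : 1 < a)
    (ha2 : a < 1 + 1 / (k : ℝ)) :
    ∃ (ε K : ℝ) (D : ℕ), 0 < ε ∧ ∀ (V : Type) [Fintype V] (G : SimpleGraph V),
      ((2 * k : ℕ) : ℕ∞) < G.egirth → 1 ≤ Fintype.card V →
      c * (Fintype.card V : ℝ) ^ (1 + 1 / (k : ℝ)) ≤ (G.edgeSet.ncard : ℝ) →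
      ∃ (m : ℕ) (H : SimpleGraph (Fin m)), 0 < m ∧ ε * Fintype.card V ≤ m ∧ Nonempty (H ↪g G) ∧
        c / 2 * (m : ℝ) ^ (1 + 1 / (k : ℝ)) ≤ (H.edgeSet.ncard : ℝ) ∧ LocallySparse a H ∧
        Expander k ε K D H := by
  obtain ⟨ε1, hε1, K, hK, h1⟩ := exists_optimal hk hc ha1 ha2
  obtain ⟨ε2, hε2, D, h2⟩ := optimal_expands (k := k) hk hc ha1 hK
  refine ⟨min (min ε1 ε2) (c / 2), K, D, lt_min (lt_min hε1 hε2) (by positivity), ?_⟩
  intro V _ G hg hn he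
  classical
  have hmε1 : min (min ε1 ε2) (c / 2) ≤ ε1 := (min_le_left _ _).trans (min_le_left _ _)
  have hmε2 : min (min ε1 ε2) (c / 2) ≤ ε2 := (min_le_left _ _).trans (min_le_right _ _)
  have hmc : min (min ε1 ε2) (c / 2) ≤ c / 2 := min_le_right _ _
  rw [egirth_iff] at hg
  have hee : (G.edgeFinset.card : ℝ) = (G.edgeSet.ncard : ℝ) := by
    rw [← SimpleGraph.coe_edgeFinset, Set.ncard_coe_finset]
  obtain ⟨m, φ, hm, hsize, hopt, hE, hdeg⟩ := h1 V G hg hn (by rw [hee]; exact he)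
  have hgH := cycle_comap (G := G) φ hg
  have hdeg' : ∀ x, ((G.comap φ).degree x : ℝ) ≤
      K * (Fintype.card (Fin m) : ℝ) ^ (1 / (k : ℝ)) := by
    intro x
    rw [Fintype.card_fin]
    refine le_trans ?_ (hdeg x)
    rw [← deg_eq, ← deg_eq]
    rw [← card_map φ]
    apply Nat.cast_le.2
    apply card_le_card
    intro y hy
    rw [mem_map] at hy
    obtain ⟨z, hz, rfl⟩ := hy
    rw [mem_filter] at hz ⊢
    exact ⟨mem_univ _, hz.2⟩
  obtain ⟨h3, h4, h5⟩ := h2 (Fin m) (G.comap φ) hgH hopt (by rw [Fintype.card_fin]; exact hE) hdeg'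
  rw [Fintype.card_fin] at h3 h4
  refine ⟨m, G.comap φ, hm, ?_, ⟨SimpleGraph.Embedding.comap φ G⟩, ?_, ?_, ?_⟩
  · refine le_trans ?_ hsize
    gcongr
  · rw [ar_univ] at hE
    have h6 : ((G.comap φ).edgeFinset.card : ℝ) = ((G.comap φ).edgeSet.ncard : ℝ) := by
      rw [← SimpleGraph.coe_edgeFinset, Set.ncard_coe_finset]
    rw [← h6]
    linarith
  · intro X
    rw [arcs_eq, arcs_eq]
    have := hopt X (subset_univ X)
    rwa [card_univ, Fintype.card_fin] at this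
  · refine ⟨fun x => ?_, fun x => ?_, fun X hX => ?_, fun X hX => ?_, h5⟩
    · rw [ncard_nbr]
      refine le_trans ?_ (h3 x)
      gcongr
    · rw [ncard_nbr]
      have := hdeg' x
      rwa [Fintype.card_fin] at this
    · rw [arcs_eq]
      refine le_trans ?_ (h4 X hX).1
      gcongr
    · have h7 : ({y : Fin m | y ∉ X ∧ ∃ x ∈ X, (G.comap φ).Adj x y}.ncard : ℝ) =
          ((bd (G.comap φ) X).card : ℝ) := by
        rw [← Set.ncard_coe_finset]
        congr 2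
        ext y
        simp [bd]
      rw [h7]
      refine le_trans ?_ (h4 X hX).2
      gcongr

/-- The form of the conjecture with expanders. -/
def ExpanderConjecture (k : ℕ) (a : ℝ) : Prop :=
  ∃ (ε K : ℝ) (D N : ℕ), 0 < ε ∧ ∀ n ≥ N, ∃ (m : ℕ) (H : SimpleGraph (Fin m)),
    ε * n ≤ m ∧ m ≤ n ∧ ((2 * k : ℕ) : ℕ∞) < H.egirth ∧ LocallySparse a H ∧ Expander k ε K D H

theorem expander_of_girth {k : ℕ} (hk : 1 ≤ k) {a : ℝ} (ha1 : 1 < a) (ha2 : a < 1 + 1 / (k : ℝ))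
    (h : GirthConjecture k) : ExpanderConjecture k a := by
  obtain ⟨c, hc, N, hN⟩ := h
  obtain ⟨ε, K, D, hε, hs⟩ := structure_theorem hk hc ha1 ha2
  refine ⟨ε, K, D, max N 1, hε, fun n hn => ?_⟩
  obtain ⟨G, hG, hE⟩ := hN n (le_trans (le_max_left _ _) hn)
  have hn1 : 1 ≤ n := le_trans (le_max_right _ _) hn
  obtain ⟨m, H, hm, hsize, ⟨f⟩, -, hsp, hexp⟩ := hs (Fin n) G hG (by simpa using hn1)
    (by simpa using hE)
  refine ⟨m, H, by simpa using hsize, ?_, ?_, hsp, hexp⟩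
  · have := Fintype.card_le_of_injective f f.injective
    simpa using this
  · exact lt_of_lt_of_le hG (SimpleGraph.IsContained.egirth_le ⟨f.toCopy⟩)

theorem girth_of_expander {k : ℕ} (hk : 1 ≤ k) {a : ℝ} (h : ExpanderConjecture k a) :
    GirthConjecture k := by
  classical
  obtain ⟨ε, K, D, N, hε, h⟩ := h
  have hkpos : (0 : ℝ) < k := by exact_mod_cast hk
  have hkk : (k : ℝ) * (1 / (k : ℝ)) = 1 := by field_simp
  set C1 : ℝ := N + ε⁻¹ ^ k * ε⁻¹ + 1 with hC1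
  have hC1' : 0 < C1 := by positivity
  refine girthConj_of_almostRegularForm hk ⟨max C1 (|K| * C1 ^ (1 / (k : ℝ))), fun d hd => ?_⟩
  have hd1 : (1 : ℝ) ≤ d := by exact_mod_cast hd
  have hdk : (1 : ℝ) ≤ (d : ℝ) ^ k := one_le_pow₀ hd1
  set t : ℝ := (ε⁻¹ * d) ^ k * ε⁻¹ with ht
  have ht0 : 0 < t := by positivity
  set n : ℕ := max N ⌈t⌉₊ with hn
  have htn : t ≤ n := by
    refine (Nat.le_ceil t).trans ?_
    exact_mod_cast le_max_right _ _
  have hnC : (n : ℝ) ≤ C1 * (d : ℝ) ^ k := by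
    have h1 : (⌈t⌉₊ : ℝ) < t + 1 := Nat.ceil_lt_add_one ht0.le
    have h2 : (n : ℝ) ≤ N + ⌈t⌉₊ := by
      rw [hn]
      exact_mod_cast max_le (by omega) (by omega)
    have h3 : t = ε⁻¹ ^ k * ε⁻¹ * (d : ℝ) ^ k := by rw [ht, mul_pow]; ring
    have h4 : (N : ℝ) ≤ N * (d : ℝ) ^ k := by
      have : (0 : ℝ) ≤ N := Nat.cast_nonneg _
      nlinarith
    calc (n : ℝ) ≤ N + (t + 1) := by linarith
      _ ≤ N * (d : ℝ) ^ k + (ε⁻¹ ^ k * ε⁻¹ * (d : ℝ) ^ k + (d : ℝ) ^ k) := by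
          rw [h3]; linarith
      _ = C1 * (d : ℝ) ^ k := by rw [hC1]; ring
  obtain ⟨m, H, hsize, hmn, hg, -, hexp⟩ := h n (le_max_left _ _)
  have hmn' : (m : ℝ) ≤ n := by exact_mod_cast hmn
  have hmt : (ε⁻¹ * d) ^ k ≤ m := by
    calc (ε⁻¹ * d) ^ k = ε * t := by rw [ht]; field_simp
      _ ≤ ε * n := mul_le_mul_of_nonneg_left htn hε.le
      _ ≤ m := hsize
  have hm0 : (0 : ℝ) < m := lt_of_lt_of_le (by positivity) hmt
  have hroot : ε⁻¹ * d ≤ (m : ℝ) ^ (1 / (k : ℝ)) := by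
    calc ε⁻¹ * d = ((ε⁻¹ * d) ^ k) ^ (1 / (k : ℝ)) := by
          rw [← Real.rpow_natCast, ← Real.rpow_mul (by positivity), hkk, Real.rpow_one]
      _ ≤ _ := Real.rpow_le_rpow (by positivity) hmt (by positivity)
  have hroot2 : (m : ℝ) ^ (1 / (k : ℝ)) ≤ C1 ^ (1 / (k : ℝ)) * d := by
    calc (m : ℝ) ^ (1 / (k : ℝ)) ≤ (C1 * (d : ℝ) ^ k) ^ (1 / (k : ℝ)) :=
          Real.rpow_le_rpow hm0.le (hmn'.trans hnC) (by positivity)
      _ = C1 ^ (1 / (k : ℝ)) * d := by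
          rw [Real.mul_rpow hC1'.le (by positivity), ← Real.rpow_natCast (d : ℝ),
            ← Real.rpow_mul (by positivity), hkk, Real.rpow_one]
  refine ⟨m, H, by exact_mod_cast hm0, ?_, hg, fun x => ⟨?_, ?_⟩⟩
  · refine (hmn'.trans hnC).trans ?_
    exact mul_le_mul_of_nonneg_right (le_max_left _ _) (by positivity)
  · refine le_trans ?_ (hexp.degree_ge x)
    calc (d : ℝ) = ε * (ε⁻¹ * d) := by field_simp
      _ ≤ _ := mul_le_mul_of_nonneg_left hroot hε.le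
  · calc ((H.neighborSet x).ncard : ℝ) ≤ K * (m : ℝ) ^ (1 / (k : ℝ)) := hexp.degree_le x
      _ ≤ |K| * (m : ℝ) ^ (1 / (k : ℝ)) :=
          mul_le_mul_of_nonneg_right (le_abs_self K) (by positivity)
      _ ≤ |K| * (C1 ^ (1 / (k : ℝ)) * d) := mul_le_mul_of_nonneg_left hroot2 (abs_nonneg K)
      _ = |K| * C1 ^ (1 / (k : ℝ)) * d := by ring
      _ ≤ _ := mul_le_mul_of_nonneg_right (le_max_right _ _) (by positivity)

theorem result :
    (∀ (k : ℕ) (c a : ℝ), 1 ≤ k → 0 < c → 1 < a → a < 1 + 1 / (k : ℝ) →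
      ∃ (ε K : ℝ) (D : ℕ), 0 < ε ∧ ∀ (V : Type) [Fintype V] (G : SimpleGraph V),
        ((2 * k : ℕ) : ℕ∞) < G.egirth → 1 ≤ Fintype.card V →
        c * (Fintype.card V : ℝ) ^ (1 + 1 / (k : ℝ)) ≤ (G.edgeSet.ncard : ℝ) →
        ∃ (m : ℕ) (H : SimpleGraph (Fin m)), 0 < m ∧ ε * Fintype.card V ≤ m ∧
          Nonempty (H ↪g G) ∧ c / 2 * (m : ℝ) ^ (1 + 1 / (k : ℝ)) ≤ (H.edgeSet.ncard : ℝ) ∧
          LocallySparse a H ∧ Expander k ε K D H) ∧
    ∀ (k : ℕ) (a : ℝ), 1 ≤ k → 1 < a → a < 1 + 1 / (k : ℝ) →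
      (GirthConjecture k ↔
        ∃ (ε K : ℝ) (D N : ℕ), 0 < ε ∧ ∀ n ≥ N, ∃ (m : ℕ) (H : SimpleGraph (Fin m)),
          ε * n ≤ m ∧ m ≤ n ∧ ((2 * k : ℕ) : ℕ∞) < H.egirth ∧ LocallySparse a H ∧
          Expander k ε K D H) :=
  ⟨fun _ _ _ hk hc ha1 ha2 => structure_theorem hk hc ha1 ha2,
    fun _ _ hk ha1 ha2 => ⟨expander_of_girth hk ha1 ha2, girth_of_expander hk⟩⟩

end Pool.Agent.J4.H75.GE.ExpanderFormNote
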