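import Pool.Agent.J4.H75.GE.Bulk

/-!
# The spectrum of graphs near the Moore bound
-/

set_option autoImplicit false
set_option linter.unusedSectionVars false
set_option maxHeartbeats 1000000

open Finset Matrix Polynomial

namespace Pool.Agent.J4.H75.GE

/-- The scaled spectrum. -/
noncomputable def sp {V : Type} [Fintype V] [DecidableEq V] {G : SimpleGraph V} [DecidableRel G.Adj]
    (hA : (G.adjMatrix ℝ).IsHermitian) (d : ℝ) (i : V) : ℝ := hA.eigenvalues i / √d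

theorem main {k : ℕ} (hk : 1 ≤ k) {ε : ℝ} (hε : 0 < ε) : ∃ δ > 0, ∃ D : ℝ,
    ∀ (V : Type) [Fintype V] [DecidableEq V] [Nonempty V] (G : SimpleGraph V) [DecidableRel G.Adj]
      (hA : (G.adjMatrix ℝ).IsHermitian) (d : ℝ), D ≤ d →
      (∀ (v : V) (p : G.Walk v v), p.IsCycle → 2 * k < p.length) →
      (∀ x, (1 - δ) * d ≤ (G.degree x : ℝ) ∧ (G.degree x : ℝ) ≤ d) →
      (∀ a ≤ k, ∀ b ≤ k, |mean (sp hA d) (u a * u b) - if a = b then 1 else 0| ≤ ε) ∧
      (∃ i, (1 - δ) * d ≤ hA.eigenvalues i ∧ ∑ j ∈ {i}ᶜ, (u k).eval (sp hA d j) ^ 2 ≤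
        (1 + ε) * Fintype.card V - (1 - ε) * d ^ k) ∧
      (G.Colorable 2 → ∃ i i', i ≠ i' ∧ (1 - δ) * d ≤ hA.eigenvalues i ∧
        hA.eigenvalues i' ≤ -((1 - δ) * d) ∧ ∑ j ∈ {i, i'}ᶜ, (u k).eval (sp hA d j) ^ 2 ≤
        (1 + ε) * Fintype.card V - 2 * ((1 - ε) * d ^ k)) := by
  obtain ⟨η, hη, horth⟩ := almost_orthonormal k hε
  have hk0 : (0 : ℝ) < k := by exact_mod_cast hk
  set δ : ℝ := min (1 / 4) (min (η / (4 * k)) (ε / (4 * k))) with hδ
  have hδ0 : 0 < δ := lt_min (by norm_num) (lt_min (by positivity) (by positivity))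
  have hδ1 : δ ≤ 1 / 4 := min_le_left _ _
  have hδ2 : 4 * k * δ ≤ η := by
    have : δ ≤ η / (4 * k) := (min_le_right _ _).trans (min_le_left _ _)
    rw [le_div_iff₀ (by positivity)] at this
    linarith
  have hδ3 : 4 * k * δ ≤ ε := by
    have : δ ≤ ε / (4 * k) := (min_le_right _ _).trans (min_le_right _ _)
    rw [le_div_iff₀ (by positivity)] at this
    linarith
  refine ⟨δ, hδ0, (1 / δ) ^ 2, ?_⟩
  intro V _ _ _ G _ hA d hD hg hdeg
  have hδ4 : 4 ≤ 1 / δ := by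
    rw [le_div_iff₀ hδ0]
    linarith
  have hd16 : 16 ≤ d := by nlinarith
  have hd0 : 0 < d := by linarith
  set s : ℝ := √d with hs
  have hs0 : 0 < s := Real.sqrt_pos.2 hd0
  have hs2 : s ^ 2 = d := Real.sq_sqrt hd0.le
  have hsδ : 1 / δ ≤ s := Real.le_sqrt_of_sq_le hD
  have hs4 : 4 ≤ s := hδ4.trans hsδ
  have hsinv : 1 / s ≤ δ := by
    rw [div_le_iff₀ hs0]
    rw [div_le_iff₀ hδ0] at hsδ
    linarith
  have hdinv : 1 / d ≤ δ := by
    rw [← hs2]
    refine le_trans ?_ hsinv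
    apply one_div_le_one_div_of_le hs0
    nlinarith
  -- the lower radius
  have ht2 : 0 < (1 - δ) * d - 1 := by nlinarith
  set t : ℝ := √((1 - δ) * d - 1) with ht
  have ht0 : 0 < t := Real.sqrt_pos.2 ht2
  have ht2' : t ^ 2 = (1 - δ) * d - 1 := Real.sq_sqrt ht2.le
  set ρ : ℝ := t / s with hρ
  have hρ0 : 0 < ρ := div_pos ht0 hs0
  have hρ2 : ρ ^ 2 = 1 - δ - 1 / d := by
    rw [hρ, div_pow, ht2', hs2]
    field_simp
  have hρ1 : ρ ≤ 1 := by
    have : 0 < 1 / d := by positivity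
    by_contra hcon
    push Not at hcon
    nlinarith
  have hρlow : 1 - 2 * δ ≤ ρ := by nlinarith
  have hn0 : (0 : ℝ) < Fintype.card V := by
    have : 0 < Fintype.card V := Fintype.card_pos
    exact_mod_cast this
  set n : ℝ := (Fintype.card V : ℝ) with hn
  -- the moments
  have hmom : ∀ m ≤ 2 * k, |mean (sp hA d) (X ^ m) - bal m 0| ≤ η * bal m 0 := by
    intro m hm
    have hw := walks_sharp G hg hs0 ht0 (fun x => by rw [hs2]; exact (hdeg x).2)
      (fun x => by rw [ht2']; linarith [(hdeg x).1])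
    have e1 : mean (sp hA d) (X ^ m) = (∑ x, (G.adjMatrix ℝ ^ m) x x) / (s ^ m * n) := by
      rw [mean_apply, ← sum_pow G hA m]
      simp only [eval_pow, eval_X, sp, div_pow]
      rw [← sum_div, div_div]
    have hup : ∑ x, (G.adjMatrix ℝ ^ m) x x ≤ n * (s ^ m * bal m 0) := by
      calc ∑ x, (G.adjMatrix ℝ ^ m) x x ≤ ∑ x : V, s ^ m * bal m 0 :=
            sum_le_sum fun x _ => ((hw x m).2 hm).2
        _ = _ := by rw [sum_const, card_univ, nsmul_eq_mul]
    have hlo : n * (t ^ m * bal m 0) ≤ ∑ x, (G.adjMatrix ℝ ^ m) x x := by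
      calc n * (t ^ m * bal m 0) = ∑ x : V, t ^ m * bal m 0 := by
            rw [sum_const, card_univ, nsmul_eq_mul]
        _ ≤ _ := sum_le_sum fun x _ => ((hw x m).2 hm).1
    have h1 : mean (sp hA d) (X ^ m) ≤ bal m 0 := by
      rw [e1, div_le_iff₀ (by positivity)]
      linarith
    have h2 : ρ ^ m * bal m 0 ≤ mean (sp hA d) (X ^ m) := by
      rw [e1, le_div_iff₀ (by positivity), hρ, div_pow]
      have : t ^ m / s ^ m * (bal m 0 : ℝ) * (s ^ m * n) = n * (t ^ m * bal m 0) := by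
        field_simp
      rw [this]
      exact hlo
    have h3 : 1 - η ≤ ρ ^ m := by
      have h4 := one_add_mul_le_pow (a := ρ - 1) (by linarith) m
      have h5 : (1 + (ρ - 1)) ^ m = ρ ^ m := by ring
      rw [h5] at h4
      have h6 : (m : ℝ) ≤ 2 * k := by exact_mod_cast hm
      have h7 : (m : ℝ) * (1 - ρ) ≤ 2 * k * (2 * δ) :=
        mul_le_mul h6 (by linarith) (by linarith) (by positivity)
      linarith
    have h4 : (0 : ℝ) ≤ bal m 0 := Nat.cast_nonneg _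
    rw [abs_le]
    constructor
    · nlinarith
    · have : 0 ≤ η * (bal m 0 : ℝ) := by positivity
      linarith
  have horth' := horth (mean (sp hA d)) hmom
  -- large eigenvalues
  have hbig : ∀ i, (1 - δ) * d ≤ |hA.eigenvalues i| → (1 - ε) * d ^ k ≤
      (u k).eval (sp hA d i) ^ 2 := by
    intro i hi
    have h1 : (1 - δ) * s ≤ |sp hA d i| := by
      rw [sp, abs_div, ← hs, abs_of_pos hs0, le_div_iff₀ hs0]
      calc (1 - δ) * s * s = (1 - δ) * d := by rw [← hs2]; ring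
        _ ≤ _ := hi
    have h2 : 2 ≤ |sp hA d i| := by nlinarith
    refine le_trans ?_ (u_sq_ge h2 k)
    have h3 : s * (1 - 2 * δ) ≤ |sp hA d i| - 1 := by
      have : 1 ≤ δ * s := by rwa [div_le_iff₀ hs0] at hsinv
      nlinarith
    have h4 : (s * (1 - 2 * δ)) ^ (2 * k) ≤ (|sp hA d i| - 1) ^ (2 * k) :=
      pow_le_pow_left₀ (mul_nonneg hs0.le (by linarith)) h3 _
    refine le_trans ?_ h4
    rw [mul_pow, pow_mul, hs2, mul_comm (1 - ε)]
    apply mul_le_mul_of_nonneg_left _ (by positivity)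
    have h5 := one_add_mul_le_pow (a := -(2 * δ)) (by linarith) (2 * k)
    have h6 : (1 + -(2 * δ)) ^ (2 * k) = (1 - 2 * δ) ^ (2 * k) := by ring
    rw [h6] at h5
    push_cast at h5
    linarith
  have htot : ∑ j, (u k).eval (sp hA d j) ^ 2 ≤ (1 + ε) * n := by
    have h1 := horth' k le_rfl k le_rfl
    rw [if_pos rfl, mean_apply, abs_le] at h1
    have h2 : (∑ j, (u k * u k).eval (sp hA d j)) / n ≤ 1 + ε := by
      have := h1.2
      rw [← hn] at this
      linarith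
    rw [div_le_iff₀ hn0] at h2
    refine le_trans (le_of_eq ?_) h2
    refine sum_congr rfl fun j _ => ?_
    rw [eval_mul, sq]
  refine ⟨horth', ?_, ?_⟩
  · obtain ⟨i, hi⟩ := exists_ge G hA (c := (1 - δ) * d) fun x => (hdeg x).1
    refine ⟨i, hi, ?_⟩
    have h1 := hbig i (hi.trans (le_abs_self _))
    rw [← sum_add_sum_compl ({i} : Finset V), sum_singleton] at htot
    linarith
  · intro hb
    obtain ⟨i, hi⟩ := exists_ge G hA (c := (1 - δ) * d) fun x => (hdeg x).1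
    obtain ⟨i', hi'⟩ := exists_le G hA (c := (1 - δ) * d) (fun x => (hdeg x).1) hb
    have hpos : 0 < (1 - δ) * d := by nlinarith
    have hne : i ≠ i' := by
      rintro rfl
      linarith
    refine ⟨i, i', hne, hi, hi', ?_⟩
    have h1 := hbig i (hi.trans (le_abs_self _))
    have h2 := hbig i' (by rw [abs_of_neg (by linarith)]; linarith)
    rw [← sum_add_sum_compl ({i, i'} : Finset V), sum_pair hne] at htot
    linarith

/-- The spectrum at the Moore bound. -/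
theorem rigid {k : ℕ} (hk : 1 ≤ k) {r : ℝ} (hr : 0 < r)
    (hgap : ∀ i j : Fin k, i ≠ j → 2 * r ≤ |node k i - node k j|) {ε : ℝ} (hε : 0 < ε) :
    ∃ δ > 0, ∃ D : ℝ,
    ∀ (V : Type) [Fintype V] [DecidableEq V] [Nonempty V] (G : SimpleGraph V) [DecidableRel G.Adj]
      (hA : (G.adjMatrix ℝ).IsHermitian) (d : ℝ), D ≤ d →
      (∀ (v : V) (p : G.Walk v v), p.IsCycle → 2 * k < p.length) →
      (∀ x, (1 - δ) * d ≤ (G.degree x : ℝ) ∧ (G.degree x : ℝ) ≤ d) →
      ((Fintype.card V : ℝ) ≤ (1 + δ) * d ^ k ∨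
        (G.Colorable 2 ∧ (Fintype.card V : ℝ) ≤ 2 * ((1 + δ) * d ^ k))) →
      ∀ j, |((univ.filter fun i => |sp hA d i - node k j| ≤ r).card : ℝ) -
        wt k j * Fintype.card V| ≤ ε * Fintype.card V := by
  obtain ⟨ε₁, hε₁, hst⟩ := stability hk hr hgap hε
  set ε₂ : ℝ := min (1 / 4) (ε₁ / 4) with hε₂
  have hε20 : 0 < ε₂ := lt_min (by norm_num) (by positivity)
  have hε21 : ε₂ ≤ 1 / 4 := min_le_left _ _
  have hε22 : ε₂ ≤ ε₁ / 4 := min_le_right _ _
  obtain ⟨δ₁, hδ₁, D₁, hmain⟩ := main hk hε20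
  set δ : ℝ := min δ₁ (min (1 / 2) (ε₁ / 2)) with hδ
  have hδ0 : 0 < δ := lt_min hδ₁ (lt_min (by norm_num) (by positivity))
  have hδ1 : δ ≤ δ₁ := min_le_left _ _
  have hδ2 : δ ≤ 1 / 2 := (min_le_right _ _).trans (min_le_left _ _)
  have hδ3 : δ ≤ ε₁ / 2 := (min_le_right _ _).trans (min_le_right _ _)
  refine ⟨δ, hδ0, max (max D₁ 1) (4 / ε₁), ?_⟩
  intro V _ _ _ G _ hA d hD hg hdeg hcard j
  have hD1 : D₁ ≤ d := ((le_max_left _ _).trans (le_max_left _ _)).trans hD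
  have hd1 : 1 ≤ d := ((le_max_right _ _).trans (le_max_left _ _)).trans hD
  have hd2 : 4 / ε₁ ≤ d := (le_max_right _ _).trans hD
  obtain ⟨h1, h2, h3⟩ := hmain V G hA d hD1 hg fun x =>
    ⟨le_trans (mul_le_mul_of_nonneg_right (by linarith) (by linarith)) (hdeg x).1, (hdeg x).2⟩
  have hn : 2 ≤ ε₁ * (Fintype.card V : ℝ) := by
    obtain ⟨x⟩ := ‹Nonempty V›
    have h4 : (G.degree x : ℝ) ≤ Fintype.card V := by exact_mod_cast (G.degree_lt_card_verts x).le
    have h5 := (hdeg x).1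
    have h6 : d / 2 ≤ (1 - δ) * d := by nlinarith
    rw [div_le_iff₀ hε₁] at hd2
    have h7 : d / 2 ≤ Fintype.card V := by linarith
    have h8 : d / 2 * ε₁ ≤ Fintype.card V * ε₁ := mul_le_mul_of_nonneg_right h7 hε₁.le
    linarith
  have hn0 : (0 : ℝ) ≤ Fintype.card V := Nat.cast_nonneg _
  have hdk : (0 : ℝ) < d ^ k := by positivity
  have hε₂n : ε₂ * (Fintype.card V : ℝ) ≤ ε₁ / 4 * Fintype.card V :=
    mul_le_mul_of_nonneg_right hε22 hn0
  have hδn : δ * (Fintype.card V : ℝ) ≤ ε₁ / 2 * Fintype.card V :=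
    mul_le_mul_of_nonneg_right hδ3 hn0
  have key : ∀ y : ℝ, 0 ≤ y → (Fintype.card V : ℝ) ≤ (1 + δ) * y →
      (1 + ε₂) * Fintype.card V - (1 - ε₂) * y ≤ ε₁ * Fintype.card V := by
    intro y hy0 hy
    have h5 : (1 - δ) * (Fintype.card V : ℝ) ≤ y := by
      have h6 : (1 - δ) * (Fintype.card V : ℝ) ≤ (1 - δ) * ((1 + δ) * y) :=
        mul_le_mul_of_nonneg_left hy (by linarith)
      nlinarith [sq_nonneg δ]
    have h6 : (1 - ε₂) * ((1 - δ) * (Fintype.card V : ℝ)) ≤ (1 - ε₂) * y :=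
      mul_le_mul_of_nonneg_left h5 (by linarith)
    have h7 : 0 ≤ ε₂ * δ * (Fintype.card V : ℝ) := by positivity
    nlinarith
  have h1' : ∀ a ≤ k, ∀ b ≤ k, |mean (sp hA d) (u a * u b) - if a = b then 1 else 0| ≤ ε₁ :=
    fun a ha b hb => (h1 a ha b hb).trans (by linarith)
  rcases hcard with hc | ⟨hb, hc⟩
  · obtain ⟨i, -, hi⟩ := h2
    refine hst V (sp hA d) {i} h1' ?_ (hi.trans (key _ hdk.le hc)) j
    rw [card_singleton]
    push_cast
    linarith
  · obtain ⟨i, i', hne, -, -, hi⟩ := h3 hb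
    refine hst V (sp hA d) {i, i'} h1' ?_ (hi.trans ?_) j
    · rw [card_pair hne]
      push_cast
      linarith
    · have := key (2 * d ^ k) (by positivity) (by linarith)
      linarith

end Pool.Agent.J4.H75.GE
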