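import Pool.Agent.TH815.GR12

/-!
# Sets of vertices maximising `e(U) / |U| ^ a`
-/

set_option autoImplicit false
set_option linter.unusedSectionVars false

open Finset

namespace Pool.Agent.J4.H75.GE

variable {V : Type*} [DecidableEq V]

/-- The number of arcs from `X` to `Y`. -/
def ar (G : SimpleGraph V) [DecidableRel G.Adj] (X Y : Finset V) : ℝ :=
  ∑ x ∈ X, ∑ y ∈ Y, if G.Adj x y then (1 : ℝ) else 0

variable (G : SimpleGraph V) [DecidableRel G.Adj]

theorem ar_eq_sum_card (X Y : Finset V) :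
    ar G X Y = ∑ x ∈ X, ((Y.filter fun y => G.Adj x y).card : ℝ) := by
  unfold ar
  refine sum_congr rfl fun x _ => ?_
  rw [sum_boole]

theorem ar_eq_interedges (X Y : Finset V) : ar G X Y = ((G.interedges X Y).card : ℝ) := by
  unfold ar SimpleGraph.interedges Rel.interedges
  rw [← sum_product' (f := fun x y => if G.Adj x y then (1 : ℝ) else 0), sum_boole]

theorem ar_nonneg (X Y : Finset V) : 0 ≤ ar G X Y :=
  sum_nonneg fun _ _ => sum_nonneg fun _ _ => by split_ifs <;> norm_num

theorem ar_comm (X Y : Finset V) : ar G X Y = ar G Y X := by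
  unfold ar
  rw [sum_comm]
  refine sum_congr rfl fun y _ => sum_congr rfl fun x _ => ?_
  simp only [G.adj_comm]

theorem ar_union_left {X X' : Finset V} (h : Disjoint X X') (Y : Finset V) :
    ar G (X ∪ X') Y = ar G X Y + ar G X' Y := by
  unfold ar
  rw [sum_union h]

theorem ar_union_right {X X' : Finset V} (h : Disjoint X X') (Y : Finset V) :
    ar G Y (X ∪ X') = ar G Y X + ar G Y X' := by
  rw [ar_comm, ar_union_left G h, ar_comm G X, ar_comm G X']

theorem ar_mono {X X' Y Y' : Finset V} (h : X ⊆ X') (h' : Y ⊆ Y') : ar G X Y ≤ ar G X' Y' := by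
  unfold ar
  calc ∑ x ∈ X, ∑ y ∈ Y, (if G.Adj x y then (1 : ℝ) else 0)
      ≤ ∑ x ∈ X, ∑ y ∈ Y', (if G.Adj x y then (1 : ℝ) else 0) := by
        refine sum_le_sum fun x _ => sum_le_sum_of_subset_of_nonneg h' fun y _ _ => ?_
        split_ifs <;> norm_num
    _ ≤ _ := by
        refine sum_le_sum_of_subset_of_nonneg h fun x _ _ => sum_nonneg fun y _ => ?_
        split_ifs <;> norm_num

theorem ar_split {X U : Finset V} (h : X ⊆ U) :
    ar G U U = ar G X X + ar G (U \ X) (U \ X) + 2 * ar G X (U \ X) := by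
  have hd : Disjoint X (U \ X) := disjoint_sdiff
  have hu : X ∪ (U \ X) = U := union_sdiff_of_subset h
  calc ar G U U = ar G (X ∪ (U \ X)) (X ∪ (U \ X)) := by rw [hu]
    _ = ar G X X + ar G (U \ X) (U \ X) + 2 * ar G X (U \ X) := by
        rw [ar_union_left G hd, ar_union_right G hd, ar_union_right G hd, ar_comm G (U \ X) X]
        ring

theorem ar_empty (Y : Finset V) : ar G ∅ Y = 0 := by simp [ar]

/-- The density condition: no subset of `U` is denser than `U` in the scale `a`. -/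
def Opt (a : ℝ) (U : Finset V) : Prop :=
  ∀ X ⊆ U, ar G X X ≤ ((X.card : ℝ) / U.card) ^ a * ar G U U

theorem exists_opt (L : Finset V) (hL : L.Nonempty) (a : ℝ) :
    ∃ U ⊆ L, U.Nonempty ∧ Opt G a U ∧ ar G L L / (L.card : ℝ) ^ a ≤ ar G U U / (U.card : ℝ) ^ a := by
  obtain ⟨U, hU, hmax⟩ := Finset.exists_max_image (L.powerset.filter fun X => X.Nonempty)
    (fun X => ar G X X / (X.card : ℝ) ^ a) ⟨L, by simp [hL]⟩
  rw [mem_filter, mem_powerset] at hU
  refine ⟨U, hU.1, hU.2, ?_, hmax L (by simp [hL])⟩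
  intro X hX
  rcases X.eq_empty_or_nonempty with h | h
  · rw [h, ar_empty]
    exact mul_nonneg (Real.rpow_nonneg (by positivity) _) (ar_nonneg _ _ _)
  · have h1 := hmax X (by
      rw [mem_filter, mem_powerset]
      exact ⟨hX.trans hU.1, h⟩)
    have hXc : (0 : ℝ) < X.card := by exact_mod_cast card_pos.2 h
    have hUc : (0 : ℝ) < U.card := by exact_mod_cast card_pos.2 hU.2
    have hXa : (0 : ℝ) < (X.card : ℝ) ^ a := Real.rpow_pos_of_pos hXc _
    have hUa : (0 : ℝ) < (U.card : ℝ) ^ a := Real.rpow_pos_of_pos hUc _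
    rw [Real.div_rpow hXc.le hUc.le]
    rw [div_le_div_iff₀ hXa hUa] at h1
    rw [div_mul_eq_mul_div, le_div_iff₀ hUa]
    linarith

variable {G}

/-- Edge expansion. -/
theorem expansion {a : ℝ} (ha : 1 < a) {U : Finset V} (hU : Opt G a U)
    {X : Finset V} (hX : X ⊆ U) (h2 : 2 * X.card ≤ U.card) :
    (1 - 2 ^ (1 - a)) / 2 * ((X.card : ℝ) / U.card) * ar G U U ≤ ar G X (U \ X) := by
  rcases U.eq_empty_or_nonempty with h | h
  · subst h
    rw [ar_empty, mul_zero]
    exact ar_nonneg _ _ _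
  have hUc : (0 : ℝ) < U.card := by exact_mod_cast card_pos.2 h
  set p : ℝ := (X.card : ℝ) / U.card with hp
  have hp0 : 0 ≤ p := by positivity
  have hp2 : p ≤ 1 / 2 := by
    rw [hp, div_le_div_iff₀ hUc (by norm_num)]
    have : (2 : ℝ) * X.card ≤ U.card := by exact_mod_cast h2
    linarith
  have h1 := hU X hX
  have h3 := hU (U \ X) sdiff_subset
  have hq : ((U \ X).card : ℝ) / U.card = 1 - p := by
    rw [card_sdiff_of_subset hX, Nat.cast_sub (card_le_card hX), hp]
    field_simp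
  rw [hq] at h3
  rw [← hp] at h1
  have hs := ar_split G hX
  have hA := ar_nonneg G U U
  have hpa : p ^ a ≤ p * 2 ^ (1 - a) := by
    rcases hp0.eq_or_lt with h0 | h0
    · rw [← h0, Real.zero_rpow (by linarith), zero_mul]
    · calc p ^ a = p ^ (1 + (a - 1)) := by ring_nf
        _ = p * p ^ (a - 1) := by rw [Real.rpow_add h0, Real.rpow_one]
        _ ≤ p * (1 / 2) ^ (a - 1) :=
            mul_le_mul_of_nonneg_left (Real.rpow_le_rpow h0.le hp2 (by linarith)) h0.le
        _ = p * 2 ^ (1 - a) := by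
            rw [one_div, Real.inv_rpow (by norm_num), ← Real.rpow_neg (by norm_num)]
            ring_nf
  have hqa : (1 - p) ^ a ≤ 1 - p := by
    calc (1 - p) ^ a ≤ (1 - p) ^ (1 : ℝ) :=
          Real.rpow_le_rpow_of_exponent_ge (by linarith) (by linarith) ha.le
      _ = 1 - p := Real.rpow_one _
  have h5 : p ^ a * ar G U U ≤ p * 2 ^ (1 - a) * ar G U U := mul_le_mul_of_nonneg_right hpa hA
  have h6 : (1 - p) ^ a * ar G U U ≤ (1 - p) * ar G U U := mul_le_mul_of_nonneg_right hqa hA
  nlinarith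

/-- Minimum degree. -/
theorem min_degree {a : ℝ} (ha : 1 < a) {U : Finset V} (hU : Opt G a U)
    {x : V} (hx : x ∈ U) : ar G U U / (2 * U.card) ≤ ((U.filter fun y => G.Adj x y).card : ℝ) := by
  have hUn : U.Nonempty := ⟨x, hx⟩
  have hUc : (0 : ℝ) < U.card := by exact_mod_cast card_pos.2 hUn
  have hX : ({x} : Finset V) ⊆ U := by simpa using hx
  have hs := ar_split G hX
  have h3 := hU (U \ {x}) sdiff_subset
  have hA := ar_nonneg G U U
  have hq : ((U \ {x}).card : ℝ) / U.card = 1 - 1 / U.card := by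
    rw [card_sdiff_of_subset hX, Nat.cast_sub (card_le_card hX)]
    simp only [card_singleton, Nat.cast_one]
    field_simp
  rw [hq] at h3
  have h1c : (1 : ℝ) ≤ U.card := by exact_mod_cast card_pos.2 hUn
  have hi : 1 / (U.card : ℝ) ≤ 1 := by
    rw [div_le_one hUc]
    exact h1c
  have hi0 : 0 ≤ 1 / (U.card : ℝ) := by positivity
  have hqa : (1 - 1 / (U.card : ℝ)) ^ a ≤ 1 - 1 / U.card := by
    calc (1 - 1 / (U.card : ℝ)) ^ a ≤ (1 - 1 / (U.card : ℝ)) ^ (1 : ℝ) :=
          Real.rpow_le_rpow_of_exponent_ge' (by linarith) (by linarith) (by norm_num) ha.le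
      _ = _ := Real.rpow_one _
  have h6 : (1 - 1 / (U.card : ℝ)) ^ a * ar G U U ≤ (1 - 1 / U.card) * ar G U U :=
    mul_le_mul_of_nonneg_right hqa hA
  have hxx : ar G {x} {x} = 0 := by simp [ar]
  have hxd : ar G {x} (U \ {x}) ≤ ((U.filter fun y => G.Adj x y).card : ℝ) := by
    rw [ar_eq_sum_card, sum_singleton]
    exact_mod_cast card_le_card (filter_subset_filter _ sdiff_subset)
  have h7 : ar G U U / (2 * U.card) = (1 / U.card) * ar G U U / 2 := by
    field_simp
  rw [h7]
  rw [hxx] at hs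
  nlinarith

end Pool.Agent.J4.H75.GE
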