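import Pool.Agent.J4.H75.GE.Opt

/-!
# Linear-size optimal induced subgraphs of extremal graphs of large girth
-/

set_option autoImplicit false
set_option linter.unusedSectionVars false

open Finset

namespace Pool.Agent.J4.H75.GE

open Pool.TH815.GR

theorem ar_univ {V : Type} [Fintype V] [DecidableEq V] (G : SimpleGraph V) [DecidableRel G.Adj] :
    ar G univ univ = 2 * (G.edgeFinset.card : ℝ) := by
  have hsum : 2 * (G.edgeFinset.card : ℝ) = ∑ v, (G.degree v : ℝ) := by
    rw [← Nat.cast_sum, G.sum_degrees_eq_twice_card_edges]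
    push_cast
    rfl
  rw [hsum, ar_eq_sum_card]
  refine sum_congr rfl fun x _ => ?_
  rw [← G.card_neighborFinset_eq_degree]
  congr 1
  congr 1
  ext y
  simp

theorem ar_comap {V W : Type} [DecidableEq V] [DecidableEq W] (G : SimpleGraph V)
    [DecidableRel G.Adj] (φ : W ↪ V) (X Y : Finset W) :
    ar (G.comap φ) X Y = ar G (X.map φ) (Y.map φ) := by
  unfold ar
  rw [sum_map]
  refine sum_congr rfl fun x _ => ?_
  rw [sum_map]
  rfl

theorem cycle_comap {V W : Type} {G : SimpleGraph V} (φ : W ↪ V) {M : ℕ}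
    (hg : ∀ (v : V) (p : G.Walk v v), p.IsCycle → M < p.length) :
    ∀ (v : W) (p : (G.comap φ).Walk v v), p.IsCycle → M < p.length := by
  intro v p hp
  have := hg _ (p.map (SimpleGraph.Embedding.comap φ G).toHom)
    (hp.map (SimpleGraph.Embedding.comap φ G).injective)
  rwa [SimpleGraph.Walk.length_map] at this

theorem moore {V : Type} [Fintype V] [DecidableEq V] (G : SimpleGraph V) [DecidableRel G.Adj]
    {k : ℕ} (hk : 1 ≤ k) (hg : ∀ (v : V) (p : G.Walk v v), p.IsCycle → 2 * k < p.length) :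
    ar G univ univ ≤ 24 * (Fintype.card V : ℝ) ^ (1 + 1 / (k : ℝ)) := by
  rw [ar_univ]
  have h := edges_le G hk hg
  have h0 : (Fintype.card V : ℝ) ≤ (Fintype.card V : ℝ) ^ (1 + 1 / (k : ℝ)) := by
    rcases Nat.eq_zero_or_pos (Fintype.card V) with h0 | h0
    · rw [h0]
      simp only [Nat.cast_zero]
      positivity
    · have h1 : (1 : ℝ) ≤ Fintype.card V := by exact_mod_cast h0
      calc (Fintype.card V : ℝ) = (Fintype.card V : ℝ) ^ (1 : ℝ) := (Real.rpow_one _).symm
        _ ≤ _ := Real.rpow_le_rpow_of_exponent_le h1 (by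
          have : 0 ≤ 1 / (k : ℝ) := by positivity
          linarith)
  linarith

/-- The set of vertices of small degree carries many edges. -/
theorem low_degree {V : Type} [Fintype V] [DecidableEq V] (G : SimpleGraph V) [DecidableRel G.Adj]
    {k : ℕ} (hk : 1 ≤ k) (hg : ∀ (v : V) (p : G.Walk v v), p.IsCycle → 2 * k < p.length)
    {c : ℝ} (hc : 0 < c) (hn1 : 1 ≤ Fintype.card V)
    (he : c * (Fintype.card V : ℝ) ^ (1 + 1 / (k : ℝ)) ≤ (G.edgeFinset.card : ℝ)) :
    ∃ L : Finset V, L.Nonempty ∧ c * (Fintype.card V : ℝ) ^ (1 + 1 / (k : ℝ)) ≤ ar G L L ∧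
      ∀ x ∈ L, (G.degree x : ℝ) ≤
        max (256 / c) ((32 / c) ^ k) * (Fintype.card V : ℝ) ^ (1 / (k : ℝ)) := by
  set n : ℝ := (Fintype.card V : ℝ) with hn
  set K : ℝ := max (256 / c) ((32 / c) ^ k) with hK
  have hn1' : (1 : ℝ) ≤ n := by rw [hn]; exact_mod_cast hn1
  have hn0 : 0 < n := by linarith
  have hkpos : (0 : ℝ) < k := by exact_mod_cast hk
  have hN1 : 1 ≤ n ^ (1 / (k : ℝ)) := Real.one_le_rpow hn1' (by positivity)
  have hK0 : 0 < K := lt_of_lt_of_le (by positivity) (le_max_left _ _)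
  have hrp : n ^ (1 + 1 / (k : ℝ)) = n * n ^ (1 / (k : ℝ)) := by
    rw [Real.rpow_add hn0, Real.rpow_one]
  have hpos : 0 < c * n ^ (1 + 1 / (k : ℝ)) := by positivity
  have hne : ∀ L : Finset V, c * n ^ (1 + 1 / (k : ℝ)) ≤ ar G L L → L.Nonempty := by
    intro L hL
    rw [nonempty_iff_ne_empty]
    intro h
    rw [h, ar_empty] at hL
    linarith
  by_cases hsm : n ^ (1 / (k : ℝ)) < 32 / c
  · have hL : c * n ^ (1 + 1 / (k : ℝ)) ≤ ar G univ univ := by
      rw [ar_univ]
      linarith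
    refine ⟨univ, hne _ hL, hL, fun x _ => ?_⟩
    have h1 : (G.degree x : ℝ) ≤ n := by
      rw [hn]
      exact_mod_cast (G.degree_lt_card_verts x).le
    have h2 : n ≤ (32 / c) ^ k := by
      have : n = (n ^ (1 / (k : ℝ))) ^ k := by
        rw [← Real.rpow_natCast, ← Real.rpow_mul hn0.le]
        have : (1 / (k : ℝ)) * (k : ℝ) = 1 := by field_simp
        rw [this, Real.rpow_one]
      rw [this]
      exact pow_le_pow_left₀ (by positivity) hsm.le _
    calc (G.degree x : ℝ) ≤ (32 / c) ^ k := h1.trans h2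
      _ ≤ K := le_max_right _ _
      _ ≤ K * n ^ (1 / (k : ℝ)) := by nlinarith
  · push Not at hsm
    set L : Finset V := univ.filter (fun x => ¬ K * n ^ (1 / (k : ℝ)) < (G.degree x : ℝ)) with hLd
    have htail := tail G hk hg K hK0
    rw [← hn] at htail
    have hLc : (univ \ L : Finset V) =
        univ.filter (fun x => K * n ^ (1 / (k : ℝ)) < (G.degree x : ℝ)) := by
      ext x
      simp [hLd]
    have hsp := ar_split G (subset_univ (univ \ L))
    have hUL : univ \ (univ \ L) = L := by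
      ext x
      simp
    rw [hUL] at hsp
    have hdeg : ∀ X : Finset V, ar G X univ = ∑ x ∈ X, (G.degree x : ℝ) := by
      intro X
      rw [ar_eq_sum_card]
      refine sum_congr rfl fun x _ => ?_
      rw [← G.card_neighborFinset_eq_degree]
      congr 2
      ext y
      simp
    have h1 : ar G (univ \ L) (univ \ L) + ar G (univ \ L) L = ar G (univ \ L) univ := by
      rw [← ar_union_right G (by exact sdiff_disjoint) (univ \ L)]
      congr 1
      exact sdiff_union_of_subset (subset_univ L)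
    have h2 : ar G (univ \ L) univ ≤ 8 * n + 64 / K * n ^ (1 + 1 / (k : ℝ)) := by
      rw [hdeg, hLc]
      exact htail
    have h3 : 64 / K ≤ c / 4 := by
      rw [div_le_iff₀ hK0]
      have : 256 / c ≤ K := le_max_left _ _
      rw [div_le_iff₀ hc] at this
      linarith
    have h4 : 64 / K * n ^ (1 + 1 / (k : ℝ)) ≤ c / 4 * n ^ (1 + 1 / (k : ℝ)) :=
      mul_le_mul_of_nonneg_right h3 (by positivity)
    have h5 : 8 * n ≤ c / 4 * n ^ (1 + 1 / (k : ℝ)) := by
      rw [hrp]
      rw [div_le_iff₀ hc] at hsm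
      nlinarith
    have h6 := ar_nonneg G (univ \ L) (univ \ L)
    rw [ar_univ] at hsp
    have hL : c * n ^ (1 + 1 / (k : ℝ)) ≤ ar G L L := by linarith
    refine ⟨L, hne _ hL, hL, fun x hx => ?_⟩
    rw [hLd, mem_filter] at hx
    exact not_lt.1 hx.2

/-- **Linear-size optimal induced subgraphs.** -/
theorem exists_optimal {k : ℕ} (hk : 1 ≤ k) {c a : ℝ} (hc : 0 < c) (ha1 : 1 < a)
    (ha2 : a < 1 + 1 / (k : ℝ)) :
    ∃ ε : ℝ, 0 < ε ∧ ∃ K : ℝ, 0 < K ∧ ∀ (V : Type) [Fintype V] [DecidableEq V] (G : SimpleGraph V)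
      [DecidableRel G.Adj], (∀ (v : V) (p : G.Walk v v), p.IsCycle → 2 * k < p.length) →
      1 ≤ Fintype.card V →
      c * (Fintype.card V : ℝ) ^ (1 + 1 / (k : ℝ)) ≤ (G.edgeFinset.card : ℝ) →
      ∃ (m : ℕ) (φ : Fin m ↪ V), 0 < m ∧ ε * Fintype.card V ≤ m ∧
        Opt (G.comap φ) a univ ∧
        c * (m : ℝ) ^ (1 + 1 / (k : ℝ)) ≤ ar (G.comap φ) univ univ ∧
        ∀ i, (G.degree (φ i) : ℝ) ≤ K * (m : ℝ) ^ (1 / (k : ℝ)) := by
  have hkpos : (0 : ℝ) < k := by exact_mod_cast hk
  set s : ℝ := 1 + 1 / (k : ℝ) - a with hs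
  have hs0 : 0 < s := by rw [hs]; linarith
  set K0 : ℝ := max (256 / c) ((32 / c) ^ k) with hK0
  have hK0pos : 0 < K0 := lt_of_lt_of_le (by positivity) (le_max_left _ _)
  set ε : ℝ := (c / 24) ^ (1 / s) with hε
  have hε0 : 0 < ε := by positivity
  refine ⟨ε, hε0, K0 * ε⁻¹ ^ (1 / (k : ℝ)), by positivity, ?_⟩
  intro V _ _ G _ hg hn1 he
  obtain ⟨L, hLne, hL, hLdeg⟩ := low_degree G hk hg hc hn1 he
  obtain ⟨U, hUL, hUne, hopt, hmax⟩ := exists_opt G L hLne a
  set n : ℝ := (Fintype.card V : ℝ) with hn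
  have hn1' : (1 : ℝ) ≤ n := by rw [hn]; exact_mod_cast hn1
  have hn0 : 0 < n := by linarith
  set m : ℕ := U.card with hm
  have hm0 : 0 < m := card_pos.2 hUne
  have hm0' : (0 : ℝ) < m := by exact_mod_cast hm0
  have hmn : (m : ℝ) ≤ n := by
    rw [hn]
    exact_mod_cast card_le_univ U
  have hLn : (L.card : ℝ) ≤ n := by
    rw [hn]
    exact_mod_cast card_le_univ L
  have hL0 : (0 : ℝ) < L.card := by exact_mod_cast card_pos.2 hLne
  -- the number of edges of `U`
  have hU1 : c * n ^ s * (m : ℝ) ^ a ≤ ar G U U := by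
    have h1 : c * n ^ s ≤ ar G L L / (L.card : ℝ) ^ a := by
      rw [le_div_iff₀ (Real.rpow_pos_of_pos hL0 _)]
      calc c * n ^ s * (L.card : ℝ) ^ a ≤ c * n ^ s * n ^ a := by
            apply mul_le_mul_of_nonneg_left _ (by positivity)
            exact Real.rpow_le_rpow hL0.le hLn (by linarith)
        _ = c * n ^ (1 + 1 / (k : ℝ)) := by
            rw [mul_assoc, ← Real.rpow_add hn0, hs]
            ring_nf
        _ ≤ _ := hL
    have h2 := h1.trans hmax
    rw [le_div_iff₀ (Real.rpow_pos_of_pos hm0' _)] at h2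
    exact h2
  set e := U.equivFin with heq
  let φ : Fin m ↪ V := ⟨fun i => (e.symm i : V), fun i j h => by
    have h1 : e.symm i = e.symm j := Subtype.ext h
    exact e.symm.injective h1⟩
  have hφU : ∀ i, φ i ∈ U := fun i => (e.symm i).2
  have hφuniv : (univ : Finset (Fin m)).map φ = U := by
    ext x
    rw [mem_map]
    constructor
    · rintro ⟨i, -, rfl⟩
      exact hφU i
    · intro hx
      refine ⟨e ⟨x, hx⟩, mem_univ _, ?_⟩
      show ((e.symm (e ⟨x, hx⟩) : U) : V) = x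
      rw [Equiv.symm_apply_apply]
  have hgH := cycle_comap (G := G) φ hg
  have hmoore := moore (G.comap φ) hk hgH
  rw [Fintype.card_fin] at hmoore
  have harU : ar (G.comap φ) univ univ = ar G U U := by
    rw [ar_comap, hφuniv]
  have hsize : ε * n ≤ m := by
    rw [harU] at hmoore
    have h1 : c * n ^ s * (m : ℝ) ^ a ≤ 24 * (m : ℝ) ^ s * (m : ℝ) ^ a := by
      calc c * n ^ s * (m : ℝ) ^ a ≤ 24 * (m : ℝ) ^ (1 + 1 / (k : ℝ)) := hU1.trans hmoore
        _ = 24 * (m : ℝ) ^ s * (m : ℝ) ^ a := by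
            rw [mul_assoc, ← Real.rpow_add hm0', hs]
            ring_nf
    have h2 : c * n ^ s ≤ 24 * (m : ℝ) ^ s :=
      le_of_mul_le_mul_right h1 (Real.rpow_pos_of_pos hm0' _)
    have h3 : (ε * n) ^ s ≤ (m : ℝ) ^ s := by
      rw [Real.mul_rpow hε0.le hn0.le, hε, ← Real.rpow_mul (by positivity)]
      have : 1 / s * s = 1 := by field_simp
      rw [this, Real.rpow_one]
      linarith
    exact (Real.rpow_le_rpow_iff (by positivity) hm0'.le hs0).1 h3
  refine ⟨m, φ, hm0, hsize, ?_, ?_, ?_⟩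
  · intro X hX
    rw [harU, ar_comap, card_univ, Fintype.card_fin]
    have h1 := hopt (X.map φ) (by
      intro x hx
      rw [mem_map] at hx
      obtain ⟨i, -, rfl⟩ := hx
      exact hφU i)
    rwa [card_map] at h1
  · rw [harU]
    refine le_trans ?_ hU1
    calc c * (m : ℝ) ^ (1 + 1 / (k : ℝ)) = c * (m : ℝ) ^ s * (m : ℝ) ^ a := by
          rw [mul_assoc, ← Real.rpow_add hm0', hs]
          ring_nf
      _ ≤ _ := by
          apply mul_le_mul_of_nonneg_right _ (by positivity)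
          apply mul_le_mul_of_nonneg_left _ hc.le
          exact Real.rpow_le_rpow hm0'.le hmn hs0.le
  · intro i
    refine (hLdeg _ (hUL (hφU i))).trans ?_
    rw [mul_assoc]
    apply mul_le_mul_of_nonneg_left _ hK0pos.le
    rw [← Real.mul_rpow (by positivity) hm0'.le]
    apply Real.rpow_le_rpow hn0.le _ (by positivity)
    rw [inv_mul_eq_div, le_div_iff₀ hε0]
    linarith

end Pool.Agent.J4.H75.GE
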