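import Pool.Agent.J4.H75.GE.Spec
import Pool.Agent.J4.H75.GE.Struct

/-!
# Regular partitions at the scale of the Moore bound
-/

set_option autoImplicit false
set_option linter.unusedSectionVars false
set_option maxHeartbeats 1000000

open Finset Matrix

namespace Pool.Agent.J4.H75.GE

open Pool.TH815.GR

/-- Rounding finitely many bounded functions. -/
theorem rounding {V : Type} (I : Finset V) (g : V → V → ℝ) (σ : V → ℝ) {b δ : ℝ} (hb : 0 < b)
    (hδ : 0 < δ) (N : ℕ) (hN : 1 / δ ≤ N) (hg : ∀ i ∈ I, ∀ x, |g i x| ≤ b)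
    (hσ : ∀ i, |σ i| ≤ 1) :
    ∃ f : V → (I → Fin (2 * N + 1)), ∀ x x' y y', f x = f x' → f y = f y' →
      |∑ i ∈ I, σ i * (g i x * g i y) - ∑ i ∈ I, σ i * (g i x' * g i y')| ≤
        I.card * (2 * δ * b ^ 2) := by
  have hfl : ∀ i ∈ I, ∀ x, -(N : ℤ) ≤ ⌊g i x / (δ * b)⌋ ∧ ⌊g i x / (δ * b)⌋ ≤ N := by
    intro i hi x
    have h1 := abs_le.1 (hg i hi x)
    have h2 : 1 ≤ N * δ := by rwa [div_le_iff₀ hδ] at hN
    constructor
    · rw [Int.le_floor]
      push_cast
      rw [le_div_iff₀ (by positivity)]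
      nlinarith
    · rw [Int.floor_le_iff]
      push_cast
      rw [div_lt_iff₀ (by positivity)]
      nlinarith
  refine ⟨fun x i => ⟨(⌊g i x / (δ * b)⌋ + N).toNat, ?_⟩, ?_⟩
  · have := hfl i i.2 x
    omega
  · intro x x' y y' hx hy
    have key : ∀ x x' : V, (fun i : I => (⟨(⌊g i x / (δ * b)⌋ + N).toNat, by
        have := hfl i i.2 x; omega⟩ : Fin (2 * N + 1))) =
        (fun i : I => (⟨(⌊g i x' / (δ * b)⌋ + N).toNat, by
        have := hfl i i.2 x'; omega⟩ : Fin (2 * N + 1))) → ∀ i ∈ I, |g i x - g i x'| ≤ δ * b := by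
      intro x x' h i hi
      have h1 := congrFun h ⟨i, hi⟩
      simp only [Fin.mk.injEq] at h1
      have h2 := hfl i hi x
      have h3 := hfl i hi x'
      have h4 : ⌊g i x / (δ * b)⌋ = ⌊g i x' / (δ * b)⌋ := by omega
      have h5 := Int.abs_sub_lt_one_of_floor_eq_floor h4
      rw [← sub_div, abs_div, abs_of_pos (by positivity : 0 < δ * b),
        div_lt_one (by positivity)] at h5
      exact h5.le
    have kx := key x x' hx
    have ky := key y y' hy
    rw [← sum_sub_distrib]
    calc |∑ i ∈ I, (σ i * (g i x * g i y) - σ i * (g i x' * g i y'))|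
        ≤ ∑ i ∈ I, |σ i * (g i x * g i y) - σ i * (g i x' * g i y')| := abs_sum_le_sum_abs _ _
      _ ≤ ∑ i ∈ I, 2 * δ * b ^ 2 := by
          refine sum_le_sum fun i hi => ?_
          have e1 : σ i * (g i x * g i y) - σ i * (g i x' * g i y') =
              σ i * ((g i x - g i x') * g i y + g i x' * (g i y - g i y')) := by ring
          rw [e1, abs_mul]
          have e2 : |(g i x - g i x') * g i y + g i x' * (g i y - g i y')| ≤ 2 * δ * b ^ 2 := by
            refine (abs_add_le _ _).trans ?_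
            rw [abs_mul, abs_mul]
            have h1 : |g i x - g i x'| * |g i y| ≤ δ * b * b :=
              mul_le_mul (kx i hi) (hg i hi y) (abs_nonneg _) (by positivity)
            have h2 : |g i x'| * |g i y - g i y'| ≤ b * (δ * b) :=
              mul_le_mul (hg i hi x') (ky i hi) (abs_nonneg _) hb.le
            nlinarith
          calc |σ i| * |(g i x - g i x') * g i y + g i x' * (g i y - g i y')|
              ≤ 1 * (2 * δ * b ^ 2) := mul_le_mul (hσ i) e2 (abs_nonneg _) zero_le_one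
            _ = _ := one_mul _
      _ = I.card * (2 * δ * b ^ 2) := by rw [sum_const, nsmul_eq_mul]

variable {V : Type} [Fintype V] [DecidableEq V]

/-- The classes of a partition. -/
def cl {C : Type} [DecidableEq C] (f : V → C) (a : C) : Finset V := univ.filter fun u => f u = a

/-- Averages over the classes. -/
noncomputable def avg {C : Type} [DecidableEq C] (f : V → C) (M : V → V → ℝ) (a b : C) : ℝ :=
  (∑ u ∈ cl f a, ∑ v ∈ cl f b, M u v) / ((cl f a).card * (cl f b).card)

/-- The proportion of the class of `u` in `X`. -/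
noncomputable def pr {C : Type} [DecidableEq C] (f : V → C) (X : Finset V) (u : V) : ℝ :=
  ((X ∩ cl f (f u)).card : ℝ) / (cl f (f u)).card

theorem pr_nonneg {C : Type} [DecidableEq C] (f : V → C) (X : Finset V) (u : V) :
    0 ≤ pr f X u := by
  unfold pr
  positivity

theorem pr_le_one {C : Type} [DecidableEq C] (f : V → C) (X : Finset V) (u : V) :
    pr f X u ≤ 1 := by
  unfold pr
  apply div_le_one_of_le₀ _ (by positivity)
  exact_mod_cast card_le_card inter_subset_right

theorem sum_avg {C : Type} [DecidableEq C] (f : V → C) (M : V → V → ℝ) (X Y : Finset V) :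
    ∑ x ∈ X, ∑ y ∈ Y, avg f M (f x) (f y) = ∑ u, ∑ v, pr f X u * pr f Y v * M u v := by
  have e1 : ∀ x y : V, avg f M (f x) (f y) = ∑ u, ∑ v,
      (if f u = f x ∧ f v = f y then M u v / ((cl f (f u)).card * (cl f (f v)).card) else 0) := by
    intro x y
    unfold avg
    rw [sum_div]
    unfold cl
    rw [sum_filter]
    refine sum_congr rfl fun u _ => ?_
    by_cases hu : f u = f x
    · rw [if_pos hu, sum_div, sum_filter]
      refine sum_congr rfl fun v _ => ?_
      by_cases hv : f v = f y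
      · rw [if_pos hv, if_pos ⟨hu, hv⟩, hu, hv]
      · rw [if_neg hv, if_neg (fun h => hv h.2)]
    · rw [if_neg hu]
      symm
      apply sum_eq_zero
      intro v _
      rw [if_neg (fun h => hu h.1)]
  simp_rw [e1]
  have e2 : ∀ x ∈ X, ∑ y ∈ Y, ∑ u, ∑ v,
      (if f u = f x ∧ f v = f y then M u v / ((cl f (f u)).card * (cl f (f v)).card) else 0) =
      ∑ u, ∑ v, ∑ y ∈ Y,
      (if f u = f x ∧ f v = f y then M u v / ((cl f (f u)).card * (cl f (f v)).card) else 0) := by
    intro x _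
    rw [sum_comm]
    refine sum_congr rfl fun u _ => ?_
    rw [sum_comm]
  rw [sum_congr rfl e2, sum_comm]
  refine sum_congr rfl fun u _ => ?_
  rw [sum_comm]
  refine sum_congr rfl fun v _ => ?_
  have e3 : ∀ x ∈ X, ∑ y ∈ Y,
      (if f u = f x ∧ f v = f y then M u v / ((cl f (f u)).card * (cl f (f v)).card) else 0) =
      (if f u = f x then ((Y ∩ cl f (f v)).card : ℝ) *
        (M u v / ((cl f (f u)).card * (cl f (f v)).card)) else 0) := by
    intro x _
    by_cases hx : f u = f x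
    · rw [if_pos hx]
      have e4 : ∀ y ∈ Y, (if f u = f x ∧ f v = f y then
          M u v / ((cl f (f u)).card * (cl f (f v)).card) else 0) =
          (if y ∈ cl f (f v) then M u v / ((cl f (f u)).card * (cl f (f v)).card) else 0) := by
        intro y _
        by_cases hy : f v = f y
        · rw [if_pos ⟨hx, hy⟩, if_pos (by simp [cl, hy])]
        · rw [if_neg (fun h => hy h.2), if_neg (by simp [cl, Ne.symm hy])]
      rw [sum_congr rfl e4, ← sum_filter, sum_const, nsmul_eq_mul, filter_mem_eq_inter]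
    · rw [if_neg hx]
      apply sum_eq_zero
      intro y _
      rw [if_neg (fun h => hx h.1)]
  rw [sum_congr rfl e3]
  have e5 : ∀ x ∈ X, (if f u = f x then ((Y ∩ cl f (f v)).card : ℝ) *
      (M u v / ((cl f (f u)).card * (cl f (f v)).card)) else 0) =
      (if x ∈ cl f (f u) then ((Y ∩ cl f (f v)).card : ℝ) *
      (M u v / ((cl f (f u)).card * (cl f (f v)).card)) else 0) := by
    intro x _
    by_cases hx : f u = f x
    · rw [if_pos hx, if_pos (by simp [cl, hx])]
    · rw [if_neg hx, if_neg (by simp [cl, Ne.symm hx])]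
  rw [sum_congr rfl e5, ← sum_filter, sum_const, nsmul_eq_mul, filter_mem_eq_inter]
  unfold pr
  ring

theorem abs_sub_avg_le {C : Type} [DecidableEq C] (f : V → C) (M : V → V → ℝ) {η : ℝ}
    (h : ∀ x x' y y', f x = f x' → f y = f y' → |M x y - M x' y'| ≤ η) (x y : V) :
    |M x y - avg f M (f x) (f y)| ≤ η := by
  have hx : (0 : ℝ) < (cl f (f x)).card := by
    have : (cl f (f x)).Nonempty := ⟨x, by simp [cl]⟩
    exact_mod_cast card_pos.2 this
  have hy : (0 : ℝ) < (cl f (f y)).card := by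
    have : (cl f (f y)).Nonempty := ⟨y, by simp [cl]⟩
    exact_mod_cast card_pos.2 this
  have e1 : M x y - avg f M (f x) (f y) =
      (∑ u ∈ cl f (f x), ∑ v ∈ cl f (f y), (M x y - M u v)) /
        ((cl f (f x)).card * (cl f (f y)).card) := by
    unfold avg
    simp only [sum_sub_distrib, sum_const, nsmul_eq_mul]
    field_simp
  rw [e1, abs_div, abs_of_pos (mul_pos hx hy), div_le_iff₀ (mul_pos hx hy)]
  calc |∑ u ∈ cl f (f x), ∑ v ∈ cl f (f y), (M x y - M u v)|
      ≤ ∑ u ∈ cl f (f x), |∑ v ∈ cl f (f y), (M x y - M u v)| := abs_sum_le_sum_abs _ _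
    _ ≤ ∑ u ∈ cl f (f x), ∑ v ∈ cl f (f y), |M x y - M u v| :=
        sum_le_sum fun u _ => abs_sum_le_sum_abs _ _
    _ ≤ ∑ u ∈ cl f (f x), ∑ v ∈ cl f (f y), η := by
        refine sum_le_sum fun u hu => sum_le_sum fun v hv => h _ _ _ _ ?_ ?_
        · simpa [cl, eq_comm] using hu
        · simpa [cl, eq_comm] using hv
    _ = η * ((cl f (f x)).card * (cl f (f y)).card) := by
        simp only [sum_const, nsmul_eq_mul]
        ring

/-- The bilinear form of a matrix of small norm. -/
theorem bilinear_le {R : V → V → ℝ} {τ : ℝ} (hτ : 0 ≤ τ)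
    (hR : ∀ v : V → ℝ, ∑ x, (∑ y, R x y * v y) ^ 2 ≤ τ ^ 2 * ∑ x, v x ^ 2)
    (α β : V → ℝ) (hα : ∀ x, |α x| ≤ 1) (hβ : ∀ x, |β x| ≤ 1) :
    |∑ x, ∑ y, α x * β y * R x y| ≤ τ * Fintype.card V := by
  have h1 : ∀ γ : V → ℝ, (∀ x, |γ x| ≤ 1) → ∑ x, γ x ^ 2 ≤ Fintype.card V := by
    intro γ hγ
    calc ∑ x, γ x ^ 2 ≤ ∑ x : V, (1 : ℝ) := by
          refine sum_le_sum fun x _ => ?_
          rw [← sq_abs]
          exact pow_le_one₀ (abs_nonneg _) (hγ x)
      _ = _ := by simp
  have e1 : ∑ x, ∑ y, α x * β y * R x y = ∑ x, α x * ∑ y, R x y * β y := by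
    refine sum_congr rfl fun x _ => ?_
    rw [mul_sum]
    refine sum_congr rfl fun y _ => ?_
    ring
  have e2 : (∑ x, α x * ∑ y, R x y * β y) ^ 2 ≤ (τ * Fintype.card V) ^ 2 := by
    calc (∑ x, α x * ∑ y, R x y * β y) ^ 2
        ≤ (∑ x, α x ^ 2) * ∑ x, (∑ y, R x y * β y) ^ 2 := sum_mul_sq_le_sq_mul_sq _ _ _
      _ ≤ Fintype.card V * (τ ^ 2 * Fintype.card V) := by
          apply mul_le_mul (h1 α hα) _ (sum_nonneg fun _ _ => sq_nonneg _) (Nat.cast_nonneg _)
          exact (hR β).trans (mul_le_mul_of_nonneg_left (h1 β hβ) (sq_nonneg _))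
      _ = _ := by ring
  rw [e1]
  exact abs_le_of_sq_le_sq e2 (by positivity)

/-- The indicator of a set. -/
theorem sum_indicator (M : V → V → ℝ) (X Y : Finset V) :
    ∑ x ∈ X, ∑ y ∈ Y, M x y =
      ∑ x, ∑ y, (if x ∈ X then (1 : ℝ) else 0) * (if y ∈ Y then 1 else 0) * M x y := by
  rw [← sum_subset (subset_univ X)]
  · refine sum_congr rfl fun x hx => ?_
    rw [← sum_subset (subset_univ Y)]
    · refine sum_congr rfl fun y hy => ?_
      simp [hx, hy]
    · intro y _ hy
      simp [hy]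
  · intro x _ hx
    simp [hx]

theorem mul_mul_le {a b n η : ℝ} (h1 : a ≤ n) (h2 : b ≤ n) (ha : 0 ≤ a) (hb : 0 ≤ b)
    (hη : 0 ≤ η) : a * b * η ≤ n * n * η :=
  mul_le_mul_of_nonneg_right (mul_le_mul h1 h2 hb (ha.trans h1)) hη

theorem mul_mul_div_eq {n τ : ℝ} (hn : 0 < n) : n * n * (τ / n) = τ * n := by
  field_simp

/-- **Regular partitions.** -/
theorem regularity {k : ℕ} (hk : 1 ≤ k) {ε : ℝ} (hε : 0 < ε) : ∃ M : ℕ, ∀ (V : Type) [Fintype V]
    [DecidableEq V] (G : SimpleGraph V) [DecidableRel G.Adj],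
    (∀ (v : V) (p : G.Walk v v), p.IsCycle → 2 * k < p.length) →
    ∃ f : V → Fin M, ∀ X Y : Finset V,
      |ar G X Y - ∑ x ∈ X, ∑ y ∈ Y,
        avg f (fun u v => if G.Adj u v then (1 : ℝ) else 0) (f x) (f y)| ≤
        ε * (Fintype.card V : ℝ) ^ (1 + 1 / (k : ℝ)) := by
  have hkpos : (0 : ℝ) < k := by exact_mod_cast hk
  set K : ℝ := 512 / ε with hK
  have hK0 : 0 < K := by positivity
  set ε1 : ℝ := ε / 8 with hε1
  have hε10 : 0 < ε1 := by positivity
  set r : ℝ := (4 * K) ^ k / ε1 ^ (2 * k) with hr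
  have hr0 : 0 < r := by positivity
  set δ : ℝ := 1 / (2 * r ^ 2) with hδ
  have hδ0 : 0 < δ := by positivity
  set N : ℕ := ⌈2 * r ^ 2⌉₊ with hN
  have hNδ : 1 / δ ≤ N := by
    rw [hδ, one_div_one_div]
    exact Nat.le_ceil _
  set M1 : ℕ := (2 * N + 1) ^ ⌈r⌉₊ with hM1
  set M2 : ℕ := ⌈(64 / ε) ^ k⌉₊ with hM2
  refine ⟨M1 + M2, ?_⟩
  intro V _ _ G _ hg
  set n : ℝ := (Fintype.card V : ℝ) with hn
  have hn0 : 0 ≤ n := Nat.cast_nonneg _
  by_cases hsmall : n ^ (1 / (k : ℝ)) < 64 / ε
  · -- few vertices: singletons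
    have hcard : Fintype.card V ≤ M2 := by
      have h1 : n ≤ (64 / ε) ^ k := by
        have : n = (n ^ (1 / (k : ℝ))) ^ k := by
          rw [← Real.rpow_natCast, ← Real.rpow_mul hn0]
          have : (1 / (k : ℝ)) * (k : ℝ) = 1 := by field_simp
          rw [this, Real.rpow_one]
        rw [this]
        exact pow_le_pow_left₀ (by positivity) hsmall.le _
      have h2 : n ≤ M2 := h1.trans (Nat.le_ceil _)
      rw [hn] at h2
      exact_mod_cast h2
    obtain ⟨e⟩ := Function.Embedding.nonempty_of_card_le (α := V) (β := Fin (M1 + M2))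
      (by rw [Fintype.card_fin]; omega)
    refine ⟨e, fun X Y => ?_⟩
    have h1 : ∀ x y, avg e (fun u v => if G.Adj u v then (1 : ℝ) else 0) (e x) (e y) =
        if G.Adj x y then (1 : ℝ) else 0 := by
      intro x y
      have hcl : ∀ x, cl e (e x) = {x} := by
        intro x
        ext u
        simp [cl]
      simp only [avg, hcl, sum_singleton, card_singleton]
      norm_num
    simp only [h1]
    rw [ar, sub_self, abs_zero]
    positivity
  push Not at hsmall
  have hnpos : 0 < n := by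
    rcases hn0.eq_or_lt with h | h
    · rw [← h, Real.zero_rpow (by positivity)] at hsmall
      have : 0 < 64 / ε := by positivity
      linarith
    · exact h
  set R0 : ℝ := n ^ (1 / (k : ℝ)) with hR0
  have hR0pos : 0 < R0 := lt_of_lt_of_le (by positivity) hsmall
  have hrp : n ^ (1 + 1 / (k : ℝ)) = n * R0 := by
    rw [Real.rpow_add hnpos, Real.rpow_one]
  have hroot : R0 ^ k = n := by
    rw [hR0, ← Real.rpow_natCast, ← Real.rpow_mul hn0]
    have : (1 / (k : ℝ)) * (k : ℝ) = 1 := by field_simp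
    rw [this, Real.rpow_one]
  -- the vertices of small degree
  set L : Finset V := univ.filter (fun x => ¬ K * R0 < (G.degree x : ℝ)) with hL
  let G' : SimpleGraph V :=
    { Adj := fun x y => G.Adj x y ∧ x ∈ L ∧ y ∈ L
      symm := ⟨fun x y h => ⟨h.1.symm, h.2.2, h.2.1⟩⟩
      loopless := ⟨fun x h => G.irrefl h.1⟩ }
  have : DecidableRel G'.Adj := fun x y => inferInstanceAs (Decidable (G.Adj x y ∧ x ∈ L ∧ y ∈ L))
  have hG' : G' ≤ G := fun x y h => h.1
  have hg' := no_cycle_mono hG' hg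
  have hdeg : ∀ x, (G'.degree x : ℝ) ≤ K * R0 := by
    intro x
    by_cases hx : x ∈ L
    · have h1 : (G'.degree x : ℝ) ≤ G.degree x := by
        exact_mod_cast SimpleGraph.degree_le_of_le hG'
      refine h1.trans ?_
      rw [hL, mem_filter] at hx
      exact not_lt.1 hx.2
    · have h1 : G'.degree x = 0 := by
        rw [← G'.card_neighborFinset_eq_degree, card_eq_zero, eq_empty_iff_forall_notMem]
        intro y hy
        rw [SimpleGraph.mem_neighborFinset] at hy
        exact hx hy.2.1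
      rw [h1]
      simp only [Nat.cast_zero]
      positivity
  set τ : ℝ := ε1 * R0 with hτ
  have hτ0 : 0 < τ := by positivity
  obtain ⟨I, g, σ, S, hI, hσ, hgI, hS, -, -, -, hnorm⟩ :=
    decomposition G' hk hg' (Δ := K * R0) (by positivity) hdeg hτ0
  rw [← hn] at hI
  have hτ2k : τ ^ (2 * k) = ε1 ^ (2 * k) * n ^ 2 := by
    rw [hτ, mul_pow, mul_comm 2 k, pow_mul R0, hroot]
  have hΔk : (4 * (K * R0)) ^ k = (4 * K) ^ k * n := by
    rw [← mul_assoc, mul_pow, hroot]
  have hIr : (I.card : ℝ) ≤ r := by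
    rw [hτ2k, hΔk] at hI
    rw [hr, le_div_iff₀ (by positivity)]
    have h1 : (I.card * ε1 ^ (2 * k)) * n ^ 2 ≤ (4 * K) ^ k * n ^ 2 := by nlinarith
    exact le_of_mul_le_mul_right h1 (by positivity)
  have hβ : (4 * (K * R0)) ^ k / τ ^ (2 * k - 1) = r * τ / n := by
    have h1 : τ ^ (2 * k) = τ ^ (2 * k - 1) * τ := by
      rw [← pow_succ]
      congr 1
      omega
    rw [div_eq_div_iff (by positivity) (by positivity), hΔk, hr]
    have h2 : τ ^ (2 * k - 1) * τ = ε1 ^ (2 * k) * n ^ 2 := by rw [← h1, hτ2k]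
    calc (4 * K) ^ k * n * n = (4 * K) ^ k / ε1 ^ (2 * k) * (ε1 ^ (2 * k) * n ^ 2) := by
          field_simp
      _ = (4 * K) ^ k / ε1 ^ (2 * k) * (τ ^ (2 * k - 1) * τ) := by rw [h2]
      _ = _ := by ring
  set b : ℝ := √(r * τ / n) with hb
  have hb0 : 0 < b := Real.sqrt_pos.2 (by positivity)
  have hb2 : b ^ 2 = r * τ / n := Real.sq_sqrt (by positivity)
  obtain ⟨f0, hf0⟩ := rounding I g σ hb0 hδ0 N hNδ (by
    intro i hi x
    have h1 := hgI i hi x
    rw [hβ, ← hb2] at h1
    exact abs_le_of_sq_le_sq h1 hb0.le) hσ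
  have hcardf : Fintype.card (I → Fin (2 * N + 1)) ≤ Fintype.card (Fin (M1 + M2)) := by
    rw [Fintype.card_fun, Fintype.card_fin, Fintype.card_fin, Fintype.card_coe]
    have h1 : I.card ≤ ⌈r⌉₊ := by
      have : (I.card : ℝ) ≤ ⌈r⌉₊ := hIr.trans (Nat.le_ceil _)
      exact_mod_cast this
    have h2 : (2 * N + 1) ^ I.card ≤ M1 := Nat.pow_le_pow_right (by omega) h1
    omega
  obtain ⟨e⟩ := Function.Embedding.nonempty_of_card_le hcardf
  set f : V → Fin (M1 + M2) := fun x => e (f0 x) with hf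
  set η : ℝ := τ / n with hη
  have hSη : ∀ x x' y y', f x = f x' → f y = f y' → |S x y - S x' y'| ≤ η := by
    intro x x' y y' hx hy
    rw [hS, hS]
    refine (hf0 x x' y y' (e.injective hx) (e.injective hy)).trans ?_
    rw [hb2]
    calc (I.card : ℝ) * (2 * δ * (r * τ / n)) ≤ r * (2 * δ * (r * τ / n)) :=
          mul_le_mul_of_nonneg_right hIr (by positivity)
      _ = η := by
          rw [hδ, hη]
          field_simp
  refine ⟨f, fun X Y => ?_⟩
  set A : V → V → ℝ := fun u v => if G.Adj u v then (1 : ℝ) else 0 with hA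
  set A' : V → V → ℝ := fun u v => if G'.Adj u v then (1 : ℝ) else 0 with hA'
  set R : V → V → ℝ := fun u v => A' u v - S u v with hR
  set E : V → V → ℝ := fun u v => A u v - A' u v with hE
  have hRn : ∀ v : V → ℝ, ∑ x, (∑ y, R x y * v y) ^ 2 ≤ τ ^ 2 * ∑ x, v x ^ 2 := by
    intro v
    refine le_trans (le_of_eq ?_) (hnorm v)
    refine sum_congr rfl fun x _ => ?_
    congr 1
  have hE0 : ∀ u v, 0 ≤ E u v := by
    intro u v
    simp only [hE, hA, hA', sub_nonneg]
    by_cases h : G'.Adj u v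
    · rw [if_pos h, if_pos (hG' h)]
    · rw [if_neg h]
      split_ifs <;> norm_num
  -- the total mass of `E`
  have hEsum : ∑ u, ∑ v, E u v ≤ ε / 2 * (n * R0) := by
    have h1 : ∀ u v, E u v ≤ (if u ∉ L then A u v else 0) + (if v ∉ L then A v u else 0) := by
      intro u v
      have hA0 : ∀ a b, 0 ≤ A a b := by
        intro a b
        simp only [hA]
        split_ifs <;> norm_num
      have hAs : A v u = A u v := by
        simp only [hA, G.adj_comm]
      by_cases h : G'.Adj u v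
      · have : E u v = 0 := by
          simp only [hE, hA, hA']
          rw [if_pos h, if_pos (hG' h), sub_self]
        rw [this]
        have := hA0 u v
        have := hA0 v u
        split_ifs <;> positivity
      · have hEA : E u v = A u v := by
          simp only [hE, hA']
          rw [if_neg h, sub_zero]
        rw [hEA]
        by_cases hadj : G.Adj u v
        · have h3 : u ∉ L ∨ v ∉ L := by
            by_contra hcon
            push Not at hcon
            exact h ⟨hadj, hcon.1, hcon.2⟩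
          have h4 := hA0 u v
          rcases h3 with h3 | h3
          · rw [if_pos h3]
            have : 0 ≤ (if v ∉ L then A v u else 0) := by
              rw [hAs]
              split_ifs <;> linarith
            linarith
          · rw [if_pos h3, hAs]
            have : 0 ≤ (if u ∉ L then A u v else 0) := by
              split_ifs <;> linarith
            linarith
        · have : A u v = 0 := by
            simp only [hA]
            rw [if_neg hadj]
          rw [this, hAs, this]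
          simp
    have h2 : ∑ u, ∑ v, (if u ∉ L then A u v else 0) ≤ ε / 4 * (n * R0) := by
      have h3 : ∑ u, ∑ v, (if u ∉ L then A u v else 0) =
          ∑ x ∈ univ.filter (fun x => K * n ^ (1 / (k : ℝ)) < (G.degree x : ℝ)),
            (G.degree x : ℝ) := by
        rw [sum_filter]
        refine sum_congr rfl fun u _ => ?_
        have hu : u ∉ L ↔ K * n ^ (1 / (k : ℝ)) < (G.degree u : ℝ) := by
          rw [hL, mem_filter, hR0]
          simp only [mem_univ, true_and, not_not]
        by_cases h : u ∉ L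
        · rw [if_pos (hu.1 h)]
          simp only [if_pos h]
          simp only [hA]
          rw [sum_boole, ← G.card_neighborFinset_eq_degree]
          congr 2
          ext y
          simp
        · rw [if_neg (fun h' => h (hu.2 h'))]
          simp only [if_neg h]
          simp
      rw [h3]
      refine (tail G hk hg K hK0).trans ?_
      rw [← hn, hrp]
      have h4 : 64 / K = ε / 8 := by
        rw [hK]
        field_simp
        norm_num
      rw [h4]
      have h5 : 8 * n ≤ ε / 8 * (n * R0) := by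
        rw [div_le_iff₀ hε] at hsmall
        nlinarith
      linarith
    have h3 : ∑ u, ∑ v, (if v ∉ L then A v u else 0) ≤ ε / 4 * (n * R0) := by
      rw [sum_comm]
      exact h2
    calc ∑ u, ∑ v, E u v
        ≤ ∑ u, ∑ v, ((if u ∉ L then A u v else 0) + (if v ∉ L then A v u else 0)) :=
          sum_le_sum fun u _ => sum_le_sum fun v _ => h1 u v
      _ = ∑ u, ∑ v, (if u ∉ L then A u v else 0) + ∑ u, ∑ v, (if v ∉ L then A v u else 0) := by
          simp only [sum_add_distrib]
      _ ≤ _ := by linarith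
  have hEab : ∀ α β : V → ℝ, (∀ x, 0 ≤ α x) → (∀ x, α x ≤ 1) → (∀ x, 0 ≤ β x) →
      (∀ x, β x ≤ 1) → 0 ≤ ∑ u, ∑ v, α u * β v * E u v ∧
      ∑ u, ∑ v, α u * β v * E u v ≤ ε / 2 * (n * R0) := by
    intro α β hα0 hα1 hβ0 hβ1
    constructor
    · exact sum_nonneg fun u _ => sum_nonneg fun v _ =>
        mul_nonneg (mul_nonneg (hα0 u) (hβ0 v)) (hE0 u v)
    · refine le_trans (sum_le_sum fun u _ => sum_le_sum fun v _ => ?_) hEsum
      have : α u * β v ≤ 1 := mul_le_one₀ (hα1 u) (hβ0 v) (hβ1 v)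
      calc α u * β v * E u v ≤ 1 * E u v := mul_le_mul_of_nonneg_right this (hE0 u v)
        _ = E u v := one_mul _
  -- splitting
  have hsplit : ∀ α β : V → ℝ, ∑ u, ∑ v, α u * β v * A u v =
      ∑ u, ∑ v, α u * β v * S u v + ∑ u, ∑ v, α u * β v * R u v +
        ∑ u, ∑ v, α u * β v * E u v := by
    intro α β
    rw [← sum_add_distrib, ← sum_add_distrib]
    refine sum_congr rfl fun u _ => ?_
    rw [← sum_add_distrib, ← sum_add_distrib]
    refine sum_congr rfl fun v _ => ?_
    simp only [hR, hE]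
    ring
  have ind01 : ∀ (Z : Finset V) (x : V), (0 : ℝ) ≤ (if x ∈ Z then (1 : ℝ) else 0) ∧
      (if x ∈ Z then (1 : ℝ) else 0) ≤ 1 := by
    intro Z x
    split_ifs <;> norm_num
  have habs : ∀ {t : ℝ}, 0 ≤ t → t ≤ 1 → |t| ≤ 1 := fun h1 h2 => by
    rw [abs_of_nonneg h1]; exact h2
  have hS1 : |∑ x ∈ X, ∑ y ∈ Y, S x y - ∑ x ∈ X, ∑ y ∈ Y, avg f S (f x) (f y)| ≤ τ * n := by
    rw [← sum_sub_distrib]
    calc |∑ x ∈ X, (∑ y ∈ Y, S x y - ∑ y ∈ Y, avg f S (f x) (f y))|
        ≤ ∑ x ∈ X, |∑ y ∈ Y, S x y - ∑ y ∈ Y, avg f S (f x) (f y)| := abs_sum_le_sum_abs _ _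
      _ ≤ ∑ x ∈ X, ∑ y ∈ Y, |S x y - avg f S (f x) (f y)| := by
          refine sum_le_sum fun x _ => ?_
          rw [← sum_sub_distrib]
          exact abs_sum_le_sum_abs _ _
      _ ≤ ∑ x ∈ X, ∑ y ∈ Y, η :=
          sum_le_sum fun x _ => sum_le_sum fun y _ => abs_sub_avg_le f S hSη x y
      _ = X.card * Y.card * η := by
          simp only [sum_const, nsmul_eq_mul]
          ring
      _ ≤ n * n * η := by
          have h1 : (X.card : ℝ) ≤ n := Nat.cast_le.2 (card_le_univ X)
          have h2 : (Y.card : ℝ) ≤ n := Nat.cast_le.2 (card_le_univ Y)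
          exact mul_mul_le h1 h2 (Nat.cast_nonneg _) (Nat.cast_nonneg _)
            (div_nonneg hτ0.le hn0)
      _ = τ * n := mul_mul_div_eq hnpos
  have hR1 : |∑ u, ∑ v, (if u ∈ X then (1 : ℝ) else 0) * (if v ∈ Y then 1 else 0) * R u v| ≤
      τ * n := bilinear_le hτ0.le hRn _ _ (fun x => habs (ind01 X x).1 (ind01 X x).2)
        (fun x => habs (ind01 Y x).1 (ind01 Y x).2)
  have hR2 : |∑ u, ∑ v, pr f X u * pr f Y v * R u v| ≤ τ * n :=
    bilinear_le hτ0.le hRn _ _ (fun x => habs (pr_nonneg f X x) (pr_le_one f X x))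
      (fun x => habs (pr_nonneg f Y x) (pr_le_one f Y x))
  have hE1 := hEab (fun u => if u ∈ X then (1 : ℝ) else 0) (fun v => if v ∈ Y then (1 : ℝ) else 0)
    (fun x => (ind01 X x).1) (fun x => (ind01 X x).2) (fun x => (ind01 Y x).1)
    (fun x => (ind01 Y x).2)
  have hE2 := hEab (pr f X) (pr f Y) (pr_nonneg f X) (pr_le_one f X) (pr_nonneg f Y)
    (pr_le_one f Y)
  have hfin : ar G X Y - ∑ x ∈ X, ∑ y ∈ Y, avg f A (f x) (f y) =
      (∑ x ∈ X, ∑ y ∈ Y, S x y - ∑ x ∈ X, ∑ y ∈ Y, avg f S (f x) (f y)) +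
      (∑ u, ∑ v, (if u ∈ X then (1 : ℝ) else 0) * (if v ∈ Y then 1 else 0) * R u v -
        ∑ u, ∑ v, pr f X u * pr f Y v * R u v) +
      (∑ u, ∑ v, (if u ∈ X then (1 : ℝ) else 0) * (if v ∈ Y then 1 else 0) * E u v -
        ∑ u, ∑ v, pr f X u * pr f Y v * E u v) := by
    have h1 : ar G X Y = ∑ x ∈ X, ∑ y ∈ Y, A x y := rfl
    rw [h1, sum_indicator A X Y, sum_avg f A X Y, hsplit, hsplit, sum_indicator (fun a b => S a b),
      sum_avg f (fun a b => S a b) X Y]
    ring
  rw [hfin, hrp]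
  have h3τ : 3 * (τ * n) = 3 / 8 * (ε * (n * R0)) := by
    rw [hτ, hε1]
    ring
  rw [abs_le] at hS1 hR1 hR2 ⊢
  have hpos : 0 ≤ ε * (n * R0) := by positivity
  obtain ⟨a1, a2⟩ := hS1
  obtain ⟨b1, b2⟩ := hR1
  obtain ⟨c1, c2⟩ := hR2
  obtain ⟨d1, d2⟩ := hE1
  obtain ⟨e1, e2⟩ := hE2
  constructor <;> linarith

end Pool.Agent.J4.H75.GE
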