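import Pool.Agent.J4.H75.GE.Spec
import Pool.Agent.J4.H75.GE.Cheb

/-!
# Sharp walk counts in graphs of large girth, and the moments of the spectrum
-/

set_option autoImplicit false
set_option linter.unusedSectionVars false

open Finset Matrix

namespace Pool.Agent.J4.H75.GE

open Pool.Agent.H268R2.LB

variable {V : Type} [Fintype V] [DecidableEq V] (G : SimpleGraph V) [DecidableRel G.Adj]

theorem pow_nonneg' (m : ℕ) (a b : V) : 0 ≤ (G.adjMatrix ℝ ^ m) a b := by
  induction m generalizing a with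
  | zero =>
    rw [pow_zero, Matrix.one_apply]
    split_ifs <;> norm_num
  | succ m ih =>
    rw [pow_succ_apply]
    exact sum_nonneg fun z _ => ih z

/-- The number of walks of length `m` from `x` to a vertex `y` at the end of a nonbacktracking walk
of length `j`. -/
theorem walks_sharp {k : ℕ} (hg : ∀ (v : V) (p : G.Walk v v), p.IsCycle → 2 * k < p.length)
    {s t : ℝ} (hs : 0 < s) (ht : 0 < t) (hup : ∀ x, (G.degree x : ℝ) ≤ s ^ 2)
    (hlo : ∀ x, t ^ 2 + 1 ≤ (G.degree x : ℝ)) (x : V) :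
    ∀ m : ℕ, (∀ j b c y, NW G j x b c y → m + j ≤ 2 * k →
      t ^ m * (t⁻¹) ^ j * bal m j ≤ (G.adjMatrix ℝ ^ m) y x ∧
      (G.adjMatrix ℝ ^ m) y x ≤ s ^ m * (s⁻¹) ^ j * bal m j) ∧
      (m ≤ 2 * k → t ^ m * bal m 0 ≤ (G.adjMatrix ℝ ^ m) x x ∧
        (G.adjMatrix ℝ ^ m) x x ≤ s ^ m * bal m 0) := by
  intro m
  induction m with
  | zero =>
    refine ⟨?_, fun _ => by simp [bal]⟩
    intro j b c y h hj
    obtain ⟨i, rfl⟩ : ∃ i, j = i + 1 := ⟨j - 1, by have := h.pos; omega⟩
    by_cases hyx : y = x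
    · subst hyx
      exact (no_closed hg h (by omega)).elim
    · have e0 : (G.adjMatrix ℝ ^ 0) y x = 0 := by
        rw [pow_zero]
        exact Matrix.one_apply_ne hyx
      rw [e0]
      simp [bal]
  | succ m ih =>
    obtain ⟨ih1, ih2⟩ := ih
    constructor
    · intro j b c y h hj
      obtain ⟨i, rfl⟩ : ∃ i, j = i + 1 := ⟨j - 1, by have := h.pos; omega⟩
      have hadj : G.Adj y c := h.adj_last.symm
      have hc : c ∈ G.neighborFinset y := by simpa using hadj
      have hcard : (((G.neighborFinset y).erase c).card : ℝ) = G.degree y - 1 := by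
        rw [card_erase_of_mem hc, G.card_neighborFinset_eq_degree]
        have : 1 ≤ G.degree y := by
          rw [← G.card_neighborFinset_eq_degree]
          exact card_pos.2 ⟨c, hc⟩
        push_cast [Nat.cast_sub this]
        ring
      have h1 : t ^ m * (t⁻¹) ^ i * bal m i ≤ (G.adjMatrix ℝ ^ m) c x ∧
          (G.adjMatrix ℝ ^ m) c x ≤ s ^ m * (s⁻¹) ^ i * bal m i := by
        rcases NW.pred G h with ⟨h0, hca⟩ | ⟨c', hc'⟩
        · subst h0
          rw [hca]
          simpa using ih2 (by omega)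
        · exact ih1 i b c' c hc' (by omega)
      have h2 : ∀ z ∈ (G.neighborFinset y).erase c,
          t ^ m * (t⁻¹) ^ (i + 2) * bal m (i + 2) ≤ (G.adjMatrix ℝ ^ m) z x ∧
          (G.adjMatrix ℝ ^ m) z x ≤ s ^ m * (s⁻¹) ^ (i + 2) * bal m (i + 2) := by
        intro z hz
        rw [mem_erase] at hz
        have hz2 : G.Adj y z := by simpa using hz.2
        exact ih1 (i + 1 + 1) b y z (NW.step h hz2 (Ne.symm hz.1)) (by omega)
      rw [pow_succ_apply, ← add_sum_erase _ _ hc]
      have e : ∀ r : ℝ, 0 < r → r ^ (m + 1) * (r⁻¹) ^ (i + 1) * (bal (m + 1) (i + 1) : ℝ) =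
          r ^ m * (r⁻¹) ^ i * bal m i + r ^ 2 * (r ^ m * (r⁻¹) ^ (i + 2) * bal m (i + 2)) := by
        intro r hr
        rw [bal, pow_add (r⁻¹) i 2, pow_add (r⁻¹) i 1, pow_succ r m]
        push_cast
        field_simp
      constructor
      · rw [e t ht]
        refine add_le_add h1.1 ?_
        calc t ^ 2 * (t ^ m * (t⁻¹) ^ (i + 2) * bal m (i + 2))
            ≤ (((G.neighborFinset y).erase c).card : ℝ) *
              (t ^ m * (t⁻¹) ^ (i + 2) * bal m (i + 2)) := by
              apply mul_le_mul_of_nonneg_right _ (by positivity)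
              rw [hcard]
              linarith [hlo y]
          _ = ∑ z ∈ (G.neighborFinset y).erase c, t ^ m * (t⁻¹) ^ (i + 2) * bal m (i + 2) := by
              rw [sum_const, nsmul_eq_mul]
          _ ≤ _ := sum_le_sum fun z hz => (h2 z hz).1
      · rw [e s hs]
        refine add_le_add h1.2 ?_
        calc ∑ z ∈ (G.neighborFinset y).erase c, (G.adjMatrix ℝ ^ m) z x
            ≤ ∑ z ∈ (G.neighborFinset y).erase c, s ^ m * (s⁻¹) ^ (i + 2) * bal m (i + 2) :=
              sum_le_sum fun z hz => (h2 z hz).2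
          _ = (((G.neighborFinset y).erase c).card : ℝ) *
              (s ^ m * (s⁻¹) ^ (i + 2) * bal m (i + 2)) := by rw [sum_const, nsmul_eq_mul]
          _ ≤ _ := by
              apply mul_le_mul_of_nonneg_right _ (by positivity)
              rw [hcard]
              linarith [hup y]
    · intro hm
      rw [pow_succ_apply]
      have h2 : ∀ z ∈ G.neighborFinset x,
          t ^ m * (t⁻¹) ^ 1 * bal m 1 ≤ (G.adjMatrix ℝ ^ m) z x ∧
          (G.adjMatrix ℝ ^ m) z x ≤ s ^ m * (s⁻¹) ^ 1 * bal m 1 := by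
        intro z hz
        have hz2 : G.Adj x z := by simpa using hz
        exact ih1 1 z x z (NW.one hz2) (by omega)
      have e : ∀ r : ℝ, 0 < r → r ^ (m + 1) * (bal (m + 1) 0 : ℝ) =
          r ^ 2 * (r ^ m * (r⁻¹) ^ 1 * bal m 1) := by
        intro r hr
        rw [bal, pow_succ r m]
        field_simp
      constructor
      · rw [e t ht]
        calc t ^ 2 * (t ^ m * (t⁻¹) ^ 1 * bal m 1)
            ≤ (G.degree x : ℝ) * (t ^ m * (t⁻¹) ^ 1 * bal m 1) := by
              apply mul_le_mul_of_nonneg_right _ (by positivity)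
              linarith [hlo x]
          _ = ∑ z ∈ G.neighborFinset x, t ^ m * (t⁻¹) ^ 1 * bal m 1 := by
              rw [sum_const, nsmul_eq_mul, G.card_neighborFinset_eq_degree]
          _ ≤ _ := sum_le_sum fun z hz => (h2 z hz).1
      · rw [e s hs]
        calc ∑ z ∈ G.neighborFinset x, (G.adjMatrix ℝ ^ m) z x
            ≤ ∑ z ∈ G.neighborFinset x, s ^ m * (s⁻¹) ^ 1 * bal m 1 :=
              sum_le_sum fun z hz => (h2 z hz).2
          _ = (G.degree x : ℝ) * (s ^ m * (s⁻¹) ^ 1 * bal m 1) := by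
              rw [sum_const, nsmul_eq_mul, G.card_neighborFinset_eq_degree]
          _ ≤ _ := mul_le_mul_of_nonneg_right (hup x) (by positivity)

/-- The spectral decomposition with the eigenvalues of Mathlib. -/
theorem spectral' (hA : (G.adjMatrix ℝ).IsHermitian) : ∃ U : Matrix V V ℝ, Uᵀ * U = 1 ∧
    U * Uᵀ = 1 ∧ G.adjMatrix ℝ = U * diagonal hA.eigenvalues * Uᵀ := by
  refine ⟨(hA.eigenvectorUnitary : Matrix V V ℝ), ?_, ?_, ?_⟩
  · have := (Matrix.mem_unitaryGroup_iff' (A := (hA.eigenvectorUnitary : Matrix V V ℝ))).1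
      hA.eigenvectorUnitary.2
    rwa [Matrix.star_eq_conjTranspose, Matrix.conjTranspose_eq_transpose_of_trivial] at this
  · have := (Matrix.mem_unitaryGroup_iff (A := (hA.eigenvectorUnitary : Matrix V V ℝ))).1
      hA.eigenvectorUnitary.2
    rwa [Matrix.star_eq_conjTranspose, Matrix.conjTranspose_eq_transpose_of_trivial] at this
  · have h := hA.spectral_theorem
    conv_lhs => rw [h]
    rw [Unitary.conjStarAlgAut_apply]
    simp [Matrix.star_eq_conjTranspose, Matrix.conjTranspose_eq_transpose_of_trivial]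

/-- The moments of the spectrum. -/
theorem sum_pow (hA : (G.adjMatrix ℝ).IsHermitian) (m : ℕ) :
    ∑ i, hA.eigenvalues i ^ m = ∑ x, (G.adjMatrix ℝ ^ m) x x := by
  obtain ⟨U, h1, h2, h3⟩ := spectral' G hA
  have hcol : ∀ i, ∑ x, U x i * U x i = 1 := by
    intro i
    have h3 := congrFun (congrFun h1 i) i
    rw [Matrix.mul_apply, Matrix.one_apply_eq] at h3
    rw [← h3]
    refine sum_congr rfl fun x _ => ?_
    rw [Matrix.transpose_apply]
  have h4 : ∀ x, (G.adjMatrix ℝ ^ m) x x = ∑ i, hA.eigenvalues i ^ m * (U x i * U x i) := by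
    intro x
    conv_lhs => rw [h3]
    rw [pow_udu h1 h2, udu_apply]
  rw [sum_congr rfl fun x _ => h4 x, sum_comm]
  refine sum_congr rfl fun i _ => ?_
  rw [← mul_sum, hcol, mul_one]

/-- Rayleigh quotients. -/
theorem rayleigh (hA : (G.adjMatrix ℝ).IsHermitian) (σ : V → ℝ) (hσ : ∀ x, σ x ^ 2 = 1) :
    ∃ w : V → ℝ, ∑ i, w i ^ 2 = Fintype.card V ∧
      ∑ x, ∑ y, G.adjMatrix ℝ x y * (σ x * σ y) = ∑ i, hA.eigenvalues i * w i ^ 2 := by
  obtain ⟨U, h1, h2, h3⟩ := spectral' G hA
  refine ⟨fun i => ∑ x, σ x * U x i, ?_, ?_⟩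
  · have e2 : ∀ i, (∑ x, σ x * U x i) ^ 2 = ∑ x, ∑ y, (σ x * σ y) * (U x i * U y i) := by
      intro i
      rw [sq, sum_mul_sum]
      refine sum_congr rfl fun x _ => sum_congr rfl fun y _ => ?_
      ring
    rw [sum_congr rfl fun i _ => e2 i, sum_comm]
    have e3 : ∀ x, ∑ i, ∑ y, (σ x * σ y) * (U x i * U y i) = 1 := by
      intro x
      rw [sum_comm]
      have e4 : ∀ y, ∑ i, (σ x * σ y) * (U x i * U y i) = (σ x * σ y) * (1 : Matrix V V ℝ) x y := by
        intro y
        rw [← h2, Matrix.mul_apply, mul_sum]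
        rfl
      rw [sum_congr rfl fun y _ => e4 y]
      rw [sum_eq_single x]
      · rw [Matrix.one_apply_eq, mul_one, ← sq, hσ]
      · intro y _ hy
        rw [Matrix.one_apply_ne (Ne.symm hy), mul_zero]
      · simp
    rw [sum_congr rfl fun x _ => e3 x]
    simp
  · have e3 : ∀ x y, G.adjMatrix ℝ x y * (σ x * σ y) =
        ∑ i, hA.eigenvalues i * ((σ x * σ y) * (U x i * U y i)) := by
      intro x y
      conv_lhs => rw [h3]
      rw [udu_apply, sum_mul]
      refine sum_congr rfl fun i _ => ?_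
      ring
    have e4 : ∀ i, (∑ x, σ x * U x i) ^ 2 = ∑ x, ∑ y, (σ x * σ y) * (U x i * U y i) := by
      intro i
      rw [sq, sum_mul_sum]
      refine sum_congr rfl fun x _ => sum_congr rfl fun y _ => ?_
      ring
    simp only [e3, e4, mul_sum]
    rw [sum_congr rfl fun x _ => sum_comm, sum_comm]

/-- The largest eigenvalue. -/
theorem exists_ge (hA : (G.adjMatrix ℝ).IsHermitian) [Nonempty V] {c : ℝ}
    (hc : ∀ x, c ≤ (G.degree x : ℝ)) : ∃ i, c ≤ hA.eigenvalues i := by
  obtain ⟨w, h1, h2⟩ := rayleigh G hA (fun _ => 1) (fun _ => by norm_num)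
  by_contra hcon
  push Not at hcon
  have hpos : (0 : ℝ) < Fintype.card V := by
    have : 0 < Fintype.card V := Fintype.card_pos
    exact_mod_cast this
  have h3 : c * Fintype.card V ≤ ∑ x, ∑ y, G.adjMatrix ℝ x y * (1 * 1) := by
    have e1 : ∀ x, ∑ y, G.adjMatrix ℝ x y * (1 * 1) = G.degree x := by
      intro x
      simp [SimpleGraph.adjMatrix_apply, ← G.card_neighborFinset_eq_degree,
        SimpleGraph.neighborFinset_eq_filter]
    rw [sum_congr rfl fun x _ => e1 x]
    calc c * Fintype.card V = ∑ x : V, c := by rw [sum_const, card_univ, nsmul_eq_mul]; ring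
      _ ≤ _ := sum_le_sum fun x _ => hc x
  rw [h2] at h3
  obtain ⟨i, -, hi⟩ : ∃ i ∈ univ, w i ^ 2 ≠ 0 := by
    by_contra h6
    push Not at h6
    rw [sum_congr rfl fun i hi => h6 i hi, sum_const_zero] at h1
    linarith
  have hi' : 0 < w i ^ 2 := lt_of_le_of_ne (sq_nonneg _) (Ne.symm hi)
  have h5 : ∑ i, hA.eigenvalues i * w i ^ 2 < ∑ i, c * w i ^ 2 :=
    sum_lt_sum (fun i _ => mul_le_mul_of_nonneg_right (hcon i).le (sq_nonneg _))
      ⟨i, mem_univ i, mul_lt_mul_of_pos_right (hcon i) hi'⟩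
  rw [← mul_sum, h1] at h5
  linarith

/-- The smallest eigenvalue of a bipartite graph. -/
theorem exists_le (hA : (G.adjMatrix ℝ).IsHermitian) [Nonempty V] {c : ℝ}
    (hc : ∀ x, c ≤ (G.degree x : ℝ)) (hb : G.Colorable 2) : ∃ i, hA.eigenvalues i ≤ -c := by
  obtain ⟨col⟩ := hb
  set σ : V → ℝ := fun x => if col x = 0 then 1 else -1 with hσ
  have hσ2 : ∀ x, σ x ^ 2 = 1 := by
    intro x
    simp only [hσ]
    split_ifs <;> norm_num
  obtain ⟨w, h1, h2⟩ := rayleigh G hA σ hσ2
  by_contra hcon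
  push Not at hcon
  have hpos : (0 : ℝ) < Fintype.card V := by
    have : 0 < Fintype.card V := Fintype.card_pos
    exact_mod_cast this
  have h3 : ∑ x, ∑ y, G.adjMatrix ℝ x y * (σ x * σ y) ≤ -c * Fintype.card V := by
    have e0 : ∀ x y, G.adjMatrix ℝ x y * (σ x * σ y) = - G.adjMatrix ℝ x y := by
      intro x y
      rw [SimpleGraph.adjMatrix_apply]
      split_ifs with h
      · have h4 := col.valid h
        simp only [hσ]
        split_ifs with h5 h6 h6
        · exact absurd (h5.trans h6.symm) h4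
        · norm_num
        · norm_num
        · exfalso
          apply h4
          have : ∀ a : Fin 2, a ≠ 0 → a = 1 := by decide
          rw [this _ h5, this _ h6]
      · simp
    have e1 : ∀ x, ∑ y, G.adjMatrix ℝ x y = G.degree x := by
      intro x
      simp [SimpleGraph.adjMatrix_apply, ← G.card_neighborFinset_eq_degree,
        SimpleGraph.neighborFinset_eq_filter]
    have e2 : ∑ x, ∑ y, G.adjMatrix ℝ x y * (σ x * σ y) = - ∑ x, (G.degree x : ℝ) := by
      rw [← sum_neg_distrib]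
      refine sum_congr rfl fun x _ => ?_
      rw [← e1 x, ← sum_neg_distrib]
      exact sum_congr rfl fun y _ => e0 x y
    rw [e2]
    have e3 : c * Fintype.card V ≤ ∑ x, (G.degree x : ℝ) := by
      calc c * Fintype.card V = ∑ x : V, c := by rw [sum_const, card_univ, nsmul_eq_mul]; ring
        _ ≤ _ := sum_le_sum fun x _ => hc x
    linarith
  rw [h2] at h3
  obtain ⟨i, -, hi⟩ : ∃ i ∈ univ, w i ^ 2 ≠ 0 := by
    by_contra h6
    push Not at h6
    rw [sum_congr rfl fun i hi => h6 i hi, sum_const_zero] at h1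
    linarith
  have hi' : 0 < w i ^ 2 := lt_of_le_of_ne (sq_nonneg _) (Ne.symm hi)
  have h5 : ∑ i, -c * w i ^ 2 < ∑ i, hA.eigenvalues i * w i ^ 2 :=
    sum_lt_sum (fun i _ => mul_le_mul_of_nonneg_right (hcon i).le (sq_nonneg _))
      ⟨i, mem_univ i, mul_lt_mul_of_pos_right (hcon i) hi'⟩
  rw [← mul_sum, h1] at h5
  linarith

end Pool.Agent.J4.H75.GE
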