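import Pool.Agent.J4.H75.GE.Walks

/-!
# Few large eigenvalues: bounded rank plus small norm
-/

set_option autoImplicit false
set_option linter.unusedSectionVars false

open Finset Matrix

namespace Pool.Agent.J4.H75.GE

variable {V : Type} [Fintype V] [DecidableEq V] (G : SimpleGraph V) [DecidableRel G.Adj]

theorem adj_herm : (G.adjMatrix ℝ).IsHermitian := by
  rw [Matrix.IsHermitian, Matrix.conjTranspose_eq_transpose_of_trivial,
    SimpleGraph.transpose_adjMatrix]

/-- The spectral decomposition of the adjacency matrix in coordinates. -/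
theorem spectral : ∃ (U : Matrix V V ℝ) (l : V → ℝ), Uᵀ * U = 1 ∧ U * Uᵀ = 1 ∧
    G.adjMatrix ℝ = U * diagonal l * Uᵀ := by
  have hA := adj_herm G
  refine ⟨(hA.eigenvectorUnitary : Matrix V V ℝ), hA.eigenvalues, ?_, ?_, ?_⟩
  · have := (Matrix.mem_unitaryGroup_iff' (A := (hA.eigenvectorUnitary : Matrix V V ℝ))).1
      hA.eigenvectorUnitary.2
    rwa [Matrix.star_eq_conjTranspose, Matrix.conjTranspose_eq_transpose_of_trivial] at this
  · have := (Matrix.mem_unitaryGroup_iff (A := (hA.eigenvectorUnitary : Matrix V V ℝ))).1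
      hA.eigenvectorUnitary.2
    rwa [Matrix.star_eq_conjTranspose, Matrix.conjTranspose_eq_transpose_of_trivial] at this
  · have h := hA.spectral_theorem
    conv_lhs => rw [h]
    rw [Unitary.conjStarAlgAut_apply]
    simp [Matrix.star_eq_conjTranspose, Matrix.conjTranspose_eq_transpose_of_trivial]

/-- Entries of a matrix `U D Uᵀ`. -/
theorem udu_apply (U : Matrix V V ℝ) (d : V → ℝ) (x y : V) :
    (U * diagonal d * Uᵀ) x y = ∑ i, d i * (U x i * U y i) := by
  rw [Matrix.mul_apply]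
  refine sum_congr rfl fun i _ => ?_
  rw [Matrix.mul_diagonal, Matrix.transpose_apply]
  ring

theorem pow_udu {U : Matrix V V ℝ} {l : V → ℝ} (h1 : Uᵀ * U = 1) (h2 : U * Uᵀ = 1) (m : ℕ) :
    (U * diagonal l * Uᵀ) ^ m = U * diagonal (fun i => l i ^ m) * Uᵀ := by
  induction m with
  | zero =>
    have : diagonal (fun i : V => l i ^ 0) = (1 : Matrix V V ℝ) := by simp
    rw [this, mul_one, h2, pow_zero]
  | succ m ih =>
    rw [pow_succ, ih]
    calc U * diagonal (fun i => l i ^ m) * Uᵀ * (U * diagonal l * Uᵀ)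
        = U * diagonal (fun i => l i ^ m) * (Uᵀ * U) * diagonal l * Uᵀ := by
          simp only [Matrix.mul_assoc]
      _ = U * (diagonal (fun i => l i ^ m) * diagonal l) * Uᵀ := by
          rw [h1, Matrix.mul_one, Matrix.mul_assoc U]
      _ = _ := by
          rw [Matrix.diagonal_mul_diagonal]
          simp only [pow_succ]

/-- **Bounded rank plus small norm.** The features `g` describe the low rank part. -/
theorem decomposition {k : ℕ} (hk : 1 ≤ k)
    (hg : ∀ (v : V) (p : G.Walk v v), p.IsCycle → 2 * k < p.length)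
    {Δ : ℝ} (hΔ0 : 0 < Δ) (hΔ : ∀ x, (G.degree x : ℝ) ≤ Δ) {τ : ℝ} (hτ : 0 < τ) :
    ∃ (I : Finset V) (g : V → V → ℝ) (σ : V → ℝ) (S : Matrix V V ℝ),
      (I.card : ℝ) * τ ^ (2 * k) ≤ (4 * Δ) ^ k * Fintype.card V ∧
      (∀ i, |σ i| ≤ 1) ∧
      (∀ i ∈ I, ∀ x, g i x ^ 2 ≤ (4 * Δ) ^ k / τ ^ (2 * k - 1)) ∧
      (∀ x y, S x y = ∑ i ∈ I, σ i * (g i x * g i y)) ∧
      S.rank ≤ I.card ∧ Sᵀ = S ∧
      (∀ x y, |S x y| ≤ (4 * Δ) ^ k / τ ^ (2 * k - 1)) ∧
      (∀ v : V → ℝ, ∑ x, (((G.adjMatrix ℝ - S) *ᵥ v) x) ^ 2 ≤ τ ^ 2 * ∑ x, v x ^ 2) := by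
  obtain ⟨U, l, h1, h2, hA⟩ := spectral G
  have hdiag : ∀ x, ∑ i, l i ^ (2 * k) * U x i ^ 2 ≤ (4 * Δ) ^ k := by
    intro x
    have h3 := closed_walks G hg hΔ0 hΔ x
    rw [hA, pow_udu h1 h2, udu_apply] at h3
    refine le_trans (le_of_eq ?_) h3
    refine sum_congr rfl fun i _ => ?_
    ring
  have hnn : ∀ i x, 0 ≤ l i ^ (2 * k) * U x i ^ 2 := fun i x =>
    mul_nonneg (by rw [pow_mul]; positivity) (sq_nonneg _)
  have hcol : ∀ i, ∑ x, U x i ^ 2 = 1 := by
    intro i
    have h3 := congrFun (congrFun h1 i) i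
    rw [Matrix.mul_apply, Matrix.one_apply_eq] at h3
    rw [← h3]
    refine sum_congr rfl fun x _ => ?_
    rw [Matrix.transpose_apply]
    ring
  set I : Finset V := univ.filter fun i => τ ≤ |l i| with hI
  have hIm : ∀ i, i ∈ I ↔ τ ≤ |l i| := by
    intro i
    simp [hI]
  -- large eigenvalues
  have hbig : ∀ i ∈ I, |l i| ≤ l i ^ (2 * k) / τ ^ (2 * k - 1) := by
    intro i hi
    rw [hIm] at hi
    rw [le_div_iff₀ (by positivity)]
    have e1 : l i ^ (2 * k) = |l i| * |l i| ^ (2 * k - 1) := by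
      rw [← pow_succ', show 2 * k - 1 + 1 = 2 * k by omega, pow_mul, pow_mul, sq_abs]
    rw [e1]
    exact mul_le_mul_of_nonneg_left (pow_le_pow_left₀ hτ.le hi _) (abs_nonneg _)
  set S : Matrix V V ℝ := U * diagonal (fun i => if i ∈ I then l i else 0) * Uᵀ with hS
  have hSap : ∀ x y, S x y = ∑ i ∈ I, l i * (U x i * U y i) := by
    intro x y
    rw [hS, udu_apply, ← sum_filter_add_sum_filter_not univ (fun i => i ∈ I)]
    have e1 : ∑ i with i ∉ I, (if i ∈ I then l i else 0) * (U x i * U y i) = 0 := by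
      apply sum_eq_zero
      intro i hi
      rw [mem_filter] at hi
      rw [if_neg hi.2, zero_mul]
    rw [e1, add_zero]
    have e2 : (univ.filter fun i => i ∈ I) = I := by
      ext i
      simp
    rw [e2]
    refine sum_congr rfl fun i hi => ?_
    rw [if_pos hi]
  have habs : ∀ x y, ∑ i ∈ I, |l i| * (|U x i| * |U y i|) ≤ (4 * Δ) ^ k / τ ^ (2 * k - 1) := by
    intro x y
    have e1 : ∀ i ∈ I, |l i| * (|U x i| * |U y i|) ≤
        (l i ^ (2 * k) * U x i ^ 2 + l i ^ (2 * k) * U y i ^ 2) / 2 / τ ^ (2 * k - 1) := by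
      intro i hi
      have e2 : |U x i| * |U y i| ≤ (U x i ^ 2 + U y i ^ 2) / 2 := by
        have := sq_nonneg (|U x i| - |U y i|)
        nlinarith [sq_abs (U x i), sq_abs (U y i)]
      calc |l i| * (|U x i| * |U y i|)
          ≤ l i ^ (2 * k) / τ ^ (2 * k - 1) * ((U x i ^ 2 + U y i ^ 2) / 2) :=
            mul_le_mul (hbig i hi) e2 (by positivity) (le_trans (abs_nonneg _) (hbig i hi))
        _ = _ := by ring
    calc ∑ i ∈ I, |l i| * (|U x i| * |U y i|)
        ≤ ∑ i ∈ I, (l i ^ (2 * k) * U x i ^ 2 + l i ^ (2 * k) * U y i ^ 2) / 2 /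
            τ ^ (2 * k - 1) := sum_le_sum e1
      _ ≤ ∑ i, (l i ^ (2 * k) * U x i ^ 2 + l i ^ (2 * k) * U y i ^ 2) / 2 /
            τ ^ (2 * k - 1) := by
          refine sum_le_sum_of_subset_of_nonneg (subset_univ _) fun i _ _ => ?_
          have := hnn i x
          have := hnn i y
          positivity
      _ = (∑ i, l i ^ (2 * k) * U x i ^ 2 + ∑ i, l i ^ (2 * k) * U y i ^ 2) / 2 /
            τ ^ (2 * k - 1) := by
          rw [← sum_div, ← sum_div, sum_add_distrib]
      _ ≤ ((4 * Δ) ^ k + (4 * Δ) ^ k) / 2 / τ ^ (2 * k - 1) := by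
          have := hdiag x
          have := hdiag y
          gcongr
      _ = _ := by ring
  refine ⟨I, fun i x => √|l i| * U x i, fun i => SignType.sign (l i), S, ?_, ?_, ?_, ?_, ?_, ?_,
    ?_, ?_⟩
  · -- number of large eigenvalues
    calc (I.card : ℝ) * τ ^ (2 * k) = ∑ i ∈ I, τ ^ (2 * k) := by rw [sum_const, nsmul_eq_mul]
      _ ≤ ∑ i ∈ I, l i ^ (2 * k) := by
          refine sum_le_sum fun i hi => ?_
          rw [hIm] at hi
          rw [pow_mul, pow_mul, ← sq_abs (l i)]
          exact pow_le_pow_left₀ (by positivity) (pow_le_pow_left₀ hτ.le hi _) _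
      _ ≤ ∑ i, l i ^ (2 * k) := by
          refine sum_le_sum_of_subset_of_nonneg (subset_univ _) fun i _ _ => ?_
          rw [pow_mul]; positivity
      _ = ∑ i, l i ^ (2 * k) * ∑ x, U x i ^ 2 := by
          refine sum_congr rfl fun i _ => ?_
          rw [hcol, mul_one]
      _ = ∑ x, ∑ i, l i ^ (2 * k) * U x i ^ 2 := by
          simp only [mul_sum]
          rw [sum_comm]
      _ ≤ ∑ x : V, (4 * Δ) ^ k := sum_le_sum fun x _ => hdiag x
      _ = _ := by rw [sum_const, card_univ, nsmul_eq_mul]; ring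
  · intro i
    rcases lt_trichotomy (l i) 0 with h | h | h
    · simp [sign_neg h]
    · simp [h]
    · simp [sign_pos h]
  · intro i hi x
    have e1 : (√|l i| * U x i) ^ 2 = |l i| * (|U x i| * |U x i|) := by
      rw [mul_pow, Real.sq_sqrt (abs_nonneg _), ← sq_abs (U x i)]
      ring
    rw [e1]
    refine le_trans ?_ (habs x x)
    exact single_le_sum (f := fun i => |l i| * (|U x i| * |U x i|))
      (fun i _ => by positivity) hi
  · intro x y
    rw [hSap]
    refine sum_congr rfl fun i _ => ?_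
    have e1 : (SignType.sign (l i) : ℝ) * |l i| = l i := by
      rw [sign_mul_abs]
    have e2 : √|l i| * √|l i| = |l i| := Real.mul_self_sqrt (abs_nonneg _)
    calc l i * (U x i * U y i) = ((SignType.sign (l i) : ℝ) * |l i|) * (U x i * U y i) := by
          rw [e1]
      _ = ((SignType.sign (l i) : ℝ) * (√|l i| * √|l i|)) * (U x i * U y i) := by rw [e2]
      _ = _ := by ring
  · -- rank
    calc S.rank ≤ (U * diagonal (fun i => if i ∈ I then l i else 0)).rank :=
          Matrix.rank_mul_le_left _ _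
      _ ≤ (diagonal (fun i => if i ∈ I then l i else 0)).rank := Matrix.rank_mul_le_right _ _
      _ = Fintype.card {i // (if i ∈ I then l i else 0) ≠ 0} := Matrix.rank_diagonal _
      _ ≤ I.card := by
          rw [Fintype.card_subtype]
          apply card_le_card
          intro i hi
          rw [mem_filter] at hi
          by_contra h
          exact hi.2 (if_neg h)
  · ext x y
    rw [Matrix.transpose_apply, hSap, hSap]
    refine sum_congr rfl fun i _ => ?_
    ring
  · intro x y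
    rw [hSap]
    refine (abs_sum_le_sum_abs _ _).trans (le_trans (le_of_eq ?_) (habs x y))
    refine sum_congr rfl fun i _ => ?_
    rw [abs_mul, abs_mul]
  · intro v
    have e1 : G.adjMatrix ℝ - S = U * diagonal (fun i => if i ∈ I then 0 else l i) * Uᵀ := by
      rw [hS]
      conv_lhs => rw [hA]
      rw [← Matrix.sub_mul, ← Matrix.mul_sub, Matrix.diagonal_sub]
      congr 3
      ext i
      split_ifs <;> simp
    have e2 : ∀ w : V → ℝ, ∑ x, (U *ᵥ w) x ^ 2 = ∑ x, w x ^ 2 := by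
      intro w
      have e3 : (U *ᵥ w) ⬝ᵥ (U *ᵥ w) = w ⬝ᵥ w := by
        rw [Matrix.dotProduct_mulVec, Matrix.vecMul_mulVec, h1]
        simp
      simp only [dotProduct] at e3
      simp only [sq]
      exact e3
    have e4 : ∑ x, (Uᵀ *ᵥ v) x ^ 2 = ∑ x, v x ^ 2 := by
      have e3 : (Uᵀ *ᵥ v) ⬝ᵥ (Uᵀ *ᵥ v) = v ⬝ᵥ v := by
        rw [Matrix.dotProduct_mulVec, Matrix.vecMul_mulVec, Matrix.transpose_transpose, h2]
        simp
      simp only [dotProduct] at e3
      simp only [sq]
      exact e3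
    rw [e1, ← Matrix.mulVec_mulVec, ← Matrix.mulVec_mulVec, e2, ← e4, mul_sum]
    refine sum_le_sum fun i _ => ?_
    rw [Matrix.mulVec_diagonal]
    split_ifs with hi
    · rw [zero_mul, zero_pow (by norm_num)]
      positivity
    · rw [hIm, not_le] at hi
      rw [mul_pow]
      apply mul_le_mul_of_nonneg_right _ (sq_nonneg _)
      rw [← sq_abs (l i)]
      exact pow_le_pow_left₀ (abs_nonneg _) hi.le _

end Pool.Agent.J4.H75.GE
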