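import Pool.Agent.J4.H75.GE.Moore
import Pool.Agent.J4.H75.GE.Struct

/-!
# The spectrum of graphs at the Moore bound

Let `G` be a graph on `n` vertices of girth greater than `2 k` with all degrees between
`(1 - δ) d` and `d`, where `δ` is small and `d` is large, and let `S_a` be the Chebyshev polynomials,
`S_a (2 cos t) = sin ((a + 1) t) / sin t`. The scaled eigenvalues `λ / √d` behave as follows.

* `S_0, ..., S_k` are almost orthonormal for the spectral distribution.
* When the largest eigenvalue is left out, the sum of the values of `S_k ^ 2` is at most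
  `(1 + ε) n - (1 - ε) d ^ k`; for bipartite graphs, without the largest and the smallest one, it is
  at most `(1 + ε) n - 2 (1 - ε) d ^ k`. (The semicircle law would give `n`, so the spectral
  distribution of graphs with `n = O (d ^ k)` is not close to the semicircle law.)
* If `n ≤ (1 + δ) d ^ k`, or `G` is bipartite and `n ≤ 2 (1 + δ) d ^ k`, that is, if `n` is
  almost as small as the Moore bound permits, then the spectral distribution is close to the
  Gauss-Chebyshev quadrature rule: up to an error `ε n` there are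
  `2 sin² (π j / (k + 1)) / (k + 1) n` eigenvalues near `2 √d cos (π j / (k + 1))`, `1 ≤ j ≤ k`, and
  no others.

Idea: the closed walks of length at most `2 k` are counted by ballot numbers, and `S_k` takes at the
largest eigenvalue the value `d ^ (k / 2)`.
-/

set_option autoImplicit false

namespace Pool.Agent.J4.H75.GE.SpectralRigidityNote

open Finset Pool.Agent.J4.H75.GE Pool.TH815.GR

theorem u_eq_S (a : ℕ) : u a = Polynomial.Chebyshev.S ℝ (a : ℤ) := by
  induction a using Nat.twoStepInduction with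
  | zero => rw [u]; simp
  | one => rw [u]; simp
  | more a ih1 ih2 =>
    rw [u, ih1, ih2]
    push_cast
    rw [Polynomial.Chebyshev.S_add_two]

theorem sum_wt {k : ℕ} (hk : 1 ≤ k) : ∑ j, wt k j = 1 := by
  have h := sum_sin_sq k ⟨0, by omega⟩
  have e1 : ∀ j : Fin k, wt k j =
      2 / ((k : ℝ) + 1) * Real.sin (((j : ℕ) + 1 : ℝ) * ang k ⟨0, by omega⟩) ^ 2 := by
    intro j
    unfold wt ang
    congr 3
    simp only [CharP.cast_eq_zero]
    ring
  rw [sum_congr rfl fun j _ => e1 j, ← mul_sum,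
    Fin.sum_univ_eq_sum_range (fun a => Real.sin (((a : ℕ) + 1 : ℝ) * ang k ⟨0, by omega⟩) ^ 2) k, h]
  field_simp

/-- The spectrum near the Moore bound, with the number of the exceptional eigenvalues. -/
theorem rigid_all {k : ℕ} (hk : 1 ≤ k) {r : ℝ} (hr : 0 < r)
    (hgap : ∀ i j : Fin k, i ≠ j → 2 * r ≤ |node k i - node k j|) {ε : ℝ} (hε : 0 < ε) :
    ∃ δ > 0, ∃ D : ℝ,
    ∀ (V : Type) [Fintype V] [DecidableEq V] [Nonempty V] (G : SimpleGraph V) [DecidableRel G.Adj]
      (hA : (G.adjMatrix ℝ).IsHermitian) (d : ℝ), D ≤ d →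
      (∀ (v : V) (p : G.Walk v v), p.IsCycle → 2 * k < p.length) →
      (∀ x, (1 - δ) * d ≤ (G.degree x : ℝ) ∧ (G.degree x : ℝ) ≤ d) →
      ((Fintype.card V : ℝ) ≤ (1 + δ) * d ^ k ∨
        (G.Colorable 2 ∧ (Fintype.card V : ℝ) ≤ 2 * ((1 + δ) * d ^ k))) →
      (∀ j, |((univ.filter fun i => |sp hA d i - node k j| ≤ r).card : ℝ) -
        wt k j * Fintype.card V| ≤ ε * Fintype.card V) ∧
      ((univ.filter fun i => ∀ j, r < |sp hA d i - node k j|).card : ℝ) ≤
        ε * Fintype.card V := by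
  have hk0 : (0 : ℝ) < k := by exact_mod_cast hk
  obtain ⟨δ₁, hδ₁, D₁, h₁⟩ := rigid hk hr hgap hε
  obtain ⟨δ₂, hδ₂, D₂, h₂⟩ := rigid hk (half_pos hr)
    (fun i j hij => le_trans (by linarith) (hgap i j hij)) (ε := ε / k) (by positivity)
  refine ⟨min δ₁ δ₂, lt_min hδ₁ hδ₂, max (max D₁ D₂) 0, ?_⟩
  intro V _ _ _ G _ hA d hD hg hdeg hcard
  have hD1 : D₁ ≤ d := ((le_max_left _ _).trans (le_max_left _ _)).trans hD
  have hD2 : D₂ ≤ d := ((le_max_right _ _).trans (le_max_left _ _)).trans hD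
  have hd0 : 0 ≤ d := (le_max_right _ _).trans hD
  have hm1 : min δ₁ δ₂ ≤ δ₁ := min_le_left _ _
  have hm2 : min δ₁ δ₂ ≤ δ₂ := min_le_right _ _
  have hdk : 0 ≤ d ^ k := by positivity
  have aux : ∀ δ' : ℝ, min δ₁ δ₂ ≤ δ' →
      (∀ x, (1 - δ') * d ≤ (G.degree x : ℝ) ∧ (G.degree x : ℝ) ≤ d) ∧
      ((Fintype.card V : ℝ) ≤ (1 + δ') * d ^ k ∨
        (G.Colorable 2 ∧ (Fintype.card V : ℝ) ≤ 2 * ((1 + δ') * d ^ k))) := by
    intro δ' hδ'
    refine ⟨fun x => ⟨le_trans (mul_le_mul_of_nonneg_right (by linarith) hd0) (hdeg x).1,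
      (hdeg x).2⟩, ?_⟩
    have h3 : (1 + min δ₁ δ₂) * d ^ k ≤ (1 + δ') * d ^ k :=
      mul_le_mul_of_nonneg_right (by linarith) hdk
    rcases hcard with h | ⟨hb, h⟩
    · exact Or.inl (h.trans h3)
    · exact Or.inr ⟨hb, by linarith⟩
  refine ⟨h₁ V G hA d hD1 hg (aux δ₁ hm1).1 (aux δ₁ hm1).2, ?_⟩
  have h4 := h₂ V G hA d hD2 hg (aux δ₂ hm2).1 (aux δ₂ hm2).2
  set N : Fin k → Finset V := fun j => univ.filter fun i => |sp hA d i - node k j| ≤ r / 2 with hN
  set F : Finset V := univ.filter fun i => ∀ j, r < |sp hA d i - node k j| with hF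
  have hdisj : (↑(univ : Finset (Fin k)) : Set (Fin k)).PairwiseDisjoint N := by
    intro a _ b _ hab
    rw [Function.onFun, disjoint_left]
    intro i hi hi'
    simp only [hN, mem_filter, mem_univ, true_and] at hi hi'
    have h7 := hgap a b hab
    have h8 : |node k a - node k b| ≤ |sp hA d i - node k a| + |sp hA d i - node k b| := by
      have := abs_sub_le (node k a) (sp hA d i) (node k b)
      rwa [abs_sub_comm (node k a) (sp hA d i)] at this
    linarith
  have hFd : Disjoint F (univ.biUnion N) := by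
    rw [disjoint_left]
    intro i hi hi'
    rw [mem_biUnion] at hi'
    obtain ⟨j, -, hj⟩ := hi'
    simp only [hN, hF, mem_filter, mem_univ, true_and] at hi hj
    have := hi j
    linarith
  have h5 : (F.card : ℝ) + ∑ j, ((N j).card : ℝ) ≤ Fintype.card V := by
    have : F.card + ∑ j, (N j).card ≤ Fintype.card V := by
      rw [← card_biUnion fun a ha b hb => hdisj ha hb, ← card_union_of_disjoint hFd]
      exact card_le_univ _
    exact_mod_cast this
  have h6 : ∑ j, (wt k j * Fintype.card V - ε / k * Fintype.card V) ≤ ∑ j, ((N j).card : ℝ) := by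
    refine sum_le_sum fun j _ => ?_
    have := (abs_le.1 (h4 j)).1
    linarith
  rw [sum_sub_distrib, ← sum_mul, sum_wt hk, one_mul, sum_const, card_univ, Fintype.card_fin,
    nsmul_eq_mul] at h6
  have h7 : (k : ℝ) * (ε / k * Fintype.card V) = ε * Fintype.card V := by
    field_simp
  rw [h7] at h6
  linarith

theorem result (k : ℕ) (hk : 1 ≤ k) :
    -- almost orthonormality, and the defect from the semicircle law
    (∀ ε : ℝ, 0 < ε → ∃ δ : ℝ, 0 < δ ∧ ∃ D : ℝ, ∀ (V : Type) [Fintype V] [DecidableEq V] [Nonempty V]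
      (G : SimpleGraph V) [DecidableRel G.Adj] (hA : (G.adjMatrix ℝ).IsHermitian) (d : ℝ),
      D ≤ d → ((2 * k : ℕ) : ℕ∞) < G.egirth →
      (∀ x, (1 - δ) * d ≤ (G.degree x : ℝ) ∧ (G.degree x : ℝ) ≤ d) →
      (∀ a ≤ k, ∀ b ≤ k, |∑ i, (Polynomial.Chebyshev.S ℝ (a : ℤ)).eval (hA.eigenvalues i / √d) *
        (Polynomial.Chebyshev.S ℝ (b : ℤ)).eval (hA.eigenvalues i / √d) -
          (if a = b then (Fintype.card V : ℝ) else 0)| ≤ ε * Fintype.card V) ∧
      (∃ i, (1 - δ) * d ≤ hA.eigenvalues i ∧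
        ∑ j ∈ {i}ᶜ, (Polynomial.Chebyshev.S ℝ (k : ℤ)).eval (hA.eigenvalues j / √d) ^ 2 ≤
          (1 + ε) * Fintype.card V - (1 - ε) * d ^ k) ∧
      (G.Colorable 2 → ∃ i i', i ≠ i' ∧ (1 - δ) * d ≤ hA.eigenvalues i ∧
        hA.eigenvalues i' ≤ -((1 - δ) * d) ∧
        ∑ j ∈ {i, i'}ᶜ, (Polynomial.Chebyshev.S ℝ (k : ℤ)).eval (hA.eigenvalues j / √d) ^ 2 ≤
          (1 + ε) * Fintype.card V - 2 * ((1 - ε) * d ^ k))) ∧
    -- the spectrum near the Moore bound
    (∀ r ε : ℝ, 0 < r → 0 < ε →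
      (∀ i j : Fin k, i ≠ j → 2 * r ≤ |2 * Real.cos (Real.pi * ((i : ℝ) + 1) / ((k : ℝ) + 1)) -
        2 * Real.cos (Real.pi * ((j : ℝ) + 1) / ((k : ℝ) + 1))|) →
      ∃ δ : ℝ, 0 < δ ∧ ∃ D : ℝ, ∀ (V : Type) [Fintype V] [DecidableEq V] [Nonempty V]
      (G : SimpleGraph V) [DecidableRel G.Adj] (hA : (G.adjMatrix ℝ).IsHermitian) (d : ℝ),
      D ≤ d → ((2 * k : ℕ) : ℕ∞) < G.egirth →
      (∀ x, (1 - δ) * d ≤ (G.degree x : ℝ) ∧ (G.degree x : ℝ) ≤ d) →
      ((Fintype.card V : ℝ) ≤ (1 + δ) * d ^ k ∨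
        (G.Colorable 2 ∧ (Fintype.card V : ℝ) ≤ 2 * ((1 + δ) * d ^ k))) →
      (∀ j : Fin k, |((univ.filter fun i => |hA.eigenvalues i / √d -
        2 * Real.cos (Real.pi * ((j : ℝ) + 1) / ((k : ℝ) + 1))| ≤ r).card : ℝ) -
        2 / ((k : ℝ) + 1) * Real.sin (Real.pi * ((j : ℝ) + 1) / ((k : ℝ) + 1)) ^ 2 *
          Fintype.card V| ≤ ε * Fintype.card V) ∧
      ((univ.filter fun i => ∀ j : Fin k, r < |hA.eigenvalues i / √d -
        2 * Real.cos (Real.pi * ((j : ℝ) + 1) / ((k : ℝ) + 1))|).card : ℝ) ≤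
          ε * Fintype.card V) := by
  constructor
  · intro ε hε
    obtain ⟨δ, hδ, D, h⟩ := main hk hε
    refine ⟨δ, hδ, D, ?_⟩
    intro V _ _ _ G _ hA d hD hg hdeg
    rw [egirth_iff] at hg
    obtain ⟨h1, h2, h3⟩ := h V G hA d hD hg hdeg
    have hn : (0 : ℝ) < Fintype.card V := by
      have : 0 < Fintype.card V := Fintype.card_pos
      exact_mod_cast this
    simp only [← u_eq_S]
    refine ⟨fun a ha b hb => ?_, h2, h3⟩
    have h4 := h1 a ha b hb
    rw [mean_apply] at h4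
    have e1 : ∑ i, (u a).eval (hA.eigenvalues i / √d) * (u b).eval (hA.eigenvalues i / √d) -
        (if a = b then (Fintype.card V : ℝ) else 0) =
        ((∑ i, (u a * u b).eval (sp hA d i)) / Fintype.card V - if a = b then 1 else 0) *
          Fintype.card V := by
      have e2 : ∑ i, (u a).eval (hA.eigenvalues i / √d) * (u b).eval (hA.eigenvalues i / √d) =
          ∑ i, (u a * u b).eval (sp hA d i) :=
        sum_congr rfl fun i _ => by rw [Polynomial.eval_mul]; rfl
      rw [e2, sub_mul, div_mul_cancel₀ _ hn.ne']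
      congr 1
      split_ifs <;> simp
    rw [e1, abs_mul, abs_of_pos hn]
    exact mul_le_mul_of_nonneg_right h4 hn.le
  · intro r ε hr hε hgap
    obtain ⟨δ, hδ, D, h⟩ := rigid_all hk hr hgap hε
    refine ⟨δ, hδ, D, ?_⟩
    intro V _ _ _ G _ hA d hD hg hdeg hcard
    rw [egirth_iff] at hg
    exact h V G hA d hD hg hdeg hcard

end Pool.Agent.J4.H75.GE.SpectralRigidityNote
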