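import Pool.Agent.J4.H75.GE.Reg

/-!
# Extremal graphs of large girth: few large eigenvalues, and regular partitions

Let `G` be a graph on `n` vertices of girth greater than `2 k` and `A` its adjacency matrix.

* If all degrees are at most `Δ`, then `μ ^ (2 k) v(x) ^ 2 ≤ (4 Δ) ^ k ∑ v(y) ^ 2` for every
  eigenvector `v` with eigenvalue `μ`, and for every `τ > 0` there is a symmetric matrix `S` with
  `rank(S) τ ^ (2 k) ≤ (4 Δ) ^ k n`, entries at most `(4 Δ) ^ k / τ ^ (2 k - 1)` and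
  `‖A - S‖ ≤ τ` (operator norm).
* In the range of the girth conjecture, when all degrees are at most `K n ^ (1 / k)`: `A` is the sum
  of a matrix of rank at most `(4 K) ^ k ε ^ (-2 k)` with entries
  `O(n ^ (1 / k - 1))` and a matrix of norm at most `ε n ^ (1 / k)`.
* For all `k ≥ 1` and `ε > 0` there is `M` such that the vertices of every graph of girth greater
  than `2 k` (no condition on the degrees) have a partition into `M` classes with
  `|e(X, Y) - ∑ d(i, j) |X ∩ V i| |Y ∩ V j|| ≤ ε n ^ (1 + 1 / k)` for all sets `X`, `Y` of vertices,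
  where `d(i, j)` is the density of edges between the classes.

Idea: a closed walk of length `2 k` in a graph of girth greater than `2 k` backtracks completely.
-/

set_option autoImplicit false

namespace Pool.Agent.J4.H75.GE.SpectralStructureNote

open Finset Matrix Pool.Agent.J4.H75.GE Pool.TH815.GR

theorem at_scale {k : ℕ} (hk : 1 ≤ k) {K ε : ℝ} (hK : 0 < K) (hε : 0 < ε) (V : Type) [Fintype V]
    [DecidableEq V] (G : SimpleGraph V) [DecidableRel G.Adj]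
    (hg : ∀ (v : V) (p : G.Walk v v), p.IsCycle → 2 * k < p.length)
    (hdeg : ∀ x, (G.degree x : ℝ) ≤ K * (Fintype.card V : ℝ) ^ (1 / (k : ℝ))) :
    ∃ S : Matrix V V ℝ, Sᵀ = S ∧ (S.rank : ℝ) ≤ (4 * K) ^ k / ε ^ (2 * k) ∧
      (∀ x y, |S x y| ≤
        (4 * K) ^ k / ε ^ (2 * k - 1) * (Fintype.card V : ℝ) ^ (1 / (k : ℝ) - 1)) ∧
      ∀ v : V → ℝ, ∑ x, (((G.adjMatrix ℝ - S) *ᵥ v) x) ^ 2 ≤
        (ε * (Fintype.card V : ℝ) ^ (1 / (k : ℝ))) ^ 2 * ∑ x, v x ^ 2 := by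
  have hkpos : (0 : ℝ) < k := by exact_mod_cast hk
  rcases Nat.eq_zero_or_pos (Fintype.card V) with h0 | h0
  · have hemp : IsEmpty V := Fintype.card_eq_zero_iff.1 h0
    refine ⟨0, by simp, ?_, fun x => hemp.elim x, fun v => by simp⟩
    rw [Matrix.rank_zero]
    simp only [Nat.cast_zero]
    positivity
  have hn : (0 : ℝ) < Fintype.card V := by exact_mod_cast h0
  set n : ℝ := (Fintype.card V : ℝ) with hnd
  set N : ℝ := n ^ (1 / (k : ℝ)) with hN
  have hN0 : 0 < N := Real.rpow_pos_of_pos hn _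
  have hroot : N ^ k = n := by
    rw [hN, ← Real.rpow_natCast, ← Real.rpow_mul hn.le]
    have : (1 / (k : ℝ)) * (k : ℝ) = 1 := by field_simp
    rw [this, Real.rpow_one]
  obtain ⟨I, g, σ, S, hI, -, -, -, hrank, hsym, hent, hnorm⟩ :=
    decomposition G hk hg (Δ := K * N) (by positivity) hdeg (τ := ε * N) (by positivity)
  have hτ2k : (ε * N) ^ (2 * k) = ε ^ (2 * k) * n ^ 2 := by
    rw [mul_pow, mul_comm 2 k, pow_mul N, hroot]
  have hΔk : (4 * (K * N)) ^ k = (4 * K) ^ k * n := by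
    rw [← mul_assoc, mul_pow, hroot]
  refine ⟨S, hsym, ?_, ?_, hnorm⟩
  · have h1 : (S.rank : ℝ) ≤ I.card := by exact_mod_cast hrank
    refine h1.trans ?_
    rw [← hnd, hτ2k, hΔk] at hI
    rw [le_div_iff₀ (by positivity)]
    have h2 : (I.card * ε ^ (2 * k)) * n ^ 2 ≤ (4 * K) ^ k * n ^ 2 := by nlinarith
    exact le_of_mul_le_mul_right h2 (by positivity)
  · intro x y
    refine (hent x y).trans (le_of_eq ?_)
    have h1 : n ^ (1 / (k : ℝ) - 1) = N / n := by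
      rw [Real.rpow_sub hn, Real.rpow_one]
    have h2 : ∀ t : ℝ, t ^ (2 * k) = t ^ (2 * k - 1) * t := by
      intro t
      rw [← pow_succ]
      congr 1
      omega
    rw [h1, hΔk, div_eq_iff (by positivity)]
    have h3 : (ε * N) ^ (2 * k - 1) * (ε * N) = ε ^ (2 * k - 1) * ε * n ^ 2 := by
      rw [← h2, ← h2, hτ2k]
    have h4 : (ε * N) ^ (2 * k - 1) * N = ε ^ (2 * k - 1) * n ^ 2 := by
      have h5 : ε * ((ε * N) ^ (2 * k - 1) * N) = ε * (ε ^ (2 * k - 1) * n ^ 2) := by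
        linarith
      exact mul_left_cancel₀ hε.ne' h5
    calc (4 * K) ^ k * n = (4 * K) ^ k / ε ^ (2 * k - 1) / n * (ε ^ (2 * k - 1) * n ^ 2) := by
          field_simp
      _ = (4 * K) ^ k / ε ^ (2 * k - 1) / n * ((ε * N) ^ (2 * k - 1) * N) := by rw [h4]
      _ = _ := by ring

theorem density_eq {V : Type} [Fintype V] [DecidableEq V] (G : SimpleGraph V) [DecidableRel G.Adj]
    {M : ℕ} (f : V → Fin M) (a b : Fin M) :
    avg f (fun u v => if G.Adj u v then (1 : ℝ) else 0) a b =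
      ((G.edgeDensity (univ.filter fun u => f u = a) (univ.filter fun u => f u = b) : ℚ) : ℝ) := by
  rw [SimpleGraph.edgeDensity_def]
  push_cast
  rw [← ar_eq_interedges]
  rfl

theorem result :
    -- (1) delocalised eigenvectors
    (∀ (k : ℕ) (Δ : ℝ) (V : Type) [Fintype V] [DecidableEq V] (G : SimpleGraph V)
      [DecidableRel G.Adj], 0 < Δ → ((2 * k : ℕ) : ℕ∞) < G.egirth →
      (∀ x, (G.degree x : ℝ) ≤ Δ) → ∀ (μ : ℝ) (v : V → ℝ), G.adjMatrix ℝ *ᵥ v = μ • v →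
      ∀ x, μ ^ (2 * k) * v x ^ 2 ≤ (4 * Δ) ^ k * ∑ y, v y ^ 2) ∧
    -- (2) low rank plus small norm
    (∀ (k : ℕ) (Δ τ : ℝ) (V : Type) [Fintype V] [DecidableEq V] (G : SimpleGraph V)
      [DecidableRel G.Adj], 1 ≤ k → 0 < Δ → 0 < τ → ((2 * k : ℕ) : ℕ∞) < G.egirth →
      (∀ x, (G.degree x : ℝ) ≤ Δ) →
      ∃ S : Matrix V V ℝ, Sᵀ = S ∧ (S.rank : ℝ) * τ ^ (2 * k) ≤ (4 * Δ) ^ k * Fintype.card V ∧
        (∀ x y, |S x y| ≤ (4 * Δ) ^ k / τ ^ (2 * k - 1)) ∧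
        ∀ v : V → ℝ, ∑ x, (((G.adjMatrix ℝ - S) *ᵥ v) x) ^ 2 ≤ τ ^ 2 * ∑ x, v x ^ 2) ∧
    -- (3) the range of the girth conjecture
    (∀ (k : ℕ) (K ε : ℝ) (V : Type) [Fintype V] [DecidableEq V] (G : SimpleGraph V)
      [DecidableRel G.Adj], 1 ≤ k → 0 < K → 0 < ε → ((2 * k : ℕ) : ℕ∞) < G.egirth →
      (∀ x, (G.degree x : ℝ) ≤ K * (Fintype.card V : ℝ) ^ (1 / (k : ℝ))) →
      ∃ S : Matrix V V ℝ, Sᵀ = S ∧ (S.rank : ℝ) ≤ (4 * K) ^ k / ε ^ (2 * k) ∧
        (∀ x y, |S x y| ≤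
          (4 * K) ^ k / ε ^ (2 * k - 1) * (Fintype.card V : ℝ) ^ (1 / (k : ℝ) - 1)) ∧
        ∀ v : V → ℝ, ∑ x, (((G.adjMatrix ℝ - S) *ᵥ v) x) ^ 2 ≤
          (ε * (Fintype.card V : ℝ) ^ (1 / (k : ℝ))) ^ 2 * ∑ x, v x ^ 2) ∧
    -- (4) regular partitions
    ∀ (k : ℕ) (ε : ℝ), 1 ≤ k → 0 < ε → ∃ M : ℕ, ∀ (V : Type) [Fintype V] [DecidableEq V]
      (G : SimpleGraph V) [DecidableRel G.Adj], ((2 * k : ℕ) : ℕ∞) < G.egirth →
      ∃ f : V → Fin M, ∀ X Y : Finset V,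
        |((G.interedges X Y).card : ℝ) - ∑ x ∈ X, ∑ y ∈ Y,
          ((G.edgeDensity (univ.filter fun u => f u = f x)
            (univ.filter fun u => f u = f y) : ℚ) : ℝ)| ≤
          ε * (Fintype.card V : ℝ) ^ (1 + 1 / (k : ℝ)) := by
  refine ⟨?_, ?_, ?_, ?_⟩
  · intro k Δ V _ _ G _ hΔ0 hg hΔ μ v hv x
    rw [egirth_iff] at hg
    exact delocalised G hg hΔ0 hΔ hv x
  · intro k Δ τ V _ _ G _ hk hΔ0 hτ hg hΔ
    rw [egirth_iff] at hg
    obtain ⟨I, g, σ, S, hI, -, -, -, hrank, hsym, hent, hnorm⟩ :=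
      decomposition G hk hg hΔ0 hΔ hτ
    refine ⟨S, hsym, le_trans ?_ hI, hent, hnorm⟩
    have h1 : (S.rank : ℝ) ≤ I.card := by exact_mod_cast hrank
    exact mul_le_mul_of_nonneg_right h1 (by positivity)
  · intro k K ε V _ _ G _ hk hK hε hg hdeg
    rw [egirth_iff] at hg
    exact at_scale hk hK hε V G hg hdeg
  · intro k ε hk hε
    obtain ⟨M, hM⟩ := regularity hk hε
    refine ⟨M, fun V _ _ G _ hg => ?_⟩
    rw [egirth_iff] at hg
    obtain ⟨f, hf⟩ := hM V G hg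
    refine ⟨f, fun X Y => ?_⟩
    have h := hf X Y
    rw [ar_eq_interedges] at h
    simp only [density_eq] at h
    exact h

end Pool.Agent.J4.H75.GE.SpectralStructureNote
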