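import Pool.Agent.J4.H75.GE.Struct

/-!
# Graphs of large girth and given treewidth
-/

set_option autoImplicit false
set_option linter.unusedSectionVars false

open Finset

namespace Pool.Agent.J4.H75.GE

open Pool.TH815.GR

/-- A balanced separation from a tree decomposition, by removing leaves. -/
theorem separation {V : Type} [DecidableEq V] (G : SimpleGraph V) {w : ℕ} (hw : 1 ≤ w)
    (W : Finset V) (hW : 5 * w ≤ W.card) :
    ∀ (N : ℕ) (ι : Type) [Fintype ι] (T : SimpleGraph ι) (_ : T.IsTree)
      (B A : ι → Finset V), Fintype.card ι = N →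
      (∀ t, B t ⊆ W) → (∀ t, A t ⊆ W) →
      (∀ v ∈ W, ∃ t, v ∈ B t ∨ v ∈ A t) →
      (∀ u ∈ W, ∀ v ∈ W, G.Adj u v → ∃ t, (u ∈ B t ∨ u ∈ A t) ∧ (v ∈ B t ∨ v ∈ A t)) →
      (∀ s t (p : T.Walk s t), p.IsPath → ∀ r ∈ p.support, ∀ v, v ∈ B s → v ∈ B t → v ∈ B r) →
      (∀ t s v, v ∈ A t → v ∈ A s → s = t) → (∀ t s v, v ∈ A t → v ∉ B s) →
      (∀ t, (B t).card ≤ w) → (∀ t, (A t).card < 2 * w) →
      ∃ P Q : Finset V, P ∪ Q = W ∧ (∀ u ∈ P, u ∉ Q → ∀ v ∈ Q, v ∉ P → ¬ G.Adj u v) ∧
        (P ∩ Q).card ≤ w ∧ 2 * w ≤ P.card ∧ P.card ≤ 5 * w := by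
  classical
  intro N
  induction N with
  | zero =>
    intro ι _ T hT B A hN
    have : IsEmpty ι := Fintype.card_eq_zero_iff.1 hN
    exact (this.elim hT.connected.nonempty.some)
  | succ N ih =>
    intro ι _ T hT B A hN hBW hAW h1 h2 h3 h4 h4' h5 h5'
    rcases Nat.eq_zero_or_pos N with hN0 | hN0
    · -- a single node
      exfalso
      subst hN0
      obtain ⟨t, ht⟩ := Fintype.card_eq_one_iff.1 hN
      have hsub : W ⊆ B t ∪ A t := by
        intro v hv
        obtain ⟨s, hs⟩ := h1 v hv
        rw [ht s] at hs
        exact mem_union.2 hs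
      have h6 := card_le_card hsub
      have h7 := card_union_le (B t) (A t)
      have h8 := h5 t
      have h9 := h5' t
      omega
    · have hnt : Nontrivial ι := by
        rw [← Fintype.one_lt_card_iff_nontrivial]
        omega
      obtain ⟨l, hl⟩ := hT.exists_vert_degree_one_of_nontrivial
      obtain ⟨p, hlp, hpu⟩ := SimpleGraph.degree_eq_one_iff_existsUnique_adj.1 hl
      have hpl : p ≠ l := hlp.ne'
      -- bags through the leaf
      have hleaf : ∀ t, t ≠ l → ∀ v, v ∈ B l → v ∈ B t → v ∈ B p := by
        intro t ht v hv1 hv2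
        obtain ⟨q, hq⟩ := hT.connected.exists_isPath l t
        have hnil : ¬ q.Nil := SimpleGraph.Walk.not_nil_of_ne ht.symm
        have hsnd : q.snd = p := hpu _ (q.adj_snd hnil)
        have hmem : p ∈ q.support := by
          rw [← hsnd]
          exact q.getVert_mem_support 1
        exact h3 l t q hq p hmem v hv1 hv2
      set X : Finset V := A l ∪ (B l \ B p) with hX
      have hXW : X ⊆ W := by
        intro v hv
        rw [hX, mem_union, mem_sdiff] at hv
        rcases hv with hv | hv
        · exact hAW l hv
        · exact hBW l hv.1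
      -- the nodes of the vertices of `X`
      have hXB : ∀ v ∈ X, ∀ t, (v ∈ B t ∨ v ∈ A t) → t = l := by
        intro v hv t ht
        by_contra hne
        rw [hX, mem_union, mem_sdiff] at hv
        rcases hv with hv | ⟨hv1, hv2⟩
        · rcases ht with ht | ht
          · exact h4' l t v hv ht
          · exact hne (h4 l t v hv ht)
        · rcases ht with ht | ht
          · exact hv2 (hleaf t hne v hv1 ht)
          · exact h4' t l v ht hv1
      by_cases hXbig : 2 * w ≤ X.card
      · refine ⟨A l ∪ B l, W \ X, ?_, ?_, ?_, ?_, ?_⟩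
        · ext v
          simp only [mem_union, mem_sdiff, hX, not_or, not_and, not_not]
          constructor
          · rintro ((h | h) | h)
            · exact hAW l h
            · exact hBW l h
            · exact h.1
          · intro h
            by_cases hvA : v ∈ A l
            · exact Or.inl (Or.inl hvA)
            · by_cases hvB : v ∈ B l
              · exact Or.inl (Or.inr hvB)
              · exact Or.inr ⟨h, hvA, fun h' => absurd h' hvB⟩
        · intro u hu huQ v hv hvP hadj
          have huW : u ∈ W := by
            rw [mem_union] at hu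
            rcases hu with h | h
            · exact hAW l h
            · exact hBW l h
          have huX : u ∈ X := by
            by_contra h
            exact huQ (mem_sdiff.2 ⟨huW, h⟩)
          obtain ⟨t, ht1, ht2⟩ := h2 u huW v (mem_sdiff.1 hv).1 hadj
          have := hXB u huX t ht1
          subst this
          exact hvP (mem_union.2 ht2.symm)
        · refine le_trans (card_le_card ?_) (h5 l)
          intro v hv
          rw [mem_inter, mem_union, mem_sdiff, hX, mem_union, mem_sdiff] at hv
          obtain ⟨h6 | h6, -, h7⟩ := hv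
          · exact absurd (Or.inl h6) h7
          · exact h6
        · refine hXbig.trans (card_le_card ?_)
          rw [hX]
          exact union_subset_union_right sdiff_subset
        · have h6 := card_union_le (A l) (B l)
          have h7 := h5 l
          have h8 := h5' l
          omega
      push Not at hXbig
      set Y : Finset V := A p ∪ X with hY
      have hYW : Y ⊆ W := union_subset (hAW p) hXW
      have hYt : ∀ u ∈ Y, ∀ t, (u ∈ B t ∨ u ∈ A t) → ∀ v, (v ∈ B t ∨ v ∈ A t) →
          v ∈ Y ∨ v ∈ B p := by
        intro u hu t hut v hvt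
        rw [hY, mem_union] at hu
        rcases hu with hu | hu
        · have : t = p := by
            rcases hut with h | h
            · exact absurd h (h4' p t u hu)
            · exact h4 p t u hu h
          subst this
          rcases hvt with h | h
          · exact Or.inr h
          · exact Or.inl (mem_union_left _ h)
        · have := hXB u hu t hut
          subst this
          rcases hvt with h | h
          · by_cases hvp : v ∈ B p
            · exact Or.inr hvp
            · exact Or.inl (mem_union_right _ (mem_union_right _ (mem_sdiff.2 ⟨h, hvp⟩)))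
          · exact Or.inl (mem_union_right _ (mem_union_left _ h))
      by_cases hYbig : 2 * w ≤ Y.card
      · refine ⟨Y ∪ B p, W \ Y, ?_, ?_, ?_, ?_, ?_⟩
        · ext v
          simp only [mem_union, mem_sdiff]
          constructor
          · rintro ((h | h) | h)
            · exact hYW (by simpa using h)
            · exact hBW p h
            · exact h.1
          · intro h
            by_cases hv : v ∈ Y
            · exact Or.inl (Or.inl hv)
            · exact Or.inr ⟨h, hv⟩
        · intro u hu huQ v hv hvP hadj
          have huW : u ∈ W := by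
            rw [mem_union] at hu
            rcases hu with h | h
            · exact hYW h
            · exact hBW p h
          have huY : u ∈ Y := by
            by_contra h
            exact huQ (mem_sdiff.2 ⟨huW, h⟩)
          obtain ⟨t, ht1, ht2⟩ := h2 u huW v (mem_sdiff.1 hv).1 hadj
          exact hvP (mem_union.2 (hYt u huY t ht1 v ht2))
        · refine le_trans (card_le_card ?_) (h5 p)
          intro v hv
          rw [mem_inter, mem_union, mem_sdiff] at hv
          obtain ⟨h6 | h6, -, h7⟩ := hv
          · exact absurd h6 h7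
          · exact h6
        · exact hYbig.trans (card_le_card subset_union_left)
        · have h6 := card_union_le Y (B p)
          have h7 := card_union_le (A p) X
          have h8 := h5 p
          have h9 := h5' p
          rw [← hY] at h7
          omega
      push Not at hYbig
      -- remove the leaf
      have hT' : (T.induce ({l}ᶜ : Set ι)).IsTree :=
        ⟨hT.connected.induce_compl_singleton_of_degree_eq_one hl, hT.isAcyclic.induce _⟩
      refine ih ↥({l}ᶜ : Set ι) (T.induce ({l}ᶜ : Set ι)) hT' (fun t => B t)
        (fun t => if (t : ι) = p then Y else A t) ?_ ?_ ?_ ?_ ?_ ?_ ?_ ?_ ?_ ?_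
      · rw [Fintype.card_compl_set, hN]
        simp
      · exact fun t => hBW t
      · intro t
        split_ifs
        · exact hYW
        · exact hAW t
      · intro v hv
        obtain ⟨t, ht⟩ := h1 v hv
        by_cases htl : t = l
        · subst htl
          refine ⟨⟨p, hpl⟩, ?_⟩
          simp only [if_true]
          rcases ht with h | h
          · by_cases hvp : v ∈ B p
            · exact Or.inl hvp
            · exact Or.inr (mem_union_right _ (mem_union_right _ (mem_sdiff.2 ⟨h, hvp⟩)))
          · exact Or.inr (mem_union_right _ (mem_union_left _ h))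
        · refine ⟨⟨t, htl⟩, ?_⟩
          simp only
          rcases ht with h | h
          · exact Or.inl h
          · right
            split_ifs with hp
            · rw [hp] at h
              exact mem_union_left _ h
            · exact h
      · intro u hu v hv hadj
        obtain ⟨t, ht1, ht2⟩ := h2 u hu v hv hadj
        by_cases htl : t = l
        · subst htl
          refine ⟨⟨p, hpl⟩, ?_⟩
          simp only [if_true]
          have key : ∀ x, (x ∈ B t ∨ x ∈ A t) → x ∈ B p ∨ x ∈ Y := by
            intro x hx
            rcases hx with h | h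
            · by_cases hvp : x ∈ B p
              · exact Or.inl hvp
              · exact Or.inr (mem_union_right _ (mem_union_right _ (mem_sdiff.2 ⟨h, hvp⟩)))
            · exact Or.inr (mem_union_right _ (mem_union_left _ h))
          exact ⟨key u ht1, key v ht2⟩
        · refine ⟨⟨t, htl⟩, ?_⟩
          simp only
          have key : ∀ x, (x ∈ B t ∨ x ∈ A t) → x ∈ B t ∨ x ∈ (if t = p then Y else A t) := by
            intro x hx
            rcases hx with h | h
            · exact Or.inl h
            · right
              split_ifs with hp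
              · rw [hp] at h
                exact mem_union_left _ h
              · exact h
          exact ⟨key u ht1, key v ht2⟩
      · intro s t q hq r hr v hv1 hv2
        let f := (SimpleGraph.Embedding.induce (G := T) ({l}ᶜ : Set ι)).toHom
        have hinj : Function.Injective f :=
          (SimpleGraph.Embedding.induce (G := T) ({l}ᶜ : Set ι)).injective
        have hq' : (q.map f).IsPath := hq.map hinj
        refine h3 _ _ (q.map f) hq' (f r) ?_ v hv1 hv2
        rw [SimpleGraph.Walk.support_map]
        exact List.mem_map_of_mem hr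
      · intro t s v hv1 hv2
        apply Subtype.ext
        by_cases htp : (t : ι) = p
        · rw [if_pos htp] at hv1
          by_cases hsp : (s : ι) = p
          · rw [htp, hsp]
          · rw [if_neg hsp] at hv2
            rw [hY, mem_union] at hv1
            rcases hv1 with h | h
            · exact absurd (h4 p s v h hv2) hsp
            · exact absurd (hXB v h s (Or.inr hv2)) s.2
        · rw [if_neg htp] at hv1
          by_cases hsp : (s : ι) = p
          · rw [if_pos hsp] at hv2
            rw [hY, mem_union] at hv2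
            rcases hv2 with h | h
            · exact absurd (h4 p t v h hv1) htp
            · exact absurd (hXB v h t (Or.inr hv1)) t.2
          · rw [if_neg hsp] at hv2
            exact h4 t s v hv1 hv2
      · intro t s v hv1 hv2
        by_cases htp : (t : ι) = p
        · rw [if_pos htp, hY, mem_union] at hv1
          rcases hv1 with h | h
          · exact h4' p s v h hv2
          · exact absurd (hXB v h s (Or.inl hv2)) s.2
        · rw [if_neg htp] at hv1
          exact h4' t s v hv1 hv2
      · exact fun t => h5 t
      · intro t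
        split_ifs
        · exact hYbig
        · exact h5' t

/-- The bound of Moore for subsets. -/
theorem moore_sub {V : Type} [Fintype V] [DecidableEq V] (G : SimpleGraph V) [DecidableRel G.Adj]
    {k : ℕ} (hk : 1 ≤ k) (hg : ∀ (v : V) (p : G.Walk v v), p.IsCycle → 2 * k < p.length)
    (U : Finset V) : ar G U U ≤ 24 * (U.card : ℝ) ^ (1 + 1 / (k : ℝ)) := by
  set e := U.equivFin with heq
  let φ : Fin U.card ↪ V := ⟨fun i => (e.symm i : V), fun i j h => by
    have h1 : e.symm i = e.symm j := Subtype.ext h
    exact e.symm.injective h1⟩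
  have hφuniv : (univ : Finset (Fin U.card)).map φ = U := by
    ext x
    rw [mem_map]
    constructor
    · rintro ⟨i, -, rfl⟩
      exact (e.symm i).2
    · intro hx
      refine ⟨e ⟨x, hx⟩, mem_univ _, ?_⟩
      show ((e.symm (e ⟨x, hx⟩) : U) : V) = x
      rw [Equiv.symm_apply_apply]
  have h := moore (G.comap φ) hk (cycle_comap (G := G) φ hg)
  rwa [Fintype.card_fin, ar_comap, hφuniv] at h

theorem moore_sub' {V : Type} [Fintype V] [DecidableEq V] (G : SimpleGraph V) [DecidableRel G.Adj]
    {k : ℕ} (hk : 1 ≤ k) (hg : ∀ (v : V) (p : G.Walk v v), p.IsCycle → 2 * k < p.length)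
    {w : ℕ} (U : Finset V) (hU : U.card ≤ 5 * w) :
    ar G U U ≤ 120 * (U.card : ℝ) * (w : ℝ) ^ (1 / (k : ℝ)) := by
  have hkpos : (1 : ℝ) ≤ k := by exact_mod_cast hk
  rcases Nat.eq_zero_or_pos U.card with h0 | h0
  · rw [card_eq_zero] at h0
    subst h0
    simp [ar]
  have hU0 : (0 : ℝ) < U.card := by exact_mod_cast h0
  have h1 : (U.card : ℝ) ≤ 5 * w := by exact_mod_cast hU
  have hw0 : (0 : ℝ) ≤ w := Nat.cast_nonneg _
  calc ar G U U ≤ 24 * (U.card : ℝ) ^ (1 + 1 / (k : ℝ)) := moore_sub G hk hg U
    _ = 24 * U.card * (U.card : ℝ) ^ (1 / (k : ℝ)) := by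
        rw [Real.rpow_add hU0, Real.rpow_one]; ring
    _ ≤ 24 * U.card * (5 * (w : ℝ) ^ (1 / (k : ℝ))) := by
        apply mul_le_mul_of_nonneg_left _ (by positivity)
        calc (U.card : ℝ) ^ (1 / (k : ℝ)) ≤ (5 * (w : ℝ)) ^ (1 / (k : ℝ)) :=
              Real.rpow_le_rpow hU0.le h1 (by positivity)
          _ = 5 ^ (1 / (k : ℝ)) * (w : ℝ) ^ (1 / (k : ℝ)) := Real.mul_rpow (by norm_num) hw0
          _ ≤ 5 * (w : ℝ) ^ (1 / (k : ℝ)) := by
              apply mul_le_mul_of_nonneg_right _ (by positivity)
              calc (5 : ℝ) ^ (1 / (k : ℝ)) ≤ 5 ^ (1 : ℝ) := by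
                    apply Real.rpow_le_rpow_of_exponent_le (by norm_num)
                    rw [div_le_one (by linarith)]
                    exact hkpos
                _ = 5 := Real.rpow_one _
    _ = _ := by ring

/-- **Edges and treewidth**, for all vertex subsets. -/
theorem treewidth_bound {V : Type} [Fintype V] [DecidableEq V] (G : SimpleGraph V)
    [DecidableRel G.Adj] {k : ℕ} (hk : 1 ≤ k)
    (hg : ∀ (v : V) (p : G.Walk v v), p.IsCycle → 2 * k < p.length) {w : ℕ} (hw : 1 ≤ w)
    (ι : Type) [Fintype ι] (T : SimpleGraph ι) (hT : T.IsTree) (B : ι → Finset V)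
    (h1 : ∀ v, ∃ t, v ∈ B t) (h2 : ∀ u v, G.Adj u v → ∃ t, u ∈ B t ∧ v ∈ B t)
    (h3 : ∀ s t (p : T.Walk s t), p.IsPath → ∀ r ∈ p.support, ∀ v, v ∈ B s → v ∈ B t → v ∈ B r)
    (h5 : ∀ t, (B t).card ≤ w) :
    ∀ W : Finset V, ar G W W ≤ 240 * (W.card : ℝ) * (w : ℝ) ^ (1 / (k : ℝ)) := by
  intro W
  have hw1 : (1 : ℝ) ≤ w := by exact_mod_cast hw
  have hR0 : 0 ≤ (w : ℝ) ^ (1 / (k : ℝ)) := by positivity
  induction hn : W.card using Nat.strong_induction_on generalizing W with
  | _ n ih =>
  by_cases hsmall : W.card ≤ 5 * w
  · have h := moore_sub' G hk hg W hsmall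
    rw [← hn]
    have : 0 ≤ (W.card : ℝ) * (w : ℝ) ^ (1 / (k : ℝ)) := by positivity
    linarith
  push Not at hsmall
  obtain ⟨P, Q, hPQ, hno, hint, hP2, hP5⟩ := separation G hw W hsmall.le (Fintype.card ι) ι T hT
    (fun t => B t ∩ W) (fun _ => ∅) rfl (fun t => inter_subset_right) (fun t => empty_subset _)
    (by
      intro v hv
      obtain ⟨t, ht⟩ := h1 v
      exact ⟨t, Or.inl (mem_inter.2 ⟨ht, hv⟩)⟩)
    (by
      intro u hu v hv hadj
      obtain ⟨t, ht1, ht2⟩ := h2 u v hadj
      exact ⟨t, Or.inl (mem_inter.2 ⟨ht1, hu⟩), Or.inl (mem_inter.2 ⟨ht2, hv⟩)⟩)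
    (by
      intro s t p hp r hr v hv1 hv2
      rw [mem_inter] at hv1 hv2 ⊢
      exact ⟨h3 s t p hp r hr v hv1.1 hv2.1, hv1.2⟩)
    (by simp) (by simp) (fun t => (card_le_card inter_subset_left).trans (h5 t))
    (by
      intro t
      simp only [card_empty]
      omega)
  have hcard : P.card + Q.card = W.card + (P ∩ Q).card := by
    rw [← hPQ, card_union_add_card_inter]
  have hQlt : Q.card < n := by omega
  have hQ := ih Q.card hQlt Q rfl
  have hPm := moore_sub' G hk hg P hP5
  -- the edges of `W` lie in `P` or in `Q`
  have hsplit : ar G W W ≤ ar G P P + ar G Q Q := by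
    have e1 : ar G W W = ∑ x : V, ∑ y : V, if x ∈ W ∧ y ∈ W ∧ G.Adj x y then (1 : ℝ) else 0 := by
      unfold ar
      rw [← sum_subset (subset_univ W)]
      · refine sum_congr rfl fun x hx => ?_
        rw [← sum_subset (subset_univ W)]
        · refine sum_congr rfl fun y hy => ?_
          simp [hx, hy]
        · intro y _ hy
          simp [hy]
      · intro x _ hx
        simp [hx]
    have e2 : ∀ S : Finset V,
        ar G S S = ∑ x : V, ∑ y : V, if x ∈ S ∧ y ∈ S ∧ G.Adj x y then (1 : ℝ) else 0 := by
      intro S
      unfold ar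
      rw [← sum_subset (subset_univ S)]
      · refine sum_congr rfl fun x hx => ?_
        rw [← sum_subset (subset_univ S)]
        · refine sum_congr rfl fun y hy => ?_
          simp [hx, hy]
        · intro y _ hy
          simp [hy]
      · intro x _ hx
        simp [hx]
    rw [e1, e2 P, e2 Q, ← sum_add_distrib]
    refine sum_le_sum fun x _ => ?_
    rw [← sum_add_distrib]
    refine sum_le_sum fun y _ => ?_
    by_cases h : x ∈ W ∧ y ∈ W ∧ G.Adj x y
    · rw [if_pos h]
      have hPQ' : (x ∈ P ∧ y ∈ P ∧ G.Adj x y) ∨ (x ∈ Q ∧ y ∈ Q ∧ G.Adj x y) := by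
        obtain ⟨hx, hy, hadj⟩ := h
        rw [← hPQ, mem_union] at hx hy
        by_contra hcon
        push Not at hcon
        obtain ⟨c1, c2⟩ := hcon
        rcases hx with hx | hx
        · have hyP : y ∉ P := fun h => c1 hx h hadj
          have hyQ : y ∈ Q := hy.resolve_left hyP
          have hxQ : x ∉ Q := fun h => c2 h hyQ hadj
          exact hno x hx hxQ y hyQ hyP hadj
        · have hyQ : y ∉ Q := fun h => c2 hx h hadj
          have hyP : y ∈ P := hy.resolve_right hyQ
          have hxP : x ∉ P := fun h => c1 h hyP hadj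
          exact hno y hyP hyQ x hx hxP hadj.symm
      rcases hPQ' with h' | h'
      · rw [if_pos h']
        split_ifs <;> norm_num
      · rw [if_pos h']
        split_ifs <;> norm_num
    · rw [if_neg h]
      split_ifs <;> norm_num
  have hc : (P.card : ℝ) + Q.card ≤ n + w := by
    have : P.card + Q.card ≤ n + w := by omega
    exact_mod_cast this
  have hP2' : 2 * (w : ℝ) ≤ P.card := by exact_mod_cast hP2
  have hfin : 120 * (P.card : ℝ) + 240 * Q.card ≤ 240 * n := by linarith
  calc ar G W W ≤ ar G P P + ar G Q Q := hsplit
    _ ≤ 120 * P.card * (w : ℝ) ^ (1 / (k : ℝ)) + 240 * Q.card * (w : ℝ) ^ (1 / (k : ℝ)) := by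
        linarith
    _ = (120 * (P.card : ℝ) + 240 * Q.card) * (w : ℝ) ^ (1 / (k : ℝ)) := by ring
    _ ≤ (240 * (n : ℝ)) * (w : ℝ) ^ (1 / (k : ℝ)) := mul_le_mul_of_nonneg_right hfin hR0

end Pool.Agent.J4.H75.GE
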