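import Pool.Agent.J4.H75.GE.Cop

/-!
# The girth conjecture and treewidth

* A graph on `n` vertices of girth greater than `2 k` and treewidth less than `w` has at most
  `120 n w ^ (1 / k)` edges. So the graphs with `c n ^ (1 + 1 / k)` edges which the girth conjecture
  asks for have treewidth at least `(c / 120) ^ k n - 1`: it is linear.
* For all `k` and `α > 0`: there are graphs of girth greater than `2 k` with `c n ^ (1 + α)` edges,
  for all large `n`, if and only if there are such graphs with `c n w ^ α` edges and treewidth less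
  than `w`, for all large `w` and all `n ≥ w`. In particular the girth conjecture for the parameter
  `k` says exactly that the first bound is sharp, up to a constant factor, for all `w` and `n`.

Idea: remove the leaves of the tree one by one. This gives a separation of `G` of order at most `w`
one side `P` of which has between `2 w` and `5 w` vertices. The bound of Moore applies to `P`,
induction to the other side.
-/

set_option autoImplicit false

namespace Pool.Agent.J4.H75.GE.TreewidthNote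

open Finset Pool.Agent.J4.H75.GE Pool.TH815.GR

/-- Tree decompositions: the bags cover the vertices and the edges, and every bag on the path of
the tree from `s` to `t` contains the common vertices of the bags of `s` and `t`. -/
structure IsTreeDecomposition {V ι : Type} (G : SimpleGraph V) (T : SimpleGraph ι)
    (bag : ι → Set V) : Prop where
  tree : T.IsTree
  vertices : ∀ v, ∃ t, v ∈ bag t
  edges : ∀ u v, G.Adj u v → ∃ t, u ∈ bag t ∧ v ∈ bag t
  paths : ∀ (s t : ι) (p : T.Walk s t), p.IsPath → ∀ r ∈ p.support, bag s ∩ bag t ⊆ bag r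

/-- The treewidth of `G` is less than `w`: some tree decomposition of `G` has all bags of at most
`w` vertices. -/
def TreewidthLT (w : ℕ) {V : Type} (G : SimpleGraph V) : Prop :=
  ∃ (ι : Type) (_ : Finite ι) (T : SimpleGraph ι) (bag : ι → Set V),
    IsTreeDecomposition G T bag ∧ ∀ t, (bag t).ncard ≤ w

theorem upper {V : Type} [Fintype V] (G : SimpleGraph V) {k w : ℕ} (hk : 1 ≤ k)
    (hg : ((2 * k : ℕ) : ℕ∞) < G.egirth) (h : TreewidthLT w G) :
    (G.edgeSet.ncard : ℝ) ≤ 120 * Fintype.card V * (w : ℝ) ^ (1 / (k : ℝ)) := by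
  classical
  obtain ⟨ι, hι, T, bag, hT, hw⟩ := h
  have := Fintype.ofFinite ι
  rw [egirth_iff] at hg
  have hee : (G.edgeFinset.card : ℝ) = (G.edgeSet.ncard : ℝ) := by
    rw [← SimpleGraph.coe_edgeFinset, Set.ncard_coe_finset]
  have h2 := ar_univ G
  rcases Nat.eq_zero_or_pos w with h0 | h0
  · -- all bags are empty
    have hV : IsEmpty V := by
      constructor
      intro v
      obtain ⟨t, ht⟩ := hT.vertices v
      have h3 := hw t
      rw [h0, Nat.le_zero, Set.ncard_eq_zero (Set.toFinite _)] at h3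
      rw [h3] at ht
      exact ht
    have h4 : ar G univ univ = 0 := by
      rw [show (univ : Finset V) = ∅ from univ_eq_empty, ar_empty]
    have h5 : (0 : ℝ) ≤ 120 * Fintype.card V * (w : ℝ) ^ (1 / (k : ℝ)) := by positivity
    linarith
  have h1 := treewidth_bound G hk hg (w := w) h0 ι T hT.tree (fun t => (bag t).toFinset)
    (by
      intro v
      obtain ⟨t, ht⟩ := hT.vertices v
      exact ⟨t, Set.mem_toFinset.2 ht⟩)
    (by
      intro u v huv
      obtain ⟨t, ht1, ht2⟩ := hT.edges u v huv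
      exact ⟨t, Set.mem_toFinset.2 ht1, Set.mem_toFinset.2 ht2⟩)
    (by
      intro s t p hp r hr v hv1 hv2
      rw [Set.mem_toFinset] at hv1 hv2 ⊢
      exact hT.paths s t p hp r hr ⟨hv1, hv2⟩)
    (by
      intro t
      rw [← Set.ncard_eq_toFinset_card']
      exact hw t) univ
  rw [card_univ] at h1
  linarith

theorem linear {V : Type} [Fintype V] (G : SimpleGraph V) {k w : ℕ} (hk : 1 ≤ k)
    (hg : ((2 * k : ℕ) : ℕ∞) < G.egirth) {c : ℝ} (hc : 0 < c)
    (he : c * (Fintype.card V : ℝ) ^ (1 + 1 / (k : ℝ)) ≤ (G.edgeSet.ncard : ℝ))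
    (h : TreewidthLT w G) : (c / 120) ^ k * (Fintype.card V : ℝ) ≤ w := by
  have hkpos : (0 : ℝ) < k := by exact_mod_cast hk
  rcases Nat.eq_zero_or_pos (Fintype.card V) with h0 | h0
  · rw [h0]
    simp
  have hn0 : (0 : ℝ) < Fintype.card V := by exact_mod_cast h0
  have h1 := he.trans (upper G hk hg h)
  rw [Real.rpow_add hn0, Real.rpow_one] at h1
  have h2 : c * (Fintype.card V : ℝ) ^ (1 / (k : ℝ)) ≤ 120 * (w : ℝ) ^ (1 / (k : ℝ)) := by
    have h3 : (c * (Fintype.card V : ℝ) ^ (1 / (k : ℝ))) * Fintype.card V ≤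
        (120 * (w : ℝ) ^ (1 / (k : ℝ))) * Fintype.card V := by linarith
    exact le_of_mul_le_mul_right h3 hn0
  have hroot : ∀ x : ℝ, 0 ≤ x → (x ^ (1 / (k : ℝ))) ^ k = x := by
    intro x hx
    rw [← Real.rpow_natCast, ← Real.rpow_mul hx]
    have : (1 / (k : ℝ)) * (k : ℝ) = 1 := by field_simp
    rw [this, Real.rpow_one]
  have h4 : c / 120 * (Fintype.card V : ℝ) ^ (1 / (k : ℝ)) ≤ (w : ℝ) ^ (1 / (k : ℝ)) := by
    linarith
  have h5 := pow_le_pow_left₀ (by positivity) h4 k
  rw [mul_pow, hroot _ hn0.le, hroot _ (Nat.cast_nonneg _)] at h5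
  exact h5

theorem copies_tw {w n : ℕ} (hw : 0 < w) (G : SimpleGraph (Fin w)) :
    TreewidthLT w (cop w n hw G) := by
  refine ⟨Fin (n / w + 1), inferInstance, SimpleGraph.starGraph 0,
    fun b => {i : Fin n | i.val / w = b.val}, ⟨SimpleGraph.isTree_starGraph 0, ?_, ?_, ?_⟩,
    fun b => block_card w n hw b.val⟩
  · intro v
    refine ⟨⟨v.val / w, ?_⟩, rfl⟩
    have : v.val / w ≤ n / w := Nat.div_le_div_right v.2.le
    omega
  · intro u v huv
    refine ⟨⟨u.val / w, ?_⟩, rfl, huv.1.symm⟩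
    have : u.val / w ≤ n / w := Nat.div_le_div_right u.2.le
    omega
  · intro s t p hp r hr v hv
    obtain ⟨h1, h2⟩ := hv
    have hst : s = t := Fin.ext (h1.symm.trans h2)
    subst hst
    rw [SimpleGraph.Walk.isPath_iff_eq_nil] at hp
    subst hp
    have : r = s := by simpa using hr
    subst this
    exact h1

theorem result :
    -- (1) edges and treewidth
    (∀ (k w : ℕ) (V : Type) [Fintype V] (G : SimpleGraph V), 1 ≤ k →
      ((2 * k : ℕ) : ℕ∞) < G.egirth → TreewidthLT w G →
      (G.edgeSet.ncard : ℝ) ≤ 120 * Fintype.card V * (w : ℝ) ^ (1 / (k : ℝ))) ∧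
    -- (2) the graphs of the girth conjecture have linear treewidth
    (∀ (k w : ℕ) (c : ℝ) (V : Type) [Fintype V] (G : SimpleGraph V), 1 ≤ k → 0 < c →
      ((2 * k : ℕ) : ℕ∞) < G.egirth →
      c * (Fintype.card V : ℝ) ^ (1 + 1 / (k : ℝ)) ≤ (G.edgeSet.ncard : ℝ) →
      TreewidthLT w G → (c / 120) ^ k * (Fintype.card V : ℝ) ≤ w) ∧
    -- (3) the girth conjecture (`α = 1 / k`) and its weaker forms as statements about all treewidths
    ∀ (k : ℕ) (α : ℝ), 0 < α →
      ((∃ c : ℝ, 0 < c ∧ ∃ N : ℕ, ∀ n ≥ N, ∃ G : SimpleGraph (Fin n),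
          ((2 * k : ℕ) : ℕ∞) < G.egirth ∧ c * (n : ℝ) ^ (1 + α) ≤ (G.edgeSet.ncard : ℝ)) ↔
        ∃ c : ℝ, 0 < c ∧ ∃ N : ℕ, ∀ w n : ℕ, N ≤ w → w ≤ n → ∃ G : SimpleGraph (Fin n),
          ((2 * k : ℕ) : ℕ∞) < G.egirth ∧ TreewidthLT w G ∧
          c * n * (w : ℝ) ^ α ≤ (G.edgeSet.ncard : ℝ)) := by
  refine ⟨fun k w V _ G hk hg h => upper G hk hg h,
    fun k w c V _ G hk hc hg he h => linear G hk hg hc he h, fun k α hα => ⟨?_, ?_⟩⟩
  · rintro ⟨c, hc, N, hN⟩
    refine ⟨c / 2, by positivity, max N 1, fun w n hw hn => ?_⟩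
    have hw0 : 0 < w := le_trans (le_max_right _ _) hw
    obtain ⟨G, hG, hE⟩ := hN w (le_trans (le_max_left _ _) hw)
    refine ⟨cop w n hw0 G, cop_girth w n hw0 G hG, copies_tw hw0 G, ?_⟩
    have h1 : ((n / w : ℕ) : ℝ) * (G.edgeSet.ncard : ℝ) ≤ ((cop w n hw0 G).edgeSet.ncard : ℝ) := by
      exact_mod_cast cop_edges w n hw0 G
    refine le_trans ?_ h1
    have hw0' : (0 : ℝ) < w := by exact_mod_cast hw0
    have h2 : (n : ℝ) ≤ 2 * ((n / w : ℕ) : ℝ) * w := by
      have h3 : n ≤ 2 * (n / w) * w := by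
        have h6 : 1 ≤ n / w := by
          rw [Nat.one_le_div_iff hw0]; exact hn
        have h7 : n % w < w := Nat.mod_lt _ hw0
        have h8 : w ≤ n / w * w := by
          calc w = 1 * w := (one_mul w).symm
            _ ≤ n / w * w := Nat.mul_le_mul_right w h6
        have h9 := Nat.div_add_mod n w
        rw [Nat.mul_comm] at h9
        calc n = n / w * w + n % w := h9.symm
          _ ≤ n / w * w + n / w * w := by omega
          _ = 2 * (n / w) * w := by ring
      exact_mod_cast h3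
    have h4 : (0 : ℝ) ≤ (w : ℝ) ^ α := by positivity
    have h5 : c * (w : ℝ) ^ (1 + α) = c * w * (w : ℝ) ^ α := by
      rw [Real.rpow_add hw0', Real.rpow_one]; ring
    calc c / 2 * n * (w : ℝ) ^ α ≤ c / 2 * (2 * ((n / w : ℕ) : ℝ) * w) * (w : ℝ) ^ α := by
          gcongr
      _ = ((n / w : ℕ) : ℝ) * (c * (w : ℝ) ^ (1 + α)) := by rw [h5]; ring
      _ ≤ _ := mul_le_mul_of_nonneg_left hE (Nat.cast_nonneg _)
  · rintro ⟨c, hc, N, hN⟩
    refine ⟨c, hc, max N 1, fun n hn => ?_⟩
    have hn0 : 0 < n := le_trans (le_max_right _ _) hn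
    obtain ⟨G, hG, -, hE⟩ := hN n n (le_trans (le_max_left _ _) hn) le_rfl
    refine ⟨G, hG, ?_⟩
    have hn0' : (0 : ℝ) < n := by exact_mod_cast hn0
    rw [Real.rpow_add hn0', Real.rpow_one]
    linarith

end Pool.Agent.J4.H75.GE.TreewidthNote
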