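import Pool.Agent.H268R2.LB.NW

/-!
# Closed walks in graphs of large girth
-/

set_option autoImplicit false
set_option linter.unusedSectionVars false

open Finset Matrix

namespace Pool.Agent.J4.H75.GE

open Pool.Agent.H268R2.LB

variable {V : Type} [Fintype V] [DecidableEq V] (G : SimpleGraph V) [DecidableRel G.Adj]

theorem pow_succ_apply (m : ℕ) (y x : V) :
    (G.adjMatrix ℝ ^ (m + 1)) y x = ∑ z ∈ G.neighborFinset y, (G.adjMatrix ℝ ^ m) z x := by
  rw [pow_succ', SimpleGraph.adjMatrix_mul_apply]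

theorem NW.pred {n : ℕ} {a b c d : V} (h : NW G (n + 1) a b c d) :
    (n = 0 ∧ c = a) ∨ ∃ c', NW G n a b c' c := by
  generalize hm : n + 1 = m at h
  cases h with
  | one h => exact Or.inl ⟨by omega, rfl⟩
  | step h _ _ =>
    right
    have h2 := Nat.succ_injective hm
    subst h2
    exact ⟨_, h⟩

/-- The number of walks of length `m` from `x` to a vertex `y` at the end of a nonbacktracking walk
of length `j`. -/
theorem walks_le {k : ℕ} (hg : ∀ (v : V) (p : G.Walk v v), p.IsCycle → 2 * k < p.length)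
    {s : ℝ} (hs : 0 < s) (hΔ : ∀ x, (G.degree x : ℝ) ≤ s ^ 2) (x : V) :
    ∀ m : ℕ, (∀ j b c y, NW G j x b c y → m + j ≤ 2 * k →
      (G.adjMatrix ℝ ^ m) y x ≤ (2 * s) ^ m * (s⁻¹) ^ j) ∧
      (m ≤ 2 * k → (G.adjMatrix ℝ ^ m) x x ≤ (2 * s) ^ m) := by
  intro m
  induction m with
  | zero =>
    refine ⟨?_, fun _ => by simp⟩
    intro j b c y h hj
    by_cases hyx : y = x
    · subst hyx
      exact (no_closed hg h (by omega)).elim
    · rw [pow_zero, pow_zero, Matrix.one_apply_ne hyx]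
      positivity
  | succ m ih =>
    obtain ⟨ih1, ih2⟩ := ih
    have hnn : ∀ (a b : V), 0 ≤ (G.adjMatrix ℝ ^ m) a b := by
      intro a b
      have : ∀ (m : ℕ) (a b : V), 0 ≤ (G.adjMatrix ℝ ^ m) a b := by
        intro m
        induction m with
        | zero =>
          intro a b
          rw [pow_zero, Matrix.one_apply]
          split_ifs <;> norm_num
        | succ m ih =>
          intro a b
          rw [pow_succ_apply]
          exact sum_nonneg fun z _ => ih z b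
      exact this m a b
    constructor
    · intro j b c y h hj
      obtain ⟨i, rfl⟩ : ∃ i, j = i + 1 := ⟨j - 1, by have := h.pos; omega⟩
      have hadj : G.Adj y c := h.adj_last.symm
      rw [pow_succ_apply]
      have hc : c ∈ G.neighborFinset y := by simpa using hadj
      rw [← add_sum_erase _ _ hc]
      have h1 : (G.adjMatrix ℝ ^ m) c x ≤ (2 * s) ^ m * (s⁻¹) ^ i := by
        rcases NW.pred G h with ⟨h0, hca⟩ | ⟨c', hc'⟩
        · subst h0
          rw [hca]
          simpa using ih2 (by omega)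
        · exact ih1 i b c' c hc' (by omega)
      have h2 : ∑ z ∈ (G.neighborFinset y).erase c, (G.adjMatrix ℝ ^ m) z x ≤
          s ^ 2 * ((2 * s) ^ m * (s⁻¹) ^ (i + 2)) := by
        calc ∑ z ∈ (G.neighborFinset y).erase c, (G.adjMatrix ℝ ^ m) z x
            ≤ ∑ z ∈ (G.neighborFinset y).erase c, (2 * s) ^ m * (s⁻¹) ^ (i + 2) := by
              refine sum_le_sum fun z hz => ?_
              rw [mem_erase] at hz
              have hz2 : G.Adj y z := by simpa using hz.2
              exact ih1 (i + 1 + 1) b y z (NW.step h hz2 (Ne.symm hz.1)) (by omega)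
          _ ≤ ∑ z ∈ G.neighborFinset y, (2 * s) ^ m * (s⁻¹) ^ (i + 2) :=
              sum_le_sum_of_subset_of_nonneg (erase_subset _ _) (fun _ _ _ => by positivity)
          _ = (G.degree y : ℝ) * ((2 * s) ^ m * (s⁻¹) ^ (i + 2)) := by
              rw [sum_const, nsmul_eq_mul, G.card_neighborFinset_eq_degree]
          _ ≤ _ := mul_le_mul_of_nonneg_right (hΔ y) (by positivity)
      have h3 : s ^ 2 * ((2 * s) ^ m * (s⁻¹) ^ (i + 2)) = (2 * s) ^ m * (s⁻¹) ^ i := by
        rw [pow_add (s⁻¹) i 2]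
        field_simp
      have h4 : (2 * s) ^ (m + 1) * (s⁻¹) ^ (i + 1) = 2 * ((2 * s) ^ m * (s⁻¹) ^ i) := by
        rw [pow_succ, pow_succ]
        field_simp
      rw [h4]
      linarith
    · intro hm
      rw [pow_succ_apply]
      calc ∑ z ∈ G.neighborFinset x, (G.adjMatrix ℝ ^ m) z x
          ≤ ∑ z ∈ G.neighborFinset x, (2 * s) ^ m * (s⁻¹) ^ 1 := by
            refine sum_le_sum fun z hz => ?_
            have hz2 : G.Adj x z := by simpa using hz
            exact ih1 1 z x z (NW.one hz2) (by omega)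
        _ = (G.degree x : ℝ) * ((2 * s) ^ m * (s⁻¹) ^ 1) := by
            rw [sum_const, nsmul_eq_mul, G.card_neighborFinset_eq_degree]
        _ ≤ s ^ 2 * ((2 * s) ^ m * (s⁻¹) ^ 1) := mul_le_mul_of_nonneg_right (hΔ x) (by positivity)
        _ = (2 * s) ^ m * s := by
            rw [pow_one]
            field_simp
        _ ≤ (2 * s) ^ m * (2 * s) := mul_le_mul_of_nonneg_left (by linarith) (by positivity)
        _ = (2 * s) ^ (m + 1) := (pow_succ _ _).symm

/-- Closed walks of length `2 k`. -/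
theorem closed_walks {k : ℕ} (hg : ∀ (v : V) (p : G.Walk v v), p.IsCycle → 2 * k < p.length)
    {Δ : ℝ} (hΔ0 : 0 < Δ) (hΔ : ∀ x, (G.degree x : ℝ) ≤ Δ) (x : V) :
    (G.adjMatrix ℝ ^ (2 * k)) x x ≤ (4 * Δ) ^ k := by
  have hs : 0 < √Δ := Real.sqrt_pos.2 hΔ0
  have h := (walks_le G hg hs (fun x => by rw [Real.sq_sqrt hΔ0.le]; exact hΔ x) x (2 * k)).2 le_rfl
  refine h.trans_eq ?_
  rw [pow_mul, mul_pow, Real.sq_sqrt hΔ0.le]
  norm_num

/-- Eigenvectors of large eigenvalues are spread out. -/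
theorem delocalised {k : ℕ} (hg : ∀ (v : V) (p : G.Walk v v), p.IsCycle → 2 * k < p.length)
    {Δ : ℝ} (hΔ0 : 0 < Δ) (hΔ : ∀ x, (G.degree x : ℝ) ≤ Δ) {μ : ℝ} {v : V → ℝ}
    (hv : G.adjMatrix ℝ *ᵥ v = μ • v) (x : V) :
    μ ^ (2 * k) * v x ^ 2 ≤ (4 * Δ) ^ k * ∑ y, v y ^ 2 := by
  have hpow : ∀ m : ℕ, (G.adjMatrix ℝ ^ m) *ᵥ v = μ ^ m • v := by
    intro m
    induction m with
    | zero => simp
    | succ m ih =>
      rw [pow_succ, ← Matrix.mulVec_mulVec, hv, Matrix.mulVec_smul, ih, smul_smul]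
      congr 1
      ring
  have h1 : μ ^ k * v x = ∑ y, (G.adjMatrix ℝ ^ k) x y * v y := by
    have := congrFun (hpow k) x
    rw [Matrix.mulVec, dotProduct] at this
    rw [this]
    simp
  have hsymm : ∀ y, (G.adjMatrix ℝ ^ k) y x = (G.adjMatrix ℝ ^ k) x y := by
    intro y
    have h2 : (G.adjMatrix ℝ ^ k)ᵀ = G.adjMatrix ℝ ^ k := by
      rw [Matrix.transpose_pow, SimpleGraph.transpose_adjMatrix]
    calc (G.adjMatrix ℝ ^ k) y x = ((G.adjMatrix ℝ ^ k)ᵀ) x y := rfl
      _ = _ := by rw [h2]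
  have h2 : ∑ y, ((G.adjMatrix ℝ ^ k) x y) ^ 2 = (G.adjMatrix ℝ ^ (2 * k)) x x := by
    rw [two_mul, pow_add, Matrix.mul_apply]
    refine sum_congr rfl fun y _ => ?_
    rw [hsymm y, sq]
  have h3 := closed_walks G hg hΔ0 hΔ x
  calc μ ^ (2 * k) * v x ^ 2 = (μ ^ k * v x) ^ 2 := by ring
    _ = (∑ y, (G.adjMatrix ℝ ^ k) x y * v y) ^ 2 := by rw [h1]
    _ ≤ (∑ y, ((G.adjMatrix ℝ ^ k) x y) ^ 2) * ∑ y, v y ^ 2 :=
        sum_mul_sq_le_sq_mul_sq _ _ _
    _ ≤ _ := by
        rw [h2]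
        exact mul_le_mul_of_nonneg_right h3 (sum_nonneg fun _ _ => sq_nonneg _)

end Pool.Agent.J4.H75.GE
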